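import Pool.Agent.Helper92.HHGDefs

set_option autoImplicit false

universe u v w

namespace Pool.Agent.Helper92.CT

/-- Data for an abelian group acting coarsely isometrically with nearly constant displacement on
a hyperbolic pseudometric. -/
structure Disp {G : Type w} [Group G] (D : G → G → ℝ) (B : Subgroup G) (δ M c R0 : ℝ) : Prop where
  self : ∀ x, D x x = 0
  symm : ∀ x y, D x y = D y x
  tri : ∀ x y z, D x z ≤ D x y + D y z
  hyp : Hyp D δ
  mid : ∀ x y, ∃ z, |D x z - D x y / 2| ≤ M ∧ |D z y - D x y / 2| ≤ M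
  comm : ∀ a ∈ B, ∀ b ∈ B, a * b = b * a
  inv : ∀ b ∈ B, ∀ x y, |D (b * x) (b * y) - D x y| ≤ c
  disp : ∀ a ∈ B, ∀ x, |D x (a * x) - D 1 a| ≤ R0

namespace Disp

variable {G : Type w} [Group G] {D : G → G → ℝ} {B : Subgroup G} {δ M c R0 : ℝ}

lemma nonneg (h : Disp D B δ M c R0) (x y : G) : 0 ≤ D x y := by
  have h1 := h.tri x y x
  rw [h.self, h.symm y x] at h1
  linarith

lemma δ_nonneg (h : Disp D B δ M c R0) : 0 ≤ δ := by
  have h1 := h.hyp 1 1 1 1
  rw [min_self] at h1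
  linarith

lemma M_nonneg (h : Disp D B δ M c R0) : 0 ≤ M := by
  obtain ⟨z, h1, _⟩ := h.mid 1 1
  exact le_trans (abs_nonneg _) h1

lemma c_nonneg (h : Disp D B δ M c R0) : 0 ≤ c := le_trans (abs_nonneg _) (h.inv 1 B.one_mem 1 1)

lemma R0_nonneg (h : Disp D B δ M c R0) : 0 ≤ R0 :=
  le_trans (abs_nonneg _) (h.disp 1 B.one_mem 1)

lemma four (h : Disp D B δ M c R0) (b x y z : G) :
    D x z + D b y ≤ max (D x y + D b z) (D y z + D b x) + 2 * δ := by
  have h1 := h.hyp b x y z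
  simp only [gprod] at h1
  rcases le_total (D x y + D b z) (D y z + D b x) with h2 | h2
  · rw [max_eq_right h2]
    rcases min_choice ((D b x + D b y - D x y) / 2) ((D b y + D b z - D y z) / 2) with h3 | h3
    · rw [h3] at h1; linarith
    · rw [h3] at h1; linarith
  · rw [max_eq_left h2]
    rcases min_choice ((D b x + D b y - D x y) / 2) ((D b y + D b z - D y z) / 2) with h3 | h3
    · rw [h3] at h1; linarith
    · rw [h3] at h1; linarith

/-- Constant in the doubling lemma. -/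
def cA (δ M c R0 : ℝ) : ℝ := 4 * R0 + 12 * δ + 12 * M + 12 * c

lemma double (h : Disp D B δ M c R0) {a : G} (ha : a ∈ B) :
    2 * D 1 a - cA δ M c R0 ≤ D 1 (a * a) := by
  obtain ⟨z, hz1, hz2⟩ := h.mid 1 a
  have i1 := h.inv a ha 1 z
  have i2 := h.inv a ha z a
  have i3 := h.inv a ha 1 a
  have d1 := h.disp a ha z
  rw [mul_one] at i1 i3
  have hδ := h.δ_nonneg
  have hM := h.M_nonneg
  have hc := h.c_nonneg
  have hR := h.R0_nonneg
  rw [abs_le] at hz1 hz2 i1 i2 i3 d1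
  have h1 := h.hyp a z 1 (a * z)
  have h2 := h.hyp a 1 (a * a) (a * z)
  simp only [gprod] at h1 h2
  have s1 := h.symm a z
  have s2 := h.symm a 1
  have s3 := h.symm z 1
  have s4 := h.symm (a * a) (a * z)
  have n1 := h.nonneg 1 (a * a)
  unfold cA
  rcases min_choice ((D a z + D a 1 - D z 1) / 2) ((D a 1 + D a (a * z) - D 1 (a * z)) / 2)
    with h3 | h3
  · rw [h3] at h1; linarith
  · rw [h3] at h1
    rcases min_choice ((D a 1 + D a (a * a) - D 1 (a * a)) / 2)
      ((D a (a * a) + D a (a * z) - D (a * a) (a * z)) / 2) with h4 | h4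
    · rw [h4] at h2; linarith
    · rw [h4] at h2; linarith

/-- Constant in the two element lemma. -/
def cB (δ M c R0 : ℝ) : ℝ := cA δ M c R0 + 8 * c + 8 * δ

lemma two (h : Disp D B δ M c R0) {a b : G} (ha : a ∈ B) (hb : b ∈ B) :
    (D 1 a + D 1 b - cB δ M c R0 ≤ D 1 (a * b) ∧
      D 1 (a⁻¹ * b) ≤ |D 1 a - D 1 b| + cB δ M c R0) ∨
    (D 1 a + D 1 b - cB δ M c R0 ≤ D 1 (a⁻¹ * b) ∧
      D 1 (a * b) ≤ |D 1 a - D 1 b| + cB δ M c R0) := by
  have hδ := h.δ_nonneg
  have hM := h.M_nonneg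
  have hc := h.c_nonneg
  have hR := h.R0_nonneg
  have ha' := B.inv_mem ha
  have hd := h.double ha
  have i1 := h.inv a⁻¹ ha' 1 (a * a)
  have i2 := h.inv a⁻¹ ha' a 1
  have i3 := h.inv a⁻¹ ha' 1 (a * b)
  have i4 := h.inv a⁻¹ ha' a b
  have i5 := h.inv a ha 1 b
  have i6 := h.inv b hb 1 a
  have e1 : a⁻¹ * (a * a) = a := by group
  have e2 : a⁻¹ * (a * b) = b := by group
  have e3 : a⁻¹ * a = 1 := by group
  rw [mul_one, e1] at i1
  rw [mul_one, e3] at i2
  rw [mul_one, e2] at i3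
  rw [e3] at i4
  rw [mul_one] at i5 i6
  rw [abs_le] at i1 i2 i3 i4 i5 i6
  rw [← h.comm a ha b hb] at i6
  have h1 := h.hyp 1 a⁻¹ b a
  simp only [gprod] at h1
  have s1 := h.symm a 1
  have s2 := h.symm a b
  have s3 := h.symm b (a * b)
  have f := h.four 1 a (a * b) b
  have hmax : max (D a (a * b) + D 1 b) (D (a * b) b + D 1 a) ≤
      D 1 a + D 1 b + |D 1 a - D 1 b| + c := by
    apply max_le
    · have := neg_abs_le (D 1 a - D 1 b); linarith
    · have := le_abs_self (D 1 a - D 1 b)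
      rw [h.symm (a * b) b]; linarith
  have hA : 0 ≤ cA δ M c R0 := by unfold cA; linarith
  unfold cB
  rcases min_choice ((D 1 a⁻¹ + D 1 b - D a⁻¹ b) / 2) ((D 1 b + D 1 a - D b a) / 2)
    with h3 | h3
  · left
    rw [h3] at h1
    constructor <;> linarith
  · right
    rw [h3] at h1
    constructor <;> linarith

lemma cB_nonneg (h : Disp D B δ M c R0) : 0 ≤ cB δ M c R0 := by
  have hδ := h.δ_nonneg
  have hM := h.M_nonneg
  have hc := h.c_nonneg
  have hR := h.R0_nonneg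
  unfold cB cA; linarith

/-- Linear growth of displacement of powers. -/
lemma pow_step (h : Disp D B δ M c R0) {g : G} (hg : g ∈ B) (hl : cB δ M c R0 < D 1 g) (n : ℕ) :
    D 1 (g ^ n) + (D 1 g - cB δ M c R0) ≤ D 1 (g ^ (n + 1)) := by
  induction n with
  | zero =>
    rw [pow_zero, zero_add, pow_one, h.self]
    have := h.cB_nonneg
    linarith
  | succ n ih =>
    have hgn : g ^ (n + 1) ∈ B := B.pow_mem hg _
    rcases h.two hg hgn with h1 | h1
    · have e : g * g ^ (n + 1) = g ^ (n + 1 + 1) := by rw [← pow_succ']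
      rw [e] at h1
      linarith [h1.1]
    · have e : g⁻¹ * g ^ (n + 1) = g ^ n := by rw [pow_succ']; group
      rw [e] at h1
      linarith [h1.1]

lemma pow_lower (h : Disp D B δ M c R0) {g : G} (hg : g ∈ B) (hl : cB δ M c R0 < D 1 g) (n : ℕ) :
    (n : ℝ) * (D 1 g - cB δ M c R0) ≤ D 1 (g ^ n) := by
  induction n with
  | zero => simp [h.self]
  | succ n ih =>
    have := h.pow_step hg hl n
    push_cast
    linarith

lemma pow_mono (h : Disp D B δ M c R0) {g : G} (hg : g ∈ B) (hl : cB δ M c R0 < D 1 g)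
    {m n : ℕ} (hmn : m ≤ n) : D 1 (g ^ m) ≤ D 1 (g ^ n) := by
  induction n, hmn using Nat.le_induction with
  | base => exact le_refl _
  | succ n _ ih =>
    have := h.pow_step hg hl n
    linarith

lemma pow_upper (h : Disp D B δ M c R0) {g : G} (hg : g ∈ B) (n : ℕ) :
    D 1 (g ^ (n + 1)) ≤ D 1 (g ^ n) + D 1 g + c := by
  have h1 := h.tri 1 (g ^ n) (g ^ (n + 1))
  have h2 := h.inv (g ^ n) (B.pow_mem hg n) 1 g
  rw [mul_one, ← pow_succ, abs_le] at h2
  linarith

/-- Near additivity. -/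
lemma pow_add_lower (h : Disp D B δ M c R0) {g : G} (hg : g ∈ B)
    (hl : 2 * cB δ M c R0 < D 1 g) (m n : ℕ) :
    D 1 (g ^ m) + D 1 (g ^ n) - cB δ M c R0 ≤ D 1 (g ^ (m + n)) := by
  have hC := h.cB_nonneg
  have hl' : cB δ M c R0 < D 1 g := by linarith
  wlog hmn : m ≤ n with H
  · have := H h hg hl n m hC hl' (by omega)
    rw [add_comm n m] at this
    linarith
  rcases h.two (B.pow_mem hg m) (B.pow_mem hg n) with h1 | h1
  · rw [← pow_add] at h1; exact h1.1
  · have e : (g ^ m)⁻¹ * g ^ n = g ^ (n - m) := by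
      rw [inv_mul_eq_iff_eq_mul, ← pow_add]; congr 1; omega
    rw [e] at h1
    rcases Nat.eq_zero_or_pos m with hm | hm
    · subst hm; simp only [pow_zero, zero_add, h.self]; linarith
    · have h2 := h.pow_mono hg hl' (show n - m ≤ n by omega)
      have h3 := h.pow_mono hg hl' (show 1 ≤ m from hm)
      rw [pow_one] at h3
      linarith [h1.1]

lemma zpow_dist (h : Disp D B δ M c R0) {g : G} (hg : g ∈ B) {i j : ℤ} (hij : i ≤ j) :
    |D (g ^ i) (g ^ j) - D 1 (g ^ (j - i).toNat)| ≤ c := by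
  have h1 := h.inv (g ^ i) (B.zpow_mem hg i) 1 (g ^ (j - i).toNat)
  have e : g ^ i * g ^ (j - i).toNat = g ^ j := by
    rw [← zpow_natCast, ← zpow_add]
    congr 1
    omega
  rw [mul_one, e] at h1
  exact h1

lemma zpow_near_add (h : Disp D B δ M c R0) {g : G} (hg : g ∈ B)
    (hl : 2 * cB δ M c R0 < D 1 g) {i k j : ℤ} (hik : i ≤ k) (hkj : k ≤ j) :
    D (g ^ i) (g ^ k) + D (g ^ k) (g ^ j) ≤ D (g ^ i) (g ^ j) + (cB δ M c R0 + 3 * c) := by
  have h1 := h.zpow_dist hg hik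
  have h2 := h.zpow_dist hg hkj
  have h3 := h.zpow_dist hg (le_trans hik hkj)
  have h4 := h.pow_add_lower hg hl (k - i).toNat (j - k).toNat
  have e : (k - i).toNat + (j - k).toNat = (j - i).toNat := by omega
  rw [e] at h4
  rw [abs_le] at h1 h2 h3
  linarith

lemma zpow_lower (h : Disp D B δ M c R0) {g : G} (hg : g ∈ B)
    (hl : cB δ M c R0 < D 1 g) {i j : ℤ} (hij : i ≤ j) :
    ((j - i : ℤ) : ℝ) * (D 1 g - cB δ M c R0) - c ≤ D (g ^ i) (g ^ j) := by
  have h1 := h.zpow_dist hg hij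
  have h2 := h.pow_lower hg hl (j - i).toNat
  have e : (((j - i).toNat : ℕ) : ℝ) = ((j - i : ℤ) : ℝ) := by
    have : (((j - i).toNat : ℕ) : ℤ) = j - i := by omega
    exact_mod_cast this
  rw [e] at h2
  rw [abs_le] at h1
  linarith

lemma zpow_abs_lower (h : Disp D B δ M c R0) {g : G} (hg : g ∈ B)
    (hl : cB δ M c R0 < D 1 g) (m : ℤ) :
    (|m| : ℝ) * (D 1 g - cB δ M c R0) - c ≤ D 1 (g ^ m) := by
  rcases le_total 0 m with hm | hm
  · have := h.zpow_lower hg hl hm
    rw [zpow_zero, sub_zero] at this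
    rwa [abs_of_nonneg (by exact_mod_cast hm)]
  · have := h.zpow_lower hg hl hm
    rw [zpow_zero, h.symm (g ^ m) 1, zero_sub] at this
    rw [abs_of_nonpos (by exact_mod_cast hm)]
    push_cast at this
    exact this

/-- The powers of `g` are coarsely dense. -/
lemma dense (h : Disp D B δ M c R0) {g : G} (hg : g ∈ B)
    (hl : cB δ M c R0 < D 1 g) {b : G} (hb : b ∈ B) :
    ∃ m : ℤ, D (g ^ m) b ≤ D 1 g + cB δ M c R0 + 2 * c := by
  have hc := h.c_nonneg
  have hs : 0 < D 1 g - cB δ M c R0 := by linarith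
  have hex : ∃ n : ℕ, D 1 b < D 1 (g ^ n) := by
    obtain ⟨n, hn⟩ := exists_nat_gt (D 1 b / (D 1 g - cB δ M c R0))
    refine ⟨n, lt_of_lt_of_le ?_ (h.pow_lower hg hl n)⟩
    rwa [div_lt_iff₀ hs] at hn
  classical
  obtain ⟨n, hn, hmin⟩ : ∃ n : ℕ, D 1 b < D 1 (g ^ (n + 1)) ∧ D 1 (g ^ n) ≤ D 1 b := by
    have h0 : Nat.find hex ≠ 0 := by
      intro h0
      have := Nat.find_spec hex
      rw [h0, pow_zero, h.self] at this
      exact absurd (h.nonneg 1 b) (not_le.mpr this)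
    obtain ⟨n, hn⟩ := Nat.exists_eq_succ_of_ne_zero h0
    refine ⟨n, ?_, ?_⟩
    · have := Nat.find_spec hex
      rwa [hn] at this
    · exact not_lt.mp (Nat.find_min hex (by omega))
  have hu := h.pow_upper hg n
  have habs : |D 1 (g ^ n) - D 1 b| ≤ D 1 g + c := by
    rw [abs_le]; constructor <;> linarith
  rcases h.two (B.pow_mem hg n) hb with h1 | h1
  · refine ⟨n, ?_⟩
    have h2 := h.inv (g ^ n) (B.pow_mem hg n) 1 ((g ^ n)⁻¹ * b)
    rw [mul_one, mul_inv_cancel_left, abs_le] at h2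
    rw [zpow_natCast]
    linarith [h1.2]
  · refine ⟨-n, ?_⟩
    have h2 := h.inv (g ^ n)⁻¹ (B.inv_mem (B.pow_mem hg n)) 1 (g ^ n * b)
    rw [mul_one, inv_mul_cancel_left, abs_le] at h2
    rw [zpow_neg, zpow_natCast]
    linarith [h1.2]

/-- A point nearly on a geodesic between two powers of `g` is near a power of `g` in between. -/
lemma morse (h : Disp D B δ M c R0) {g : G} (hg : g ∈ B)
    (hl : 2 * cB δ M c R0 < D 1 g) {M' : ℝ} (hM' : 0 ≤ M') {i j : ℤ} (hij : i ≤ j) {z : G}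
    (hz : D (g ^ i) z + D z (g ^ j) ≤ D (g ^ i) (g ^ j) + M') :
    ∃ k : ℤ, i ≤ k ∧ k ≤ j ∧
      D z (g ^ k) ≤ M' + 2 * δ + D 1 g + 4 * c + cB δ M c R0 := by
  have hc := h.c_nonneg
  have hδ := h.δ_nonneg
  have hC := h.cB_nonneg
  have hl' : cB δ M c R0 < D 1 g := by linarith
  have hg0 := h.nonneg 1 g
  -- (g^i | g^j)_z ≤ M'/2
  have key : ∀ k : ℤ, gprod D z (g ^ i) (g ^ k) ≤ M' / 2 + δ ∨
      gprod D z (g ^ k) (g ^ j) ≤ M' / 2 + δ := by
    intro k
    have h1 := h.hyp z (g ^ i) (g ^ k) (g ^ j)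
    have h2 : gprod D z (g ^ i) (g ^ j) ≤ M' / 2 := by
      unfold gprod; rw [h.symm z (g ^ i)]; linarith
    rcases min_choice (gprod D z (g ^ i) (g ^ k)) (gprod D z (g ^ k) (g ^ j)) with h3 | h3
    · left; rw [h3] at h1; linarith
    · right; rw [h3] at h1; linarith
  classical
  have hex : ∃ n : ℕ, gprod D z (g ^ i) (g ^ (i + n)) ≤ M' / 2 + δ := by
    refine ⟨(j - i).toNat, ?_⟩
    have e : i + ((j - i).toNat : ℤ) = j := by omega
    rw [e]
    have h2 : gprod D z (g ^ i) (g ^ j) ≤ M' / 2 := by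
      unfold gprod; rw [h.symm z (g ^ i)]; linarith
    linarith
  set n := Nat.find hex with hn
  have hn1 : gprod D z (g ^ i) (g ^ (i + n)) ≤ M' / 2 + δ := Nat.find_spec hex
  have hnle : i + n ≤ j := by
    have : n ≤ (j - i).toNat := by
      apply Nat.find_min'
      have e : i + ((j - i).toNat : ℤ) = j := by omega
      rw [e]
      have h2 : gprod D z (g ^ i) (g ^ j) ≤ M' / 2 := by
        unfold gprod; rw [h.symm z (g ^ i)]; linarith
      linarith
    omega
  rcases Nat.eq_zero_or_pos n with h0 | h0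
  · refine ⟨i, le_refl _, hij, ?_⟩
    rw [h0] at hn1
    simp only [Nat.cast_zero, add_zero, gprod, h.self] at hn1
    linarith
  · obtain ⟨m, hm⟩ := Nat.exists_eq_add_of_le' h0
    have hm1 : ¬ gprod D z (g ^ i) (g ^ (i + m)) ≤ M' / 2 + δ := Nat.find_min hex (by omega)
    have hm2 := (key (i + m)).resolve_left hm1
    have hstep : D (g ^ (i + m)) (g ^ (i + n)) ≤ D 1 g + c := by
      have h3 := h.zpow_dist hg (show i + (m : ℤ) ≤ i + n by omega)
      have e : (i + (n : ℤ) - (i + m)).toNat = 1 := by omega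
      rw [e, pow_one, abs_le] at h3
      linarith
    refine ⟨i + n, by omega, hnle, ?_⟩
    have hadd := h.zpow_near_add hg hl (show i ≤ i + (n : ℤ) by omega) hnle
    have t1 := h.tri z (g ^ (i + m)) (g ^ (i + n))
    have t2 := h.tri (g ^ (i + m)) (g ^ (i + n)) (g ^ j)
    have t3 := h.tri (g ^ i) z (g ^ j)
    unfold gprod at hn1 hm2
    rw [h.symm (g ^ i) z] at t3
    linarith

end Disp

end Pool.Agent.Helper92.CT
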