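import Mathlib

/-!
Definitions for the Cannon-Thurston question on hierarchically hyperbolic groups:
word metrics, Gromov hyperbolicity, Gromov boundaries, hierarchically hyperbolic spaces and
groups (Behrstock-Hagen-Sisto), hierarchical quasiconvexity, the boundary of a hierarchically
hyperbolic space (Durham-Hagen-Sisto) and Cannon-Thurston maps.
-/

set_option autoImplicit false
set_option linter.checkUnivs false

universe u v w

namespace Pool.Agent.Helper92.CT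

/-! ### Word metrics and hyperbolicity -/

/-- Word length of `g` with respect to `T` and the inverses of its elements. -/
noncomputable def wordNorm {G : Type w} [Group G] (T : Set G) (g : G) : ℕ :=
  sInf {n : ℕ | ∃ l : List G, (∀ s ∈ l, s ∈ T ∨ s⁻¹ ∈ T) ∧ l.prod = g ∧ l.length = n}

/-- Word metric on (the vertex set of the Cayley graph of) `G` with respect to `T`. -/
noncomputable def wordDist {G : Type w} [Group G] (T : Set G) (x y : G) : ℝ :=
  (wordNorm T (x⁻¹ * y) : ℝ)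

/-- Gromov product `(x | y)` with base point `b` for the distance function `d`. -/
noncomputable def gprod {X : Type w} (d : X → X → ℝ) (b x y : X) : ℝ :=
  (d b x + d b y - d x y) / 2

/-- Four-point Gromov hyperbolicity with constant `δ`. -/
def Hyp {X : Type w} (d : X → X → ℝ) (δ : ℝ) : Prop :=
  ∀ b x y z : X, min (gprod d b x y) (gprod d b y z) - δ ≤ gprod d b x z

/-- The group `G` is (finitely generated and) Gromov hyperbolic. -/
def IsHyperbolicGroup (G : Type w) [Group G] : Prop :=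
  ∃ T : Finset G, Subgroup.closure (T : Set G) = ⊤ ∧ ∃ δ : ℝ, Hyp (wordDist (T : Set G)) δ

/-! ### Geodesics, distances between sets, quasiconvexity -/

/-- `γ` restricted to `[0, L]` is a geodesic segment. -/
def IsGeodesic {Y : Type v} [MetricSpace Y] (γ : ℝ → Y) (L : ℝ) : Prop :=
  0 ≤ L ∧ ∀ s ∈ Set.Icc (0 : ℝ) L, ∀ t ∈ Set.Icc (0 : ℝ) L, dist (γ s) (γ t) = |s - t|

/-- Any two points of `Y` are joined by a geodesic segment. -/
def GeodesicSpace (Y : Type v) [MetricSpace Y] : Prop :=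
  ∀ x y : Y, ∃ (γ : ℝ → Y) (L : ℝ), IsGeodesic γ L ∧ γ 0 = x ∧ γ L = y

/-- `γ` restricted to `[0, ∞)` is an `(a, b)`-quasigeodesic ray. -/
def IsQuasiRay {Y : Type v} [MetricSpace Y] (a b : ℝ) (γ : ℝ → Y) : Prop :=
  ∀ s t : ℝ, 0 ≤ s → 0 ≤ t → |s - t| / a - b ≤ dist (γ s) (γ t) ∧
    dist (γ s) (γ t) ≤ a * |s - t| + b

/-- Distance (infimum) between two subsets. -/
noncomputable def setDist {Y : Type v} [MetricSpace Y] (A B : Set Y) : ℝ :=
  sInf {r : ℝ | ∃ a ∈ A, ∃ b ∈ B, r = dist a b}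

/-- The subset `A` has diameter at most `r`. -/
def DiamLE {Y : Type v} [MetricSpace Y] (A : Set Y) (r : ℝ) : Prop :=
  ∀ a ∈ A, ∀ b ∈ A, dist a b ≤ r

/-- The subset `A` is `k`-quasiconvex. -/
def Quasiconvex {Y : Type v} [MetricSpace Y] (A : Set Y) (k : ℝ) : Prop :=
  ∀ (γ : ℝ → Y) (L : ℝ), IsGeodesic γ L → γ 0 ∈ A → γ L ∈ A →
    ∀ t ∈ Set.Icc (0 : ℝ) L, ∃ a ∈ A, dist (γ t) a ≤ k

/-! ### Gromov boundary -/

/-- The sequence `s` converges at infinity. -/
def GromovSeq {X : Type w} (d : X → X → ℝ) (s : ℕ → X) : Prop :=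
  ∀ (b : X) (r : ℝ), ∃ N : ℕ, ∀ i ≥ N, ∀ j ≥ N, r ≤ gprod d b (s i) (s j)

/-- Two sequences converging at infinity have the same limit. -/
def GromovEquiv {X : Type w} (d : X → X → ℝ) (s t : {s : ℕ → X // GromovSeq d s}) : Prop :=
  ∀ (b : X) (r : ℝ), ∃ N : ℕ, ∀ i ≥ N, ∀ j ≥ N, r ≤ gprod d b (s.1 i) (t.1 j)

/-- The Gromov boundary: classes of sequences converging at infinity. -/
def GBoundary {X : Type w} (d : X → X → ℝ) : Type w := Quot (GromovEquiv d)

/-- `x` lies in the `r`-neighbourhood of the boundary point `p`: `(x | p) > r`. -/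
def NearPt {X : Type w} (d : X → X → ℝ) (b : X) (r : ℝ) (p : GBoundary d) (x : X) : Prop :=
  ∃ s : {s : ℕ → X // GromovSeq d s}, Quot.mk _ s = p ∧
    ∃ N : ℕ, ∀ i ≥ N, r < gprod d b (s.1 i) x

/-- The boundary point `q` lies in the `r`-neighbourhood of the boundary point `p`:
`(q | p) > r`. -/
def NearBd {X : Type w} (d : X → X → ℝ) (b : X) (r : ℝ) (p q : GBoundary d) : Prop :=
  ∃ s t : {s : ℕ → X // GromovSeq d s}, Quot.mk _ s = p ∧ Quot.mk _ t = q ∧
    ∃ N : ℕ, ∀ i ≥ N, ∀ j ≥ N, r < gprod d b (s.1 i) (t.1 j)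

/-- The space `X` together with its Gromov boundary. -/
structure GComp {X : Type w} (d : X → X → ℝ) : Type w where
  /-- the underlying element of the disjoint union -/
  val : X ⊕ GBoundary d

/-- The usual topology on `X ∪ ∂X`: a set is open if it contains a metric ball around each of its
points in `X`, and a set `{y | (y | p) > r}` for each of its points `p` in `∂X`. -/
instance gcompTopology {X : Type w} (d : X → X → ℝ) : TopologicalSpace (GComp d) where
  IsOpen O := (∀ x : X, ⟨Sum.inl x⟩ ∈ O → ∃ ε > (0 : ℝ), ∀ y : X, d x y < ε → ⟨Sum.inl y⟩ ∈ O) ∧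
    ∀ p : GBoundary d, ⟨Sum.inr p⟩ ∈ O → ∀ b : X, ∃ r : ℝ,
      (∀ y : X, NearPt d b r p y → ⟨Sum.inl y⟩ ∈ O) ∧
      ∀ q : GBoundary d, NearBd d b r p q → ⟨Sum.inr q⟩ ∈ O
  isOpen_univ := by
    refine ⟨fun x _ => ⟨1, one_pos, fun y _ => Set.mem_univ _⟩, fun p _ b => ⟨0, ?_, ?_⟩⟩
    · exact fun y _ => Set.mem_univ _
    · exact fun q _ => Set.mem_univ _
  isOpen_inter := by
    rintro O O' ⟨h1, h2⟩ ⟨h1', h2'⟩
    refine ⟨fun x hx => ?_, fun p hp b => ?_⟩
    · obtain ⟨ε, hε, h⟩ := h1 x hx.1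
      obtain ⟨ε', hε', h'⟩ := h1' x hx.2
      exact ⟨min ε ε', lt_min hε hε', fun y hy =>
        ⟨h y (lt_of_lt_of_le hy (min_le_left _ _)), h' y (lt_of_lt_of_le hy (min_le_right _ _))⟩⟩
    · obtain ⟨r, ha, hb⟩ := h2 p hp.1 b
      obtain ⟨r', ha', hb'⟩ := h2' p hp.2 b
      refine ⟨max r r', fun y hy => ?_, fun q hq => ?_⟩
      · obtain ⟨s, hs, N, hN⟩ := hy
        exact ⟨ha y ⟨s, hs, N, fun i hi => lt_of_le_of_lt (le_max_left _ _) (hN i hi)⟩,
          ha' y ⟨s, hs, N, fun i hi => lt_of_le_of_lt (le_max_right _ _) (hN i hi)⟩⟩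
      · obtain ⟨s, t, hs, ht, N, hN⟩ := hq
        exact ⟨hb q ⟨s, t, hs, ht, N, fun i hi j hj =>
            lt_of_le_of_lt (le_max_left _ _) (hN i hi j hj)⟩,
          hb' q ⟨s, t, hs, ht, N, fun i hi j hj =>
            lt_of_le_of_lt (le_max_right _ _) (hN i hi j hj)⟩⟩
  isOpen_sUnion := by
    intro 𝒪 h
    refine ⟨fun x ⟨O, hO, hx⟩ => ?_, fun p ⟨O, hO, hp⟩ b => ?_⟩
    · obtain ⟨ε, hε, h'⟩ := (h O hO).1 x hx
      exact ⟨ε, hε, fun y hy => ⟨O, hO, h' y hy⟩⟩
    · obtain ⟨r, ha, hb⟩ := (h O hO).2 p hp b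
      exact ⟨r, fun y hy => ⟨O, hO, ha y hy⟩, fun q hq => ⟨O, hO, hb q hq⟩⟩

/-! ### Hierarchically hyperbolic spaces -/

/-- A hierarchically hyperbolic structure on the set `X` with distance function `d`
(Behrstock-Hagen-Sisto, Hierarchically hyperbolic spaces II, Definition 1.1). -/
structure HHS (X : Type w) (d : X → X → ℝ) : Type (max w (u + 1) (v + 1)) where
  /-- the index set -/
  ι : Type u
  /-- the hyperbolic spaces -/
  C : ι → Type v
  metric : ∀ U, MetricSpace (C U)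
  geodesic : ∀ U, GeodesicSpace (C U)
  /-- hyperbolicity constant -/
  δ : ℝ
  hyp : ∀ U, Hyp (fun x y : C U => dist x y) δ
  -- (1) projections
  /-- projections to the hyperbolic spaces -/
  π : ∀ U, X → Set (C U)
  /-- bound on the diameter of projections -/
  ξ : ℝ
  /-- constant for coarse Lipschitz projections and for quasiconvexity of their image -/
  K : ℝ
  π_nonempty : ∀ U x, (π U x).Nonempty
  π_diam : ∀ U x, DiamLE (π U x) ξ
  π_lip : ∀ U x y, setDist (π U x) (π U y) ≤ K * d x y + K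
  π_quasiconvex : ∀ U, Quasiconvex (⋃ x, π U x) K
  -- (2) nesting
  /-- nesting `V ⊑ W` -/
  nest : ι → ι → Prop
  nest_refl : ∀ U, nest U U
  nest_trans : ∀ U V W, nest U V → nest V W → nest U W
  nest_antisymm : ∀ U V, nest U V → nest V U → U = V
  nest_top : IsEmpty ι ∨ ∃ S, ∀ U, nest U S
  -- (3) orthogonality
  /-- orthogonality `V ⊥ W` -/
  orth : ι → ι → Prop
  orth_symm : ∀ U V, orth U V → orth V U
  orth_irrefl : ∀ U, ¬ orth U U
  orth_nest : ∀ U V W, nest V W → orth W U → orth V U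
  orth_container : ∀ T U, nest U T → (∃ V, nest V T ∧ orth V U) →
    ∃ W, nest W T ∧ W ≠ T ∧ ∀ V, orth V U → nest V T → nest V W
  orth_not_nest : ∀ V W, orth V W → ¬ nest V W ∧ ¬ nest W V
  /-- the subset `ρ V W` of `C W`, for `V` properly nested in `W` or transverse to `W` -/
  ρ : ι → (W : ι) → Set (C W)
  /-- the map `ρmap W V` from `C W` to subsets of `C V`, for `V` properly nested in `W` -/
  ρmap : (W V : ι) → C W → Set (C V)
  ρ_nonempty : ∀ V W, V ≠ W → ¬ orth V W → ¬ nest W V → (ρ V W).Nonempty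
  ρ_diam : ∀ V W, V ≠ W → ¬ orth V W → ¬ nest W V → DiamLE (ρ V W) ξ
  ρmap_nonempty : ∀ V W, nest V W → V ≠ W → ∀ p, (ρmap W V p).Nonempty
  -- (4) transversality and consistency
  /-- consistency constant -/
  κ₀ : ℝ
  consistent_trans : ∀ V W, ¬ orth V W → ¬ nest V W → ¬ nest W V → ∀ x,
    setDist (π W x) (ρ V W) ≤ κ₀ ∨ setDist (π V x) (ρ W V) ≤ κ₀
  consistent_nest : ∀ V W, nest V W → V ≠ W → ∀ x,
    setDist (π W x) (ρ V W) ≤ κ₀ ∨ DiamLE (π V x ∪ ⋃ p ∈ π W x, ρmap W V p) κ₀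
  consistent_ρ : ∀ U V W, nest U V →
    ((nest V W ∧ V ≠ W) ∨ (¬ orth V W ∧ ¬ nest V W ∧ ¬ nest W V ∧ ¬ orth W U)) →
    setDist (ρ U W) (ρ V W) ≤ κ₀
  -- (5) finite complexity
  /-- complexity -/
  n : ℕ
  complexity : ∀ F : Finset ι, (∀ U ∈ F, ∀ V ∈ F, nest U V ∨ nest V U) → F.card ≤ n
  -- (6) large links
  /-- constant in the large link axiom -/
  lam : ℝ
  /-- threshold in the large link axiom -/
  E : ℝ
  one_le_lam : 1 ≤ lam
  ξ_le_E : ξ ≤ E
  κ₀_le_E : κ₀ ≤ E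
  large_links : ∀ W x x', ∃ F : Finset ι,
    (F.card : ℝ) ≤ lam * setDist (π W x) (π W x') + lam ∧
    (∀ T ∈ F, nest T W ∧ T ≠ W ∧
      setDist (π W x) (ρ T W) ≤ lam * setDist (π W x) (π W x') + lam) ∧
    ∀ T, nest T W → T ≠ W → (∃ T' ∈ F, nest T T') ∨ setDist (π T x) (π T x') < E
  -- (7) bounded geodesic image
  /-- constant in the bounded geodesic image axiom -/
  E' : ℝ
  bgi : ∀ W V, nest V W → V ≠ W → ∀ (γ : ℝ → C W) (L : ℝ), IsGeodesic γ L →
    DiamLE (⋃ t ∈ Set.Icc (0 : ℝ) L, ρmap W V (γ t)) E' ∨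
    ∃ t ∈ Set.Icc (0 : ℝ) L, ∃ q ∈ ρ V W, dist (γ t) q ≤ E'
  -- (8) partial realization
  /-- constant in the partial realization axiom -/
  α : ℝ
  realization : ∀ (F : Set ι) (p : ∀ U, C U), (∀ U ∈ F, ∀ V ∈ F, U ≠ V → orth U V) →
    (∀ U ∈ F, p U ∈ ⋃ x, π U x) →
    ∃ x, (∀ U ∈ F, setDist (π U x) {p U} ≤ α) ∧
      (∀ U ∈ F, ∀ V, nest U V → U ≠ V → setDist (π V x) (ρ U V) ≤ α) ∧
      (∀ U ∈ F, ∀ V, ¬ orth U V → ¬ nest U V → ¬ nest V U → setDist (π V x) (ρ U V) ≤ α)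
  -- (9) uniqueness
  uniqueness : ∀ κ : ℝ, 0 ≤ κ → ∃ θ : ℝ, ∀ x y, θ ≤ d x y →
    ∃ V, κ ≤ setDist (π V x) (π V y)

attribute [instance] HHS.metric

/-- Hierarchical quasiconvexity of the subset `Y`. -/
def HHS.HQC {X : Type w} {d : X → X → ℝ} (S : HHS.{u, v, w} X d) (Y : Set X) : Prop :=
  ∃ k : ℝ → ℝ, (∀ U, Quasiconvex (⋃ y ∈ Y, S.π U y) (k 0)) ∧
    ∀ κ : ℝ, 0 ≤ κ → ∀ x, (∀ U, setDist (S.π U x) (⋃ y ∈ Y, S.π U y) ≤ κ) →
      ∃ y ∈ Y, d x y ≤ k κ

/-- A hierarchically hyperbolic group structure on `G`: a hierarchically hyperbolic structure on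
a Cayley graph of `G` together with a compatible action of `G` on the index set with finitely
many orbits and on the hyperbolic spaces by isometries, all diagrams commuting coarsely. -/
structure HHG (G : Type w) [Group G] : Type (max w (u + 1) (v + 1)) where
  /-- a finite generating set -/
  T : Finset G
  closure_T : Subgroup.closure (T : Set G) = ⊤
  /-- a hierarchically hyperbolic structure on the Cayley graph -/
  S : HHS.{u, v, w} G (wordDist (T : Set G))
  /-- action on the index set -/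
  smul : G → S.ι → S.ι
  one_smul : ∀ U, smul 1 U = U
  mul_smul : ∀ g h U, smul (g * h) U = smul g (smul h U)
  nest_smul : ∀ g U V, S.nest (smul g U) (smul g V) ↔ S.nest U V
  orth_smul : ∀ g U V, S.orth (smul g U) (smul g V) ↔ S.orth U V
  cofinite : ∃ F : Finset S.ι, ∀ U, ∃ g, ∃ V ∈ F, smul g V = U
  /-- isometries between the hyperbolic spaces -/
  iso : ∀ g U, S.C U → S.C (smul g U)
  iso_dist : ∀ g U p q, dist (iso g U p) (iso g U q) = dist p q
  iso_surj : ∀ g U, Function.Surjective (iso g U)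
  iso_one : ∀ U p, (⟨smul 1 U, iso 1 U p⟩ : Σ U, S.C U) = ⟨U, p⟩
  iso_mul : ∀ g h U p, (⟨smul (g * h) U, iso (g * h) U p⟩ : Σ U, S.C U) =
    ⟨smul g (smul h U), iso g (smul h U) (iso h U p)⟩
  /-- constant for coarse equivariance -/
  c : ℝ
  π_equiv : ∀ g U x, ∀ p ∈ S.π U x, ∀ q ∈ S.π (smul g U) (g * x), dist (iso g U p) q ≤ c
  ρ_equiv : ∀ g V W, V ≠ W → ¬ S.orth V W → ¬ S.nest W V →
    ∀ p ∈ S.ρ V W, ∀ q ∈ S.ρ (smul g V) (smul g W), dist (iso g W p) q ≤ c
  ρmap_equiv : ∀ g V W, S.nest V W → V ≠ W → ∀ p : S.C W,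
    (∀ q ∈ S.ρmap W V p, ∃ q' ∈ S.ρmap (smul g W) (smul g V) (iso g W p),
      dist (iso g V q) q' ≤ c) ∧
    (∀ q' ∈ S.ρmap (smul g W) (smul g V) (iso g W p), ∃ q ∈ S.ρmap W V p,
      dist (iso g V q) q' ≤ c)

/-! ### The boundary of a hierarchically hyperbolic space -/

/-- A boundary point: a formal convex combination of points of the Gromov boundaries of the
hyperbolic spaces of finitely many pairwise orthogonal indices (its support). -/
structure BPoint {X : Type w} {d : X → X → ℝ} (S : HHS.{u, v, w} X d) : Type (max u v) where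
  /-- the support -/
  supp : Finset S.ι
  orth : ∀ U ∈ supp, ∀ V ∈ supp, U ≠ V → S.orth U V
  /-- the coefficients -/
  coeff : S.ι → ℝ
  coeff_pos : ∀ U ∈ supp, 0 < coeff U
  coeff_zero : ∀ U, U ∉ supp → coeff U = 0
  coeff_sum : ∑ U ∈ supp, coeff U = 1
  /-- the boundary points -/
  pt : (U : S.ι) → U ∈ supp → GBoundary (fun x y : S.C U => dist x y)

section boundary

variable {X : Type w} {d : X → X → ℝ} {S : HHS.{u, v, w} X d}

/-- `q` is remote with respect to the support of `p`. -/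
def Remote (p q : BPoint S) : Prop :=
  (∀ U ∈ p.supp, U ∉ q.supp) ∧ ∀ U ∈ p.supp, ∃ V ∈ q.supp, ¬ S.orth U V

/-- The boundary projection of `q` to `C U`, for `U` outside the support of `q` and not
orthogonal to some `T` in this support. If `T` is transverse to `U` or nested in `U` it is
`ρ T U`. If `U` is nested in `T` it is `ρmap T U x` for a point `x` on a `(1, 20δ)`-quasigeodesic
ray `γ` from `ρ U T` to the boundary point `q_T` beyond which `γ` stays away from the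
neighbourhood of `ρ U T` of the bounded geodesic image axiom. (The set of all possible values is
taken; it has bounded diameter.) -/
def bproj (q : BPoint S) (U : S.ι) : Set (S.C U) :=
  {z | ∃ (T : S.ι) (hT : T ∈ q.supp), ¬ S.orth U T ∧ U ≠ T ∧
    ((¬ S.nest U T ∧ z ∈ S.ρ T U) ∨
     (S.nest U T ∧ ∃ (γ : ℝ → S.C T) (t₀ : ℝ), IsQuasiRay 1 (20 * S.δ) γ ∧ γ 0 ∈ S.ρ U T ∧
        (∃ h : GromovSeq (fun x y : S.C T => dist x y) (fun i : ℕ => γ i),
          (Quot.mk _ ⟨fun i : ℕ => γ i, h⟩ : GBoundary (fun x y : S.C T => dist x y)) =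
            q.pt T hT) ∧
        0 ≤ t₀ ∧ (∀ t ≥ t₀, ∀ y ∈ S.ρ U T, S.E' < dist (γ t) y) ∧
        z ∈ S.ρmap T U (γ t₀)))}

/-- A family consisting of one neighbourhood of `p_U` in `C U ∪ ∂ C U` for each `U` in the support
of `p`. -/
def NhdFamily (p : BPoint S)
    (N : (U : S.ι) → Set (GComp (fun x y : S.C U => dist x y))) : Prop :=
  ∀ (U : S.ι) (h : U ∈ p.supp), N U ∈ nhds (⟨Sum.inr (p.pt U h)⟩ : GComp _)

open scoped Classical in
/-- Remote part of a basic neighbourhood of `p`. -/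
def remotePart (b : X) (p : BPoint S)
    (N : (U : S.ι) → Set (GComp (fun x y : S.C U => dist x y))) (ε : ℝ) : Set (BPoint S) :=
  {q | Remote p q ∧
    (∀ U ∈ p.supp, ∀ z ∈ bproj q U, ⟨Sum.inl z⟩ ∈ N U) ∧
    (∑ T ∈ q.supp with (∀ V ∈ p.supp, S.orth T V), q.coeff T) < ε ∧
    (∀ U ∈ p.supp, ∀ V ∈ p.supp, |p.coeff U / p.coeff V -
      setDist (S.π U b) (bproj q U) / setDist (S.π V b) (bproj q V)| < ε) ∧
    (∀ U ∈ p.supp, ∀ T, (∀ V ∈ p.supp, S.orth T V) → T ∉ q.supp → (∃ V ∈ q.supp, ¬ S.orth T V) →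
      setDist (S.π T b) (bproj q T) / setDist (S.π U b) (bproj q U) < ε)}

open scoped Classical in
/-- Non-remote part of a basic neighbourhood of `p`. -/
def nonremotePart (p : BPoint S)
    (N : (U : S.ι) → Set (GComp (fun x y : S.C U => dist x y))) (ε : ℝ) : Set (BPoint S) :=
  {q | ¬ Remote p q ∧
    (∀ U ∈ p.supp, ∀ h : U ∈ q.supp, ⟨Sum.inr (q.pt U h)⟩ ∈ N U) ∧
    (∀ U ∈ p.supp, |q.coeff U - p.coeff U| < ε) ∧
    (∑ U ∈ q.supp with U ∉ p.supp, q.coeff U) < ε}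

/-- Interior part of a basic neighbourhood of `p`. -/
def interiorPart (b : X) (p : BPoint S)
    (N : (U : S.ι) → Set (GComp (fun x y : S.C U => dist x y))) (ε : ℝ) : Set X :=
  {x | (∀ U ∈ p.supp, ∀ z ∈ S.π U x, ⟨Sum.inl z⟩ ∈ N U) ∧
    (∀ U ∈ p.supp, ∀ V ∈ p.supp, |p.coeff U / p.coeff V -
      setDist (S.π U b) (S.π U x) / setDist (S.π V b) (S.π V x)| < ε) ∧
    (∀ U ∈ p.supp, ∀ T, (∀ V ∈ p.supp, S.orth T V) →
      setDist (S.π T b) (S.π T x) / setDist (S.π U b) (S.π U x) < ε)}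

end boundary

/-- The space `X` together with its boundary as a hierarchically hyperbolic space, with base
point `b`. -/
structure HComp {X : Type w} {d : X → X → ℝ} (S : HHS.{u, v, w} X d) (b : X) :
    Type (max u v w) where
  /-- the underlying element of the disjoint union -/
  val : X ⊕ BPoint S

/-- The topology of Durham-Hagen-Sisto on `X ∪ ∂X`: a set is open if it contains a metric ball
around each of its points in `X` and a basic neighbourhood of each of its points in `∂X`. -/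
instance hcompTopology {X : Type w} {d : X → X → ℝ} (S : HHS.{u, v, w} X d) (b : X) :
    TopologicalSpace (HComp S b) where
  IsOpen O := (∀ x : X, ⟨Sum.inl x⟩ ∈ O → ∃ ε > (0 : ℝ), ∀ y : X, d x y < ε → ⟨Sum.inl y⟩ ∈ O) ∧
    ∀ p : BPoint S, ⟨Sum.inr p⟩ ∈ O →
      ∃ N : (U : S.ι) → Set (GComp (fun x y : S.C U => dist x y)), NhdFamily p N ∧ ∃ ε > (0 : ℝ),
        (∀ q ∈ remotePart b p N ε, ⟨Sum.inr q⟩ ∈ O) ∧
        (∀ q ∈ nonremotePart p N ε, ⟨Sum.inr q⟩ ∈ O) ∧
        (∀ x ∈ interiorPart b p N ε, ⟨Sum.inl x⟩ ∈ O)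
  isOpen_univ := by
    refine ⟨fun x _ => ⟨1, one_pos, fun y _ => Set.mem_univ _⟩, fun p _ =>
      ⟨fun _ => Set.univ, fun _ _ => Filter.univ_mem, 1, one_pos, ?_, ?_, ?_⟩⟩ <;>
    exact fun y _ => Set.mem_univ _
  isOpen_inter := by
    classical
    rintro O O' ⟨h1, h2⟩ ⟨h1', h2'⟩
    refine ⟨fun x hx => ?_, fun p hp => ?_⟩
    · obtain ⟨ε, hε, h⟩ := h1 x hx.1
      obtain ⟨ε', hε', h'⟩ := h1' x hx.2
      exact ⟨min ε ε', lt_min hε hε', fun y hy =>
        ⟨h y (lt_of_lt_of_le hy (min_le_left _ _)), h' y (lt_of_lt_of_le hy (min_le_right _ _))⟩⟩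
    · obtain ⟨N, hN, ε, hε, ha, hb, hc⟩ := h2 p hp.1
      obtain ⟨N', hN', ε', hε', ha', hb', hc'⟩ := h2' p hp.2
      refine ⟨fun U => N U ∩ N' U, fun U h => Filter.inter_mem (hN U h) (hN' U h), min ε ε',
        lt_min hε hε', fun q hq => ⟨ha q ?_, ha' q ?_⟩, fun q hq => ⟨hb q ?_, hb' q ?_⟩,
        fun x hx => ⟨hc x ?_, hc' x ?_⟩⟩
      · exact ⟨hq.1, fun U hU z hz => (hq.2.1 U hU z hz).1,
          lt_of_lt_of_le hq.2.2.1 (min_le_left _ _),
          fun U hU V hV => lt_of_lt_of_le (hq.2.2.2.1 U hU V hV) (min_le_left _ _),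
          fun U hU T hT hT' hT'' =>
            lt_of_lt_of_le (hq.2.2.2.2 U hU T hT hT' hT'') (min_le_left _ _)⟩
      · exact ⟨hq.1, fun U hU z hz => (hq.2.1 U hU z hz).2,
          lt_of_lt_of_le hq.2.2.1 (min_le_right _ _),
          fun U hU V hV => lt_of_lt_of_le (hq.2.2.2.1 U hU V hV) (min_le_right _ _),
          fun U hU T hT hT' hT'' =>
            lt_of_lt_of_le (hq.2.2.2.2 U hU T hT hT' hT'') (min_le_right _ _)⟩
      · exact ⟨hq.1, fun U hU h => (hq.2.1 U hU h).1,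
          fun U hU => lt_of_lt_of_le (hq.2.2.1 U hU) (min_le_left _ _),
          lt_of_lt_of_le hq.2.2.2 (min_le_left _ _)⟩
      · exact ⟨hq.1, fun U hU h => (hq.2.1 U hU h).2,
          fun U hU => lt_of_lt_of_le (hq.2.2.1 U hU) (min_le_right _ _),
          lt_of_lt_of_le hq.2.2.2 (min_le_right _ _)⟩
      · exact ⟨fun U hU z hz => (hx.1 U hU z hz).1,
          fun U hU V hV => lt_of_lt_of_le (hx.2.1 U hU V hV) (min_le_left _ _),
          fun U hU T hT => lt_of_lt_of_le (hx.2.2 U hU T hT) (min_le_left _ _)⟩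
      · exact ⟨fun U hU z hz => (hx.1 U hU z hz).2,
          fun U hU V hV => lt_of_lt_of_le (hx.2.1 U hU V hV) (min_le_right _ _),
          fun U hU T hT => lt_of_lt_of_le (hx.2.2 U hU T hT) (min_le_right _ _)⟩
  isOpen_sUnion := by
    intro 𝒪 h
    refine ⟨fun x ⟨O, hO, hx⟩ => ?_, fun p ⟨O, hO, hp⟩ => ?_⟩
    · obtain ⟨ε, hε, h'⟩ := (h O hO).1 x hx
      exact ⟨ε, hε, fun y hy => ⟨O, hO, h' y hy⟩⟩
    · obtain ⟨N, hN, ε, hε, ha, hb, hc⟩ := (h O hO).2 p hp
      exact ⟨N, hN, ε, hε, fun q hq => ⟨O, hO, ha q hq⟩, fun q hq => ⟨O, hO, hb q hq⟩,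
        fun x hx => ⟨O, hO, hc x hx⟩⟩

/-- A Cannon-Thurston map for `(H, G)` exists: for every finite generating set `TH` of `H`, the
inclusion of `H` in `G` extends to a continuous map from `H ∪ ∂H` to `G ∪ ∂G`, where `∂H` is the
Gromov boundary of `H` with its word metric and `∂G` is the boundary of the given hierarchically
hyperbolic structure. -/
def CannonThurston {G : Type w} [Group G] (𝔖 : HHG.{u, v, w} G) (H : Subgroup G) : Prop :=
  ∀ TH : Finset H, Subgroup.closure (TH : Set H) = ⊤ →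
    ∃ f : GComp (wordDist (TH : Set H)) → HComp 𝔖.S (1 : G), Continuous f ∧
      ∀ h : H, f ⟨Sum.inl h⟩ = ⟨Sum.inl (h : G)⟩

end Pool.Agent.Helper92.CT
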