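import Pool.Agent.Helper92.Disp

set_option autoImplicit false
set_option linter.unusedSectionVars false

universe u v w

namespace Pool.Agent.Helper92.CT

/-- The coarse data of a hierarchically hyperbolic group used in the obstruction argument. -/
structure PF (G : Type w) [Group G] where
  ι : Type u
  D : ι → G → G → ℝ
  sm : G → ι → ι
  one_sm : ∀ U, sm 1 U = U
  mul_sm : ∀ g h U, sm (g * h) U = sm g (sm h U)
  nest : ι → ι → Prop
  nest_trans : ∀ U V W, nest U V → nest V W → nest U W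
  nest_antisymm : ∀ U V, nest U V → nest V U → U = V
  orth : ι → ι → Prop
  orth_symm : ∀ U V, orth U V → orth V U
  orth_not_nest : ∀ U V, orth U V → ¬ nest U V
  nest_sm : ∀ g U V, nest (sm g U) (sm g V) ↔ nest U V
  orth_sm : ∀ g U V, orth (sm g U) (sm g V) ↔ orth U V
  self : ∀ U x, D U x x = 0
  symm : ∀ U x y, D U x y = D U y x
  tri : ∀ U x y z, D U x z ≤ D U x y + D U y z
  δ : ℝ
  hyp : ∀ U, Hyp (D U) δ
  M : ℝ
  mid : ∀ U x y, ∃ z, |D U x z - D U x y / 2| ≤ M ∧ |D U z y - D U x y / 2| ≤ M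
  step : ∀ t : G, ∃ R, ∀ U x, D U x (x * t) ≤ R
  c : ℝ
  equi : ∀ g U x y, |D (sm g U) (g * x) (g * y) - D U x y| ≤ c
  orbits : ∃ F : Finset ι, ∀ U, ∃ g, ∃ V ∈ F, sm g V = U
  maxl : ∀ (P : ι → Prop) V, P V → ∃ U, nest V U ∧ P U ∧ ∀ W, nest U W → P W → W = U
  E : ℝ
  relfin : ∀ x y, {V | E ≤ D V x y}.Finite
  passup : ∀ C : ℝ, ∃ m : ℕ, ∀ x y (F : Finset ι), m ≤ F.card → (∀ V ∈ F, E ≤ D V x y) →
    ∃ V ∈ F, ∃ W, nest V W ∧ V ≠ W ∧ C ≤ D W x y
  R : ι → ι → G → ℝ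
  R_lip : ∀ V U x y, V ≠ U → ¬ orth V U → ¬ nest U V → R V U x ≤ R V U y + D U x y
  D_le_R : ∀ V U x y, V ≠ U → ¬ orth V U → ¬ nest U V → D U x y ≤ R V U x + R V U y
  R_equi : ∀ g V U x, V ≠ U → ¬ orth V U → ¬ nest U V →
    R (sm g V) (sm g U) (g * x) ≤ R V U x + c
  E2 : ℝ
  M' : ℝ
  bgi : ∀ V U x y, nest V U → V ≠ U → E2 < D V x y →
    ∃ z, D U x z + D U z y ≤ D U x y + M' ∧ R V U z ≤ M'
  α : ℝ
  realize : ∀ (F : Set ι) (y : ι → G), (∀ U ∈ F, ∀ V ∈ F, U ≠ V → orth U V) →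
    ∃ x, ∀ U ∈ F, D U x (y U) ≤ α
  realizeR : ∀ V U, nest V U → V ≠ U → ∃ x, R V U x ≤ α
  uniq : ∀ κ, {g | ∀ V, D V 1 g ≤ κ}.Finite

namespace PF

variable {G : Type w} [Group G] (P : PF.{u, w} G)

/-- Index with unbounded hyperbolic space. -/
def Unb (U : P.ι) : Prop := ∀ R, ∃ x y, R < P.D U x y

/-- `U` is a maximal unbounded index. -/
def Mx (U : P.ι) : Prop := P.Unb U ∧ ∀ W, P.nest U W → P.Unb W → W = U

lemma nonneg (U : P.ι) (x y : G) : 0 ≤ P.D U x y := by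
  have h1 := P.tri U x y x
  rw [P.self, P.symm U y x] at h1
  linarith

lemma c_nonneg (U : P.ι) : 0 ≤ P.c := le_trans (abs_nonneg _) (P.equi 1 U 1 1)

lemma sm_inv_sm (g : G) (U : P.ι) : P.sm g⁻¹ (P.sm g U) = U := by
  rw [← P.mul_sm, inv_mul_cancel, P.one_sm]

lemma sm_sm_inv (g : G) (U : P.ι) : P.sm g (P.sm g⁻¹ U) = U := by
  rw [← P.mul_sm, mul_inv_cancel, P.one_sm]

lemma equi' (g : G) (U : P.ι) (x y : G) : |P.D U (g * x) (g * y) - P.D (P.sm g⁻¹ U) x y| ≤ P.c := by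
  have := P.equi g (P.sm g⁻¹ U) x y
  rwa [P.sm_sm_inv] at this

lemma Unb.sm {P : PF.{u, w} G} {U : P.ι} (h : P.Unb U) (g : G) : P.Unb (P.sm g U) := by
  intro R
  obtain ⟨x, y, hxy⟩ := h (R + P.c)
  refine ⟨g * x, g * y, ?_⟩
  have := P.equi g U x y
  rw [abs_le] at this
  linarith

lemma Mx.sm {P : PF.{u, w} G} {U : P.ι} (h : P.Mx U) (g : G) : P.Mx (P.sm g U) := by
  refine ⟨h.1.sm g, fun W hW hW' => ?_⟩
  have h1 : P.nest U (P.sm g⁻¹ W) := by
    rw [← P.nest_sm g, P.sm_sm_inv]; exact hW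
  have h2 := h.2 _ h1 (hW'.sm g⁻¹)
  rw [← h2, P.sm_sm_inv]

lemma exists_mx {V : P.ι} (h : P.Unb V) : ∃ U, P.nest V U ∧ P.Mx U := by
  obtain ⟨U, h1, h2, h3⟩ := P.maxl P.Unb V h
  exact ⟨U, h1, h2, h3⟩

/-- Uniform bound on bounded indices. -/
lemma exists_bound : ∃ D0 : ℝ, ∀ U, ¬ P.Unb U → ∀ x y, P.D U x y ≤ D0 := by
  classical
  obtain ⟨F, hF⟩ := P.orbits
  have h1 : ∀ U, ∃ b : ℝ, ¬ P.Unb U → ∀ x y, P.D U x y ≤ b := by
    intro U
    by_cases hU : P.Unb U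
    · exact ⟨0, fun h => absurd hU h⟩
    · simp only [Unb, not_forall, not_exists, not_lt] at hU
      obtain ⟨b, hb⟩ := hU
      exact ⟨b, fun _ => hb⟩
  choose b hb using h1
  obtain ⟨m, hm⟩ : ∃ m : ℝ, ∀ V ∈ F, b V ≤ m := by
    obtain ⟨m, hm⟩ := (F.finite_toSet.image b).bddAbove
    exact ⟨m, fun V hV => hm ⟨V, hV, rfl⟩⟩
  refine ⟨m + P.c, fun U hU x y => ?_⟩
  obtain ⟨g, V, hV, rfl⟩ := hF U
  have hV' : ¬ P.Unb V := fun h => hU (h.sm g)
  have h2 := P.equi g V (g⁻¹ * x) (g⁻¹ * y)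
  rw [mul_inv_cancel_left, mul_inv_cancel_left, abs_le] at h2
  have := hb V hV' (g⁻¹ * x) (g⁻¹ * y)
  have := hm V hV
  linarith

/-- Uniform step bound for a finite set. -/
lemma step_finite (F : Set G) (hF : F.Finite) : ∃ R : ℝ, ∀ t ∈ F, ∀ U x, P.D U x (x * t) ≤ R := by
  choose r hr using P.step
  obtain ⟨m, hm⟩ := (hF.image r).bddAbove
  exact ⟨m, fun t ht U x => le_trans (hr t U x) (hm ⟨t, ht, rfl⟩)⟩

lemma unb_of_base {U : P.ι} (h : P.Unb U) (R : ℝ) : ∃ x, R < P.D U 1 x := by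
  obtain ⟨x, y, hxy⟩ := h (2 * R)
  by_contra hcon
  push Not at hcon
  have h1 := P.tri U x 1 y
  have h2 := hcon x
  have h3 := hcon y
  rw [P.symm U x 1] at h1
  linarith

/-- Finite index subgroups have finite sets of right coset representatives. -/
lemma exists_reps (B : Subgroup G) [B.FiniteIndex] :
    ∃ F : Set G, F.Finite ∧ ∀ x, ∃ b ∈ B, ∃ t ∈ F, x = b * t := by
  classical
  have : Finite (G ⧸ B) := Subgroup.finite_quotient_of_finiteIndex
  refine ⟨Set.range (fun q : G ⧸ B => (q.out)⁻¹), Set.finite_range _, fun x => ?_⟩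
  have h1 : ((x⁻¹ : G) : G ⧸ B) = ((QuotientGroup.mk x⁻¹ : G ⧸ B).out : G ⧸ B) := by
    rw [QuotientGroup.out_eq']
  rw [QuotientGroup.eq] at h1
  refine ⟨x * (QuotientGroup.mk x⁻¹ : G ⧸ B).out, ?_, _, ⟨QuotientGroup.mk x⁻¹, rfl⟩, by group⟩
  simpa using h1

lemma unb_of_sub {U : P.ι} (h : P.Unb U) (B : Subgroup G) [B.FiniteIndex] (R : ℝ) :
    ∃ b ∈ B, R < P.D U 1 b := by
  obtain ⟨F, hF, hcov⟩ := exists_reps B
  obtain ⟨m, hm⟩ := P.step_finite F hF
  obtain ⟨x, hx⟩ := P.unb_of_base h (R + m)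
  obtain ⟨b, hb, t, ht, rfl⟩ := hcov x
  refine ⟨b, hb, ?_⟩
  have h1 := P.tri U 1 b (b * t)
  have h2 := hm t ht U b
  linarith

/-- The stabilizer of an index. -/
def stab (U : P.ι) : Subgroup G where
  carrier := {g | P.sm g U = U}
  one_mem' := P.one_sm U
  mul_mem' := by
    intro a b ha hb
    simp only [Set.mem_ofPred_eq] at ha hb ⊢
    rw [P.mul_sm, hb, ha]
  inv_mem' := by
    intro a ha
    simp only [Set.mem_ofPred_eq] at ha ⊢
    conv_lhs => rw [← ha]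
    rw [P.sm_inv_sm]

lemma mem_stab {U : P.ι} {g : G} : g ∈ P.stab U ↔ P.sm g U = U := Iff.rfl

lemma stab_inv {U : P.ι} {g : G} (h : g ∈ P.stab U) : P.sm g⁻¹ U = U := (P.stab U).inv_mem h

lemma step_finset (F : Finset G) : ∃ R : ℝ, ∀ t ∈ F, ∀ U x, P.D U x (x * t) ≤ R :=
  P.step_finite F F.finite_toSet

section abelian

variable {A : Subgroup G} [A.FiniteIndex] (hcomm : ∀ a ∈ A, ∀ b ∈ A, a * b = b * a)

include hcomm in
lemma shift_lower (U : P.ι) {a b : G} (ha : a ∈ A) (hb : b ∈ A) {r : ℝ}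
    (hr : ∀ U x, P.D U x (x * b⁻¹) ≤ r) :
    P.D U 1 a - 2 * r - P.c ≤ P.D (P.sm b U) 1 a := by
  have h1 := P.equi b U b⁻¹ (b⁻¹ * a)
  rw [mul_inv_cancel, mul_inv_cancel_left, abs_le] at h1
  have h2 : b⁻¹ * a = a * b⁻¹ := hcomm _ (A.inv_mem hb) _ ha
  rw [h2] at h1
  have h3 := P.tri U 1 b⁻¹ a
  have h4 := P.tri U b⁻¹ (a * b⁻¹) a
  have h5 := hr U 1
  have h6 := hr U a
  rw [one_mul] at h5
  rw [P.symm U a (a * b⁻¹)] at h6
  linarith

include hcomm in
lemma mx_orbit_finite_aux {U : P.ι} (h : P.Mx U) :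
    {V | ∃ a ∈ A, P.sm a U = V}.Finite := by
  classical
  by_contra hinf
  obtain ⟨D0, hD0⟩ := P.exists_bound
  obtain ⟨m, hm⟩ := P.passup (D0 + 1)
  obtain ⟨t, ht1, ht2⟩ := Set.Infinite.exists_subset_card_eq hinf m
  have hch : ∀ V : P.ι, ∃ b : G, V ∈ t → b ∈ A ∧ P.sm b U = V := by
    intro V
    by_cases hV : V ∈ t
    · obtain ⟨a, ha, ha'⟩ := ht1 hV
      exact ⟨a, fun _ => ⟨ha, ha'⟩⟩
    · exact ⟨1, fun h => absurd h hV⟩
  choose b hb using hch
  obtain ⟨r, hr⟩ := P.step_finset (t.image (fun V => (b V)⁻¹))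
  obtain ⟨a, ha, hlarge⟩ := P.unb_of_sub h.1 A (P.E + 2 * r + P.c)
  obtain ⟨V, hV, W, h1, h2, h3⟩ := hm 1 a t (le_of_eq ht2.symm) (by
    intro V hV
    have h4 := P.shift_lower hcomm U ha (hb V hV).1
      (r := r) (fun U x => hr _ (Finset.mem_image_of_mem _ hV) U x)
    rw [(hb V hV).2] at h4
    linarith)
  have hW : P.Unb W := by
    by_contra hW
    have := hD0 W hW 1 a
    linarith
  have hV' : P.Mx V := by rw [← (hb V hV).2]; exact h.sm _
  exact h2 (hV'.2 W h1 hW).symm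

include hcomm in
lemma mx_stab_finiteIndex {U : P.ι} (h : P.Mx U) : (P.stab U).FiniteIndex := by
  classical
  obtain ⟨F, hF, hcov⟩ := exists_reps A
  have hfin : (Set.range (fun x => P.sm x U)).Finite := by
    refine Set.Finite.subset (hF.biUnion (t := fun t => {V | ∃ a ∈ A, P.sm a (P.sm t U) = V})
      (fun t _ => P.mx_orbit_finite_aux hcomm (h.sm t))) ?_
    rintro V ⟨x, rfl⟩
    obtain ⟨b, hb, t, ht, rfl⟩ := hcov x
    simp only [Set.mem_iUnion]
    exact ⟨t, ht, b, hb, (P.mul_sm b t U).symm⟩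
  have hfin' : Finite (Set.range (fun x => P.sm x U)) := hfin
  have : Finite (G ⧸ P.stab U) := by
    refine Finite.of_injective (β := Set.range (fun x => P.sm x U))
      (fun q => ⟨P.sm q.out U, ⟨q.out, rfl⟩⟩) ?_
    intro q q' hqq
    have hqq' : P.sm q.out U = P.sm q'.out U := congrArg Subtype.val hqq
    rw [← QuotientGroup.out_eq' q, ← QuotientGroup.out_eq' q', QuotientGroup.eq, P.mem_stab,
      P.mul_sm, ← hqq', P.sm_inv_sm]
  exact Subgroup.finiteIndex_of_finite_quotient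

include hcomm in
lemma exists_disp {U : P.ι} (B : Subgroup G) [B.FiniteIndex] (hBA : B ≤ A) (hBU : B ≤ P.stab U) :
    ∃ R0, Disp (P.D U) B P.δ P.M P.c R0 := by
  obtain ⟨F, hF, hcov⟩ := exists_reps B
  obtain ⟨m, hm⟩ := P.step_finite F hF
  have hinv : ∀ b ∈ B, ∀ x y, |P.D U (b * x) (b * y) - P.D U x y| ≤ P.c := by
    intro b hb x y
    have := P.equi' b U x y
    rwa [P.stab_inv (hBU hb)] at this
  refine ⟨P.c + 2 * m, ⟨P.self U, P.symm U, P.tri U, P.hyp U, P.mid U, ?_, hinv, ?_⟩⟩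
  · exact fun a ha b hb => hcomm a (hBA ha) b (hBA hb)
  · intro a ha x
    obtain ⟨b, hb, t, ht, rfl⟩ := hcov x
    have e : a * (b * t) = b * (a * t) := by
      rw [← mul_assoc, hcomm a (hBA ha) b (hBA hb), mul_assoc]
    rw [e]
    have h1 := hinv b hb t (a * t)
    have h2 := hm t ht U 1
    have h3 := hm t ht U a
    rw [one_mul] at h2
    have t1 := P.tri U t 1 (a * t)
    have t2 := P.tri U 1 a (a * t)
    have t3 := P.tri U 1 t a
    have t4 := P.tri U t (a * t) a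
    rw [P.symm U t 1] at t1
    rw [P.symm U (a * t) a] at t4
    rw [abs_le] at h1 ⊢
    constructor <;> linarith

include hcomm in
/-- Distinct maximal unbounded indices are orthogonal. -/
lemma mx_orth {U V : P.ι} (hU : P.Mx U) (hV : P.Mx V) (hne : V ≠ U) : P.orth V U := by
  by_contra horth
  have hn : ¬ P.nest U V := fun h => hne (hU.2 V h hV.1)
  have := P.mx_stab_finiteIndex hcomm hU
  have := P.mx_stab_finiteIndex hcomm hV
  obtain ⟨b, hb, hlarge⟩ := P.unb_of_sub hU.1 (P.stab U ⊓ P.stab V) (2 * P.R V U 1 + P.c)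
  have h1 := P.R_equi b V U 1 hne horth hn
  rw [P.mem_stab.mp hb.1, P.mem_stab.mp hb.2, mul_one] at h1
  have h2 := P.D_le_R V U 1 b hne horth hn
  linarith

/-- Projections of the powers of `g` to indices properly nested in `U`. -/
lemma exists_nested_bound {U : P.ι} {B : Subgroup G} {R0 : ℝ}
    (hd : Disp (P.D U) B P.δ P.M P.c R0) {g : G} (hg : g ∈ B)
    (hl : 2 * Disp.cB P.δ P.M P.c R0 + 1 < P.D U 1 g) :
    ∃ C2 : ℝ, ∀ W, P.nest W U → W ≠ U → ∀ i j : ℤ, P.D W (g ^ i) (g ^ j) ≤ C2 := by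
  have hC := hd.cB_nonneg
  have hl1 : Disp.cB P.δ P.M P.c R0 < P.D U 1 g := by linarith
  have hl2 : 2 * Disp.cB P.δ P.M P.c R0 < P.D U 1 g := by linarith
  set s := P.D U 1 g - Disp.cB P.δ P.M P.c R0 with hs
  have hs1 : 1 ≤ s := by linarith
  set N := max P.M' 0 with hN
  have hN0 : 0 ≤ N := le_max_right _ _
  obtain ⟨r, hr⟩ := P.step g
  have hr0 : 0 ≤ r := le_trans (P.nonneg U 1 (1 * g)) (hr U 1)
  set C9 := P.M' + (N + 2 * P.δ + P.D U 1 g + 4 * P.c + Disp.cB P.δ P.M P.c R0) with hC9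
  -- multi-step bound
  have hmulti : ∀ (W : P.ι) (i : ℤ) (n : ℕ), P.D W (g ^ i) (g ^ (i + n)) ≤ n * r := by
    intro W i n
    induction n with
    | zero => simp [P.self]
    | succ n ih =>
      have h1 := P.tri W (g ^ i) (g ^ (i + n)) (g ^ (i + (n + 1 : ℕ)))
      have h2 := hr W (g ^ (i + n))
      have e : g ^ (i + (n : ℤ)) * g = g ^ (i + ((n + 1 : ℕ) : ℤ)) := by
        push_cast
        rw [← add_assoc, zpow_add_one]
      rw [e] at h2
      push_cast at h1 h2 ih ⊢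
      linarith
  -- the key fact
  have key : ∀ W, P.nest W U → W ≠ U → ∀ i j : ℤ, i ≤ j → P.E2 < P.D W (g ^ i) (g ^ j) →
      ∃ k, i ≤ k ∧ k ≤ j ∧ P.R W U (g ^ k) ≤ C9 := by
    intro W hW hWU i j hij hlt
    obtain ⟨z, hz1, hz2⟩ := P.bgi W U _ _ hW hWU hlt
    obtain ⟨k, hk1, hk2, hk3⟩ := hd.morse hg hl2 hN0 hij (z := z)
      (by have := le_max_left P.M' 0; linarith)
    refine ⟨k, hk1, hk2, ?_⟩
    have hnest : ¬ P.nest U W := fun h => hWU (P.nest_antisymm _ _ hW h)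
    have horth : ¬ P.orth W U := by
      exact fun h => P.orth_not_nest _ _ h hW
    have h3 := P.R_lip W U (g ^ k) z hWU horth hnest
    rw [P.symm U (g ^ k) z] at h3
    linarith
  obtain ⟨w, hw⟩ := exists_nat_ge (2 * C9 + P.c)
  have hE0 : 0 ≤ max P.E2 0 := le_max_right _ _
  have hE1 : P.E2 ≤ max P.E2 0 := le_max_left _ _
  -- ordered case
  have main : ∀ W, P.nest W U → W ≠ U → ∀ i j : ℤ, i ≤ j →
      P.D W (g ^ i) (g ^ j) ≤ 2 * max P.E2 0 + (2 * w + 2) * r := by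
    intro W hW hWU i j hij
    have hnest : ¬ P.nest U W := fun h => hWU (P.nest_antisymm _ _ hW h)
    have horth : ¬ P.orth W U := fun h => P.orth_not_nest _ _ h hW
    have hwin : ∀ k k' : ℤ, k ≤ k' → P.R W U (g ^ k) ≤ C9 → P.R W U (g ^ k') ≤ C9 →
        k' - k ≤ w := by
      intro k k' hkk h1 h2
      have h3 := hd.zpow_lower hg hl1 hkk
      have h4 := P.D_le_R W U (g ^ k) (g ^ k') hWU horth hnest
      have h5 : (0 : ℝ) ≤ ((k' - k : ℤ) : ℝ) := by exact_mod_cast (by omega : 0 ≤ k' - k)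
      have h6 : ((k' - k : ℤ) : ℝ) * 1 ≤ ((k' - k : ℤ) : ℝ) * s :=
        mul_le_mul_of_nonneg_left hs1 h5
      have h7 : ((k' - k : ℤ) : ℝ) ≤ w := by linarith
      exact_mod_cast h7
    by_cases hex : ∃ k, i ≤ k ∧ k ≤ j ∧ P.R W U (g ^ k) ≤ C9
    · obtain ⟨k0, hk1, hk2, hk3⟩ := hex
      have ha : P.D W (g ^ i) (g ^ (max i (k0 - w - 1))) ≤ max P.E2 0 := by
        rcases le_total i (k0 - w - 1) with h1 | h1
        · rw [max_eq_right h1]
          by_contra hcon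
          push Not at hcon
          obtain ⟨k, hk4, hk5, hk6⟩ := key W hW hWU i (k0 - w - 1) h1 (lt_of_le_of_lt hE1 hcon)
          have := hwin k k0 (by omega) hk6 hk3
          omega
        · rw [max_eq_left h1, P.self]; exact hE0
      have hb : P.D W (g ^ (min j (k0 + w + 1))) (g ^ j) ≤ max P.E2 0 := by
        rcases le_total j (k0 + w + 1) with h1 | h1
        · rw [min_eq_left h1, P.self]; exact hE0
        · rw [min_eq_right h1]
          by_contra hcon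
          push Not at hcon
          obtain ⟨k, hk4, hk5, hk6⟩ := key W hW hWU (k0 + w + 1) j h1 (lt_of_le_of_lt hE1 hcon)
          have := hwin k0 k (by omega) hk3 hk6
          omega
      obtain ⟨n, hn⟩ : ∃ n : ℕ, min j (k0 + w + 1) = max i (k0 - w - 1) + n :=
        ⟨(min j (k0 + w + 1) - max i (k0 - w - 1)).toNat, by omega⟩
      have hn2 : n ≤ 2 * w + 2 := by omega
      have hm := hmulti W (max i (k0 - w - 1)) n
      rw [← hn] at hm
      have hm2 : (n : ℝ) * r ≤ (2 * w + 2) * r := by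
        apply mul_le_mul_of_nonneg_right _ hr0
        exact_mod_cast hn2
      have t1 := P.tri W (g ^ i) (g ^ (max i (k0 - w - 1))) (g ^ j)
      have t2 := P.tri W (g ^ (max i (k0 - w - 1))) (g ^ (min j (k0 + w + 1))) (g ^ j)
      linarith
    · by_contra hcon
      push Not at hcon
      apply hex
      apply key W hW hWU i j hij
      have : 0 ≤ (2 * (w : ℝ) + 2) * r := by positivity
      linarith
  refine ⟨2 * max P.E2 0 + (2 * w + 2) * r, fun W hW hWU i j => ?_⟩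
  rcases le_total i j with h | h
  · exact main W hW hWU i j h
  · rw [P.symm]; exact main W hW hWU j i h

include hcomm in
/-- No unbounded index is properly nested in a maximal unbounded one. -/
lemma not_unb_of_nest_mx {U V : P.ι} (hU : P.Mx U) (hV : P.nest V U) (hne : V ≠ U) :
    ¬ P.Unb V := by
  intro hunb
  have hst := P.mx_stab_finiteIndex hcomm hU
  obtain ⟨R0, hd⟩ := P.exists_disp hcomm (U := U) (A ⊓ P.stab U) inf_le_left inf_le_right
  obtain ⟨g, hg, hl⟩ := P.unb_of_sub hU.1 (A ⊓ P.stab U)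
    (2 * Disp.cB P.δ P.M P.c R0 + 1)
  obtain ⟨C2, hC2⟩ := P.exists_nested_bound hd hg hl
  have hC := hd.cB_nonneg
  have hl1 : Disp.cB P.δ P.M P.c R0 < P.D U 1 g := by linarith
  obtain ⟨a, ha, hlarge⟩ := P.unb_of_sub hunb (A ⊓ P.stab U) (P.E + 2 * C2 + 2 * P.c)
  -- all translates are relevant
  have hrel : ∀ i : ℤ, P.E ≤ P.D (P.sm (g ^ i) V) 1 a := by
    intro i
    have h1 := P.equi (g ^ i) V (g ^ (-i)) (g ^ (-i) * a)
    have e1 : g ^ i * g ^ (-i) = 1 := by rw [zpow_neg, mul_inv_cancel]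
    have e2 : g ^ i * (g ^ (-i) * a) = a := by rw [zpow_neg, mul_inv_cancel_left]
    have e3 : g ^ (-i) * a = a * g ^ (-i) :=
      hcomm _ (A.zpow_mem hg.1 _) _ ha.1
    rw [e1, e2, e3, abs_le] at h1
    have h2 := P.tri V 1 (g ^ (-i)) a
    have h3 := P.tri V (g ^ (-i)) (a * g ^ (-i)) a
    have h4 := hC2 V hV hne 0 (-i)
    rw [zpow_zero] at h4
    have h5 := P.equi' a V (g ^ (-i)) 1
    rw [mul_one, abs_le] at h5
    have h6 : P.nest (P.sm a⁻¹ V) U := by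
      rw [← P.stab_inv ha.2, P.nest_sm]; exact hV
    have h7 : P.sm a⁻¹ V ≠ U := by
      intro h
      apply hne
      have := congrArg (P.sm a) h
      rwa [P.sm_sm_inv, P.mem_stab.mp ha.2] at this
    have h8 := hC2 _ h6 h7 (-i) 0
    rw [zpow_zero] at h8
    linarith
  -- two translates agree
  have hfin := P.relfin 1 a
  obtain ⟨i, j, hij, heq⟩ : ∃ i j : ℤ, i < j ∧ P.sm (g ^ i) V = P.sm (g ^ j) V := by
    have hninj : ¬ Function.Injective (fun i : ℤ => P.sm (g ^ i) V) := by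
      intro hinj
      have : (Set.range (fun i : ℤ => P.sm (g ^ i) V)).Infinite :=
        Set.infinite_range_of_injective hinj
      exact this (hfin.subset (by rintro _ ⟨i, rfl⟩; exact hrel i))
    simp only [Function.Injective, not_forall] at hninj
    obtain ⟨i, j, h1, h2⟩ := hninj
    rcases lt_or_gt_of_ne h2 with h3 | h3
    · exact ⟨i, j, h3, h1⟩
    · exact ⟨j, i, h3, h1.symm⟩
  -- a power of g fixes V
  set k := (j - i).toNat with hk
  have hk0 : 0 < k := by omega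
  have hfix : P.sm (g ^ k) V = V := by
    have e : g ^ k = (g ^ i)⁻¹ * g ^ j := by
      rw [← zpow_natCast, ← zpow_neg, ← zpow_add]
      congr 1
      omega
    rw [e, P.mul_sm, ← heq, P.sm_inv_sm]
  have hfixn : ∀ n : ℕ, P.sm ((g ^ k) ^ n) V = V := fun n =>
    P.mem_stab.mp ((P.stab V).pow_mem (P.mem_stab.mpr hfix) n)
  have hnest : ¬ P.nest U V := fun h => hne (P.nest_antisymm _ _ hV h)
  have horth : ¬ P.orth V U := fun h => P.orth_not_nest _ _ h hV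
  obtain ⟨x, hx⟩ := P.realizeR V U hV hne
  have hbd : ∀ n : ℕ, P.D U 1 (g ^ (k * n)) ≤ 2 * P.α + P.c + R0 := by
    intro n
    have h1 := P.R_equi ((g ^ k) ^ n) V U x hne horth hnest
    have h2 : (g ^ k) ^ n ∈ A ⊓ P.stab U := (A ⊓ P.stab U).pow_mem ((A ⊓ P.stab U).pow_mem hg k) n
    rw [hfixn n, P.mem_stab.mp h2.2] at h1
    have h3 := P.D_le_R V U x ((g ^ k) ^ n * x) hne horth hnest
    have h4 := hd.disp _ h2 x
    rw [abs_le] at h4
    rw [pow_mul]
    linarith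
  obtain ⟨n, hn⟩ := exists_nat_gt ((2 * P.α + P.c + R0) / (P.D U 1 g - Disp.cB P.δ P.M P.c R0))
  have h1 := hd.pow_lower hg hl1 (k * n)
  have h2 := hbd n
  have hs : 0 < P.D U 1 g - Disp.cB P.δ P.M P.c R0 := by linarith
  rw [div_lt_iff₀ hs] at hn
  have h3 : (n : ℝ) ≤ ((k * n : ℕ) : ℝ) := by exact_mod_cast Nat.le_mul_of_pos_left n hk0
  have h4 := mul_le_mul_of_nonneg_right h3 hs.le
  linarith

include hcomm in
lemma Unb.mx' {V : P.ι} (hV : P.Unb V) : P.Mx V := by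
  obtain ⟨U, h1, h2⟩ := P.exists_mx hV
  by_cases h : V = U
  · rw [h]; exact h2
  · exact absurd hV (P.not_unb_of_nest_mx hcomm h2 h1 h)

section lox

variable {hh : G} (hhA : hh ∈ A)

include hhA in
lemma exists_lox {U : P.ι} [(P.stab U).FiniteIndex] (C : ℝ)
    (hunb : ∀ R, ∃ m : ℤ, R < P.D U 1 (hh ^ m)) :
    ∃ p : ℤ, hh ^ p ∈ A ⊓ P.stab U ∧ C < P.D U 1 (hh ^ p) := by
  classical
  obtain ⟨j, hj0, _, hj⟩ := Subgroup.exists_pow_mem_of_index_ne_zero
    (H := A ⊓ P.stab U) (Subgroup.FiniteIndex.index_ne_zero) hh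
  obtain ⟨r, hr⟩ := P.step_finset ((Finset.range j).image (fun i => hh ^ i))
  obtain ⟨m, hm⟩ := hunb (C + r)
  have hj0' : (0 : ℤ) < j := by exact_mod_cast hj0
  have h1 := Int.emod_nonneg m (ne_of_gt hj0')
  have h2 := Int.emod_lt_of_pos m hj0'
  have h3 := Int.mul_ediv_add_emod m j
  refine ⟨j * (m / j), ?_, ?_⟩
  · rw [zpow_mul, zpow_natCast]
    exact (A ⊓ P.stab U).zpow_mem hj _
  · have h4 : hh ^ m = hh ^ ((j : ℤ) * (m / j)) * hh ^ (m % j).toNat := by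
      rw [← zpow_natCast, ← zpow_add]
      congr 1
      omega
    have h5 := hr (hh ^ (m % j).toNat) (Finset.mem_image_of_mem _ (by
      rw [Finset.mem_range]; omega)) U (hh ^ ((j : ℤ) * (m / j)))
    rw [← h4] at h5
    have h6 := P.tri U 1 (hh ^ ((j : ℤ) * (m / j))) (hh ^ m)
    linarith

include hcomm hhA in
lemma lox_finite {U : P.ι} (hU : P.Mx U) (hunb : ∀ R, ∃ m : ℤ, R < P.D U 1 (hh ^ m)) (κ : ℝ) :
    {m : ℤ | P.D U 1 (hh ^ m) ≤ κ}.Finite := by
  classical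
  have hst := P.mx_stab_finiteIndex hcomm hU
  obtain ⟨R0, hd⟩ := P.exists_disp hcomm (U := U) (A ⊓ P.stab U) inf_le_left inf_le_right
  obtain ⟨p, hp, hl⟩ := P.exists_lox hhA (2 * Disp.cB P.δ P.M P.c R0 + 1) hunb
  have hC := hd.cB_nonneg
  have hl1 : Disp.cB P.δ P.M P.c R0 < P.D U 1 (hh ^ p) := by linarith
  have hp0 : p ≠ 0 := by
    rintro rfl
    rw [zpow_zero, P.self] at hl
    linarith
  obtain ⟨r, hr⟩ := P.step_finset ((Finset.range p.natAbs).image (fun i => (hh ^ i)⁻¹))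
  obtain ⟨Q, hQ⟩ := exists_nat_ge (κ + r + P.c)
  refine (Set.finite_Icc (-(p.natAbs * (Q + 1) : ℤ)) (p.natAbs * (Q + 1))).subset ?_
  intro m hm
  have hm' : P.D U 1 (hh ^ m) ≤ κ := hm
  have h1 := Int.emod_nonneg m hp0
  have h2 := Int.emod_lt_abs m hp0
  rw [← Int.natCast_natAbs] at h2
  have h3 := Int.mul_ediv_add_emod m p
  have h4 : (hh ^ p) ^ (m / p) = hh ^ m * (hh ^ (m % p).toNat)⁻¹ := by
    rw [← zpow_mul, ← zpow_natCast, ← zpow_neg, ← zpow_add]
    congr 1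
    omega
  have h5 := hr (hh ^ (m % p).toNat)⁻¹ (by
    apply Finset.mem_image_of_mem (fun i => (hh ^ i)⁻¹)
    rw [Finset.mem_range]
    omega) U (hh ^ m)
  rw [← h4] at h5
  have h6 := P.tri U 1 (hh ^ m) ((hh ^ p) ^ (m / p))
  have h7 := hd.zpow_abs_lower hp hl1 (m / p)
  have h8 : (|((m / p : ℤ) : ℝ)|) * 1 ≤ |((m / p : ℤ) : ℝ)| *
      (P.D U 1 (hh ^ p) - Disp.cB P.δ P.M P.c R0) :=
    mul_le_mul_of_nonneg_left (by linarith) (abs_nonneg _)
  have h9 : |((m / p : ℤ) : ℝ)| ≤ Q := by linarith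
  have h10 : |m / p| ≤ Q := by exact_mod_cast h9
  rw [abs_le] at h10
  have h11 : (p.natAbs : ℤ) = |p| := Int.natCast_natAbs p
  rw [h11]
  have h12 : |p * (m / p)| ≤ |p| * Q := by
    rw [abs_mul]
    exact mul_le_mul_of_nonneg_left (abs_le.mpr h10) (abs_nonneg _)
  rw [abs_le] at h12
  constructor <;> nlinarith

include hcomm hhA in
lemma lox_dense {U : P.ι} (hU : P.Mx U) (hunb : ∀ R, ∃ m : ℤ, R < P.D U 1 (hh ^ m)) :
    ∃ κ, ∀ x, ∃ m : ℤ, P.D U x (hh ^ m) ≤ κ := by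
  have hst := P.mx_stab_finiteIndex hcomm hU
  obtain ⟨R0, hd⟩ := P.exists_disp hcomm (U := U) (A ⊓ P.stab U) inf_le_left inf_le_right
  obtain ⟨p, hp, hl⟩ := P.exists_lox hhA (2 * Disp.cB P.δ P.M P.c R0 + 1) hunb
  have hC := hd.cB_nonneg
  have hl1 : Disp.cB P.δ P.M P.c R0 < P.D U 1 (hh ^ p) := by linarith
  obtain ⟨F, hF, hcov⟩ := exists_reps (A ⊓ P.stab U)
  obtain ⟨r, hr⟩ := P.step_finite F hF
  refine ⟨r + (P.D U 1 (hh ^ p) + Disp.cB P.δ P.M P.c R0 + 2 * P.c), fun x => ?_⟩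
  obtain ⟨b, hb, t, ht, rfl⟩ := hcov x
  obtain ⟨m, hm⟩ := hd.dense hp hl1 hb
  refine ⟨p * m, ?_⟩
  rw [zpow_mul]
  have h1 := hr t ht U b
  have h2 := P.tri U (b * t) b ((hh ^ p) ^ m)
  rw [P.symm U (b * t) b, P.symm U b ((hh ^ p) ^ m)] at h2
  linarith

include hcomm hhA in
/-- Step 4: some unbounded index on which the cyclic group has bounded projection. -/
lemma exists_Hbdd (hinf : ∀ F : Set G, F.Finite → ∃ m : ℤ, hh ^ m ∉ F)
    (hidx : ∀ F : Set G, F.Finite → ∃ x, ∀ m : ℤ, (hh ^ m)⁻¹ * x ∉ F)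
    (hqc : ∀ κ : ℝ, ∃ F : Set G, F.Finite ∧
      ∀ x, (∀ U, ∃ m : ℤ, P.D U x (hh ^ m) ≤ κ) → ∃ m : ℤ, (hh ^ m)⁻¹ * x ∈ F) :
    ∃ U, P.Unb U ∧ ∃ b, ∀ m : ℤ, P.D U 1 (hh ^ m) ≤ b := by
  classical
  by_contra hcon
  push Not at hcon
  obtain ⟨D0, hD0⟩ := P.exists_bound
  -- some unbounded index
  obtain ⟨U1, hU1⟩ : ∃ U, P.Unb U := by
    by_contra hno
    push Not at hno
    obtain ⟨m, hm⟩ := hinf _ (P.uniq D0)
    exact hm (fun V => hD0 V (hno V) 1 _)
  by_cases hone : ∀ U, P.Unb U → U = U1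
  · obtain ⟨κ, hκ⟩ := P.lox_dense hcomm hhA (hU1.mx' P hcomm) (hcon U1 hU1)
    obtain ⟨F, hF, hF'⟩ := hqc (max κ D0)
    obtain ⟨x, hx⟩ := hidx F hF
    obtain ⟨m, hm⟩ := hF' x (by
      intro U
      by_cases hU : P.Unb U
      · rw [hone U hU]
        obtain ⟨m, hm⟩ := hκ x
        exact ⟨m, le_trans hm (le_max_left _ _)⟩
      · exact ⟨0, le_trans (hD0 U hU _ _) (le_max_right _ _)⟩)
    exact hx m hm
  · push Not at hone
    obtain ⟨U2, hU2, hne⟩ := hone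
    obtain ⟨F, hF, hF'⟩ := hqc (max P.α D0)
    obtain ⟨r, hr⟩ := P.step_finite F hF
    have hfin := P.lox_finite hcomm hhA (hU2.mx' P hcomm) (hcon U2 hU2) (r + P.α)
    obtain ⟨q, hq⟩ := (hfin.image (fun m : ℤ => P.D U1 1 (hh ^ m))).bddAbove
    obtain ⟨n, hn⟩ := hcon U1 hU1 (q + r + P.α)
    obtain ⟨x, hx⟩ := P.realize {V | P.Unb V} (fun V => if V = U1 then hh ^ n else 1) (by
      intro U hU V hV hUV
      exact P.mx_orth hcomm (Unb.mx' P hcomm hV) (Unb.mx' P hcomm hU) hUV)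
    obtain ⟨m, hm⟩ := hF' x (by
      intro U
      by_cases hU : P.Unb U
      · have h1 := hx U hU
        by_cases h2 : U = U1
        · rw [if_pos h2] at h1; exact ⟨n, le_trans h1 (le_max_left _ _)⟩
        · rw [if_neg h2] at h1; exact ⟨0, le_trans (by rwa [zpow_zero]) (le_max_left _ _)⟩
      · exact ⟨0, le_trans (hD0 U hU _ _) (le_max_right _ _)⟩)
    have hstep := hr _ hm
    have h1 := hx U1 hU1
    have h2 := hx U2 hU2
    rw [if_pos rfl] at h1
    rw [if_neg hne] at h2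
    have h3 := hstep U1 (hh ^ m)
    have h4 := hstep U2 (hh ^ m)
    rw [mul_inv_cancel_left] at h3 h4
    have h5 : m ∈ {m : ℤ | P.D U2 1 (hh ^ m) ≤ r + P.α} := by
      have := P.tri U2 1 x (hh ^ m)
      rw [P.symm U2 1 x, P.symm U2 x (hh ^ m)] at this
      show P.D U2 1 (hh ^ m) ≤ r + P.α
      linarith
    have h6 : P.D U1 1 (hh ^ m) ≤ q := hq ⟨m, h5, rfl⟩
    have h7 := P.tri U1 1 (hh ^ m) (hh ^ n)
    have h8 := P.tri U1 (hh ^ m) x (hh ^ n)
    linarith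

end lox

include hcomm in
/-- The obstruction: a cyclic subgroup containing all norms `a * a^r * a^(r^2)` is not
hierarchically quasiconvex. -/
theorem false_of_hqc {hh : G} (hhA : hh ∈ A) (r : G) (hr3 : r ^ 3 = 1)
    (hrA : ∀ a ∈ A, r * a * r⁻¹ ∈ A)
    (hnorm : ∀ a ∈ A, ∃ m : ℤ, a * (r * a * r⁻¹) * (r * (r * a * r⁻¹) * r⁻¹) = hh ^ m)
    (hinf : ∀ F : Set G, F.Finite → ∃ m : ℤ, hh ^ m ∉ F)
    (hidx : ∀ F : Set G, F.Finite → ∃ x, ∀ m : ℤ, (hh ^ m)⁻¹ * x ∉ F)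
    (hqc : ∀ κ : ℝ, ∃ F : Set G, F.Finite ∧
      ∀ x, (∀ U, ∃ m : ℤ, P.D U x (hh ^ m) ≤ κ) → ∃ m : ℤ, (hh ^ m)⁻¹ * x ∈ F) : False := by
  classical
  obtain ⟨U, hU, b, hb⟩ := P.exists_Hbdd hcomm hhA hinf hidx hqc
  have hM := hU.mx' P hcomm
  obtain ⟨e, he⟩ := P.step r⁻¹
  -- displacement of a conjugate
  have hconj : ∀ (V : P.ι) (a : G), |P.D (P.sm r V) 1 (r * a * r⁻¹) - P.D V 1 a| ≤ P.c + 2 * e := by
    intro V a
    have h1 := P.equi r V r⁻¹ (a * r⁻¹)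
    rw [mul_inv_cancel, ← mul_assoc, abs_le] at h1
    have h2 := he V 1
    have h3 := he V a
    rw [one_mul] at h2
    have t1 := P.tri V r⁻¹ 1 (a * r⁻¹)
    have t2 := P.tri V 1 a (a * r⁻¹)
    have t3 := P.tri V 1 r⁻¹ a
    have t4 := P.tri V r⁻¹ (a * r⁻¹) a
    rw [P.symm V r⁻¹ 1] at t1
    rw [P.symm V (a * r⁻¹) a] at t4
    rw [abs_le]
    constructor <;> linarith
  have hr3' : ∀ V, P.sm r (P.sm r (P.sm r V)) = V := by
    intro V
    rw [← P.mul_sm, ← P.mul_sm, ← pow_three', hr3, P.one_sm]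
  -- conjugation and stabilizers
  have hstabconj : ∀ (V : P.ι) (a : G), a ∈ P.stab V → r * a * r⁻¹ ∈ P.stab (P.sm r V) := by
    intro V a ha
    rw [P.mem_stab, P.mul_sm, P.sm_inv_sm, P.mul_sm, P.mem_stab.mp ha]
  by_cases hrU : P.sm r U = U
  · -- r fixes U
    have hst := P.mx_stab_finiteIndex hcomm hM
    obtain ⟨R0, hd⟩ := P.exists_disp hcomm (U := U) (A ⊓ P.stab U) inf_le_left inf_le_right
    have hC := hd.cB_nonneg
    set C := Disp.cB P.δ P.M P.c R0 with hCdef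
    have hc := hd.c_nonneg
    obtain ⟨a, ha, hlarge⟩ := P.unb_of_sub hU (A ⊓ P.stab U)
      (b + 2 * C + 10 * P.c + 10 * e + 10 * |e|)
    have hconjB : ∀ a ∈ A ⊓ P.stab U, r * a * r⁻¹ ∈ A ⊓ P.stab U := by
      intro a ha
      refine ⟨hrA a ha.1, ?_⟩
      have := hstabconj U a ha.2
      rwa [hrU] at this
    set a' := r * a * r⁻¹ with ha'
    set a'' := r * a' * r⁻¹ with ha''
    have ha'B : a' ∈ A ⊓ P.stab U := hconjB a ha
    have ha''B : a'' ∈ A ⊓ P.stab U := hconjB a' ha'B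
    have h1 := hconj U a
    have h2 := hconj U a'
    rw [hrU, ← ha'] at h1
    rw [hrU, ← ha''] at h2
    obtain ⟨m, hm⟩ := hnorm a ha.1
    have h3 := hb m
    rw [← hm] at h3
    have h4 := hd.inv (a * a') ((A ⊓ P.stab U).mul_mem ha ha'B) 1 a''
    rw [mul_one] at h4
    rw [abs_le] at h1 h2 h4
    have t1 := P.tri U 1 (a * a' * a'') (a * a')
    have t2 := P.tri U (a * a') 1 (a * a' * a'')
    rw [P.symm U (a * a' * a'') (a * a')] at t1
    rw [P.symm U (a * a') 1] at t2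
    have he1 := le_abs_self e
    have he2 := neg_abs_le e
    have he3 := abs_nonneg e
    rcases hd.two ha ha'B with h5 | h5
    · linarith [h5.1]
    · have h6 : |P.D U 1 a - P.D U 1 a'| ≤ P.c + 2 * e := by
        rw [abs_le]; constructor <;> linarith
      linarith [h5.2]
  · -- r moves U
    set V1 := P.sm r U with hV1
    set V2 := P.sm r V1 with hV2
    have hV3 : P.sm r V2 = U := hr3' U
    have h12 : V1 ≠ U := hrU
    have h21 : V2 ≠ V1 := by
      intro h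
      apply hrU
      have := congrArg (P.sm r⁻¹) h
      rw [hV2, P.sm_inv_sm, hV1, P.sm_inv_sm] at this
      exact this
    have h20 : V2 ≠ U := by
      intro h
      apply hrU
      rw [h] at hV3
      exact hV3
    have hM1 : P.Mx V1 := hM.sm r
    have hM2 : P.Mx V2 := hM1.sm r
    have hst := P.mx_stab_finiteIndex hcomm hM
    have hst1 := P.mx_stab_finiteIndex hcomm hM1
    have hst2 := P.mx_stab_finiteIndex hcomm hM2
    obtain ⟨F, hF, hcov⟩ := exists_reps (A ⊓ (P.stab U ⊓ (P.stab V1 ⊓ P.stab V2)))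
    obtain ⟨q, hq⟩ := P.step_finite F hF
    obtain ⟨y0, hy0⟩ := P.unb_of_base hU
      (b + 10 * |P.α| + 10 * |q| + 10 * P.c + 10 * |e|)
    obtain ⟨x, hx⟩ := P.realize {U, V1, V2} (fun V => if V = U then y0 else 1) (by
      intro W hW W' hW' hne
      apply P.mx_orth hcomm _ _ hne
      · rcases hW' with rfl | rfl | rfl
        · exact hM
        · exact hM1
        · exact hM2
      · rcases hW with rfl | rfl | rfl
        · exact hM
        · exact hM1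
        · exact hM2)
    have hx0 := hx U (by simp)
    have hx1 := hx V1 (by simp)
    have hx2 := hx V2 (by simp)
    rw [if_pos rfl] at hx0
    rw [if_neg h12] at hx1
    rw [if_neg h20] at hx2
    obtain ⟨a, ha, t, ht, rfl⟩ := hcov x
    have hq' := hq t ht
    have s0 := hq' U a
    have s1 := hq' V1 a
    have s2 := hq' V2 a
    have t0 := P.tri U 1 a y0
    have t0' := P.tri U a (a * t) y0
    have t1 := P.tri V1 1 (a * t) a
    have t2 := P.tri V2 1 (a * t) a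
    rw [P.symm V1 (a * t) a, P.symm V1 1 (a * t)] at t1
    rw [P.symm V2 (a * t) a, P.symm V2 1 (a * t)] at t2
    set a' := r * a * r⁻¹ with ha'
    set a'' := r * a' * r⁻¹ with ha''
    have c1 := hconj V2 a
    rw [hV3, ← ha'] at c1
    have c2 := hconj V1 a
    rw [← hV2, ← ha'] at c2
    have c3 := hconj V2 a'
    rw [hV3, ← ha''] at c3
    have hstU : a ∈ P.stab U := ha.2.1
    have hst' : a' ∈ P.stab U := by
      have := hstabconj V2 a ha.2.2.2
      rwa [hV3] at this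
    have i1 := P.equi' a U 1 a'
    rw [P.stab_inv hstU, mul_one] at i1
    have i2 := P.equi' (a * a') U 1 a''
    rw [P.stab_inv ((P.stab U).mul_mem hstU hst'), mul_one] at i2
    obtain ⟨m, hm⟩ := hnorm a ha.1
    have h3 := hb m
    rw [← hm] at h3
    have u1 := P.tri U 1 (a * a' * a'') a
    have u2 := P.tri U a (a * a') (a * a' * a'')
    rw [P.symm U (a * a' * a'') a] at u1
    rw [abs_le] at c1 c2 c3 i1 i2
    have e1 := le_abs_self e
    have e2 := le_abs_self P.α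
    have e3 := le_abs_self q
    have e4 := abs_nonneg e
    have e5 := abs_nonneg P.α
    have e6 := abs_nonneg q
    have hc := P.c_nonneg U
    linarith

end abelian

end PF

end Pool.Agent.Helper92.CT
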