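import Pool.Agent.Helper92.HHGDefs

set_option autoImplicit false

universe u v w

namespace Pool.Agent.Helper92.CT

section word

variable {G : Type w} [Group G] {T : Set G}

/-- `l` is a word in `T` and inverses. -/
def IsW (T : Set G) (l : List G) : Prop := ∀ s ∈ l, s ∈ T ∨ s⁻¹ ∈ T

lemma wordNorm_le {g : G} {l : List G} (hl : IsW T l) (hp : l.prod = g) :
    wordNorm T g ≤ l.length := Nat.sInf_le ⟨l, hl, hp, rfl⟩

lemma exists_word (hT : Subgroup.closure T = ⊤) (g : G) :
    ∃ l : List G, IsW T l ∧ l.prod = g := by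
  have hg : g ∈ Subgroup.closure T := by rw [hT]; trivial
  induction hg using Subgroup.closure_induction with
  | mem x hx => exact ⟨[x], by simpa [IsW] using Or.inl hx, by simp⟩
  | one => exact ⟨[], by simp [IsW], rfl⟩
  | mul x y _ _ hx hy =>
    obtain ⟨l, h1, h2⟩ := hx
    obtain ⟨l', h1', h2'⟩ := hy
    refine ⟨l ++ l', ?_, by simp [h2, h2']⟩
    intro s hs
    rcases List.mem_append.mp hs with h | h
    · exact h1 s h
    · exact h1' s h
  | inv x _ hx =>
    obtain ⟨l, h1, h2⟩ := hx
    refine ⟨(l.map (·⁻¹)).reverse, ?_, ?_⟩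
    · intro s hs
      rw [List.mem_reverse, List.mem_map] at hs
      obtain ⟨t, ht, rfl⟩ := hs
      rcases h1 t ht with h | h
      · right; simpa using h
      · left; exact h
    · rw [← h2, List.prod_inv_reverse]

lemma exists_min_word (hT : Subgroup.closure T = ⊤) (g : G) :
    ∃ l : List G, IsW T l ∧ l.prod = g ∧ l.length = wordNorm T g := by
  have : {n : ℕ | ∃ l : List G, (∀ s ∈ l, s ∈ T ∨ s⁻¹ ∈ T) ∧ l.prod = g ∧ l.length = n}.Nonempty := by
    obtain ⟨l, h1, h2⟩ := exists_word hT g
    exact ⟨l.length, l, h1, h2, rfl⟩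
  exact Nat.sInf_mem this

lemma wordNorm_one : wordNorm T (1 : G) = 0 :=
  Nat.le_zero.mp (wordNorm_le (l := []) (by simp [IsW]) rfl)

lemma eq_one_of_wordNorm (hT : Subgroup.closure T = ⊤) {g : G} (h : wordNorm T g = 0) : g = 1 := by
  obtain ⟨l, _, h2, h3⟩ := exists_min_word hT g
  rw [h, List.length_eq_zero_iff] at h3
  rw [← h2, h3]; rfl

lemma wordNorm_mul (hT : Subgroup.closure T = ⊤) (g h : G) :
    wordNorm T (g * h) ≤ wordNorm T g + wordNorm T h := by
  obtain ⟨l, h1, h2, h3⟩ := exists_min_word hT g
  obtain ⟨l', h1', h2', h3'⟩ := exists_min_word hT h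
  rw [← h3, ← h3', ← List.length_append]
  refine wordNorm_le ?_ (by simp [h2, h2'])
  intro s hs
  rcases List.mem_append.mp hs with h | h
  · exact h1 s h
  · exact h1' s h

lemma wordNorm_inv_le (hT : Subgroup.closure T = ⊤) (g : G) :
    wordNorm T g⁻¹ ≤ wordNorm T g := by
  obtain ⟨l, h1, h2, h3⟩ := exists_min_word hT g
  rw [← h3]
  have e : l.length = ((l.map (·⁻¹)).reverse).length := by simp
  rw [e]
  refine wordNorm_le ?_ (by rw [← h2, List.prod_inv_reverse])
  intro s hs
  rw [List.mem_reverse, List.mem_map] at hs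
  obtain ⟨t, ht, rfl⟩ := hs
  rcases h1 t ht with h | h
  · right; simpa using h
  · left; exact h

lemma wordNorm_inv (hT : Subgroup.closure T = ⊤) (g : G) : wordNorm T g⁻¹ = wordNorm T g := by
  apply le_antisymm (wordNorm_inv_le hT g)
  have := wordNorm_inv_le hT g⁻¹
  rwa [inv_inv] at this

/-- A function with bounded variation on generators is bounded by the word norm. -/
lemma le_wordNorm (hT : Subgroup.closure T = ⊤) (f : G → ℝ) (C : ℝ) (h1 : f 1 = 0)
    (hf : ∀ g s : G, (s ∈ T ∨ s⁻¹ ∈ T) → f (g * s) ≤ f g + C) (g : G) :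
    f g ≤ C * wordNorm T g := by
  obtain ⟨l, hl, h2, h3⟩ := exists_min_word hT g
  have key : ∀ (l : List G), IsW T l → f l.prod ≤ C * l.length := by
    intro l
    induction l using List.reverseRecOn with
    | nil => intro _; simp [h1]
    | append_singleton l a ih =>
      intro hl
      have h4 : IsW T l := fun s hs => hl s (List.mem_append_left _ hs)
      have h5 := ih h4
      have h6 := hf l.prod a (hl a (by simp))
      simp only [List.prod_append, List.prod_cons, List.prod_nil, mul_one, List.length_append,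
        List.length_cons, List.length_nil]
      push_cast
      linarith
  have := key l hl
  rwa [h2, h3] at this

lemma finite_ball (hfin : T.Finite) (hT : Subgroup.closure T = ⊤) (n : ℕ) :
    {g : G | wordNorm T g ≤ n}.Finite := by
  set T' : Set G := T ∪ (fun x => x⁻¹) ⁻¹' T with hT'
  have hfin' : T'.Finite := by
    apply hfin.union
    exact hfin.preimage inv_injective.injOn
  have : Finite T' := hfin'
  have h1 : {l : List T' | l.length ≤ n}.Finite := List.finite_length_le T' n
  refine (h1.image (fun l => (l.map (fun x : T' => (x : G))).prod)).subset ?_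
  intro g hg
  obtain ⟨l, hl, h2, h3⟩ := exists_min_word hT g
  have hl' : ∀ s ∈ l, s ∈ T' := by
    intro s hs
    rcases hl s hs with h | h
    · left; exact h
    · right; exact h
  refine ⟨l.pmap (fun x hx => ⟨x, hx⟩) hl', ?_, ?_⟩
  · show (l.pmap _ hl').length ≤ n
    rw [List.length_pmap, h3]; exact hg
  · rw [← h2]
    show (List.map (fun x : T' => (x : G)) (l.pmap (fun x hx => ⟨x, hx⟩) hl')).prod = l.prod
    rw [List.map_pmap]
    simp

lemma wordDist_nonneg (x y : G) : 0 ≤ wordDist T x y := by
  unfold wordDist; positivity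

lemma wordDist_self (x : G) : wordDist T x x = 0 := by
  simp [wordDist, wordNorm_one]

lemma wordDist_symm (hT : Subgroup.closure T = ⊤) (x y : G) : wordDist T x y = wordDist T y x := by
  unfold wordDist
  rw [← wordNorm_inv hT (x⁻¹ * y)]
  simp

lemma wordDist_tri (hT : Subgroup.closure T = ⊤) (x y z : G) :
    wordDist T x z ≤ wordDist T x y + wordDist T y z := by
  unfold wordDist
  have := wordNorm_mul hT (x⁻¹ * y) (y⁻¹ * z)
  have e : x⁻¹ * y * (y⁻¹ * z) = x⁻¹ * z := by group
  rw [e] at this
  exact_mod_cast this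

lemma wordDist_mul_left (g x y : G) : wordDist T (g * x) (g * y) = wordDist T x y := by
  unfold wordDist
  congr 2
  group

lemma wordDist_mul_right (x t : G) : wordDist T x (x * t) = wordNorm T t := by
  unfold wordDist
  congr 2
  group

lemma wordDist_one (x : G) : wordDist T 1 x = wordNorm T x := by
  unfold wordDist
  congr 2
  group

end word

end Pool.Agent.Helper92.CT
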