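import Pool.Agent.Helper92.PF
import Pool.Agent.Helper92.Word

set_option autoImplicit false

universe u v w

namespace Pool.Agent.Helper92.CT

section setDist

variable {Y : Type v} [MetricSpace Y] {A B : Set Y}

lemma setDist_le {a b : Y} (ha : a ∈ A) (hb : b ∈ B) : setDist A B ≤ dist a b :=
  csInf_le ⟨0, by rintro _ ⟨a, _, b, _, rfl⟩; exact dist_nonneg⟩ ⟨a, ha, b, hb, rfl⟩

lemma setDist_nonneg : 0 ≤ setDist A B :=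
  Real.sInf_nonneg (by rintro _ ⟨a, _, b, _, rfl⟩; exact dist_nonneg)

lemma exists_of_setDist_lt (hA : A.Nonempty) (hB : B.Nonempty) {r : ℝ} (h : setDist A B < r) :
    ∃ a ∈ A, ∃ b ∈ B, dist a b < r := by
  obtain ⟨a0, ha0⟩ := hA
  obtain ⟨b0, hb0⟩ := hB
  have hne : {r : ℝ | ∃ a ∈ A, ∃ b ∈ B, r = dist a b}.Nonempty := ⟨_, a0, ha0, b0, hb0, rfl⟩
  obtain ⟨s, ⟨a, ha, b, hb, rfl⟩, hs⟩ := exists_lt_of_csInf_lt hne h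
  exact ⟨a, ha, b, hb, hs⟩

lemma le_setDist (hA : A.Nonempty) (hB : B.Nonempty) {r : ℝ}
    (h : ∀ a ∈ A, ∀ b ∈ B, r ≤ dist a b) : r ≤ setDist A B := by
  obtain ⟨a0, ha0⟩ := hA
  obtain ⟨b0, hb0⟩ := hB
  refine le_csInf ⟨_, a0, ha0, b0, hb0, rfl⟩ ?_
  rintro _ ⟨a, ha, b, hb, rfl⟩
  exact h a ha b hb

end setDist

namespace HHG

variable {G : Type w} [Group G] (𝔖 : HHG.{u, v, w} G)

/-- A chosen point in the projection of `x`. -/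
noncomputable def pt (U : 𝔖.S.ι) (x : G) : 𝔖.S.C U := (𝔖.S.π_nonempty U x).some

lemma pt_mem (U : 𝔖.S.ι) (x : G) : 𝔖.pt U x ∈ 𝔖.S.π U x := (𝔖.S.π_nonempty U x).some_mem

open Classical in
/-- A chosen point in `ρ V U`. -/
noncomputable def rpt (V U : 𝔖.S.ι) : 𝔖.S.C U :=
  if h : (𝔖.S.ρ V U).Nonempty then h.some else 𝔖.pt U 1

lemma rpt_mem {V U : 𝔖.S.ι} (h1 : V ≠ U) (h2 : ¬ 𝔖.S.orth V U) (h3 : ¬ 𝔖.S.nest U V) :
    𝔖.rpt V U ∈ 𝔖.S.ρ V U := by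
  have h := 𝔖.S.ρ_nonempty V U h1 h2 h3
  rw [rpt, dif_pos h]
  exact h.some_mem

lemma dist_pt {U : 𝔖.S.ι} {x : G} {a : 𝔖.S.C U} (ha : a ∈ 𝔖.S.π U x) :
    dist a (𝔖.pt U x) ≤ 𝔖.S.ξ := 𝔖.S.π_diam U x a ha _ (𝔖.pt_mem U x)

lemma dist_pt_le (U : 𝔖.S.ι) (x y : G) :
    dist (𝔖.pt U x) (𝔖.pt U y) ≤ setDist (𝔖.S.π U x) (𝔖.S.π U y) + 2 * 𝔖.S.ξ := by
  have h : dist (𝔖.pt U x) (𝔖.pt U y) - 2 * 𝔖.S.ξ ≤ setDist (𝔖.S.π U x) (𝔖.S.π U y) := by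
    apply le_setDist (𝔖.S.π_nonempty U x) (𝔖.S.π_nonempty U y)
    intro a ha b hb
    have h1 := 𝔖.dist_pt ha
    have h2 := 𝔖.dist_pt hb
    have h3 := dist_triangle4 (𝔖.pt U x) a b (𝔖.pt U y)
    rw [dist_comm (𝔖.pt U x) a] at h3
    linarith
  linarith

lemma ξ_nonneg (U : 𝔖.S.ι) : 0 ≤ 𝔖.S.ξ := by
  have := 𝔖.dist_pt (𝔖.pt_mem U 1)
  rwa [dist_self] at this

lemma setDist_le_pt (U : 𝔖.S.ι) (x y : G) :
    setDist (𝔖.S.π U x) (𝔖.S.π U y) ≤ dist (𝔖.pt U x) (𝔖.pt U y) :=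
  setDist_le (𝔖.pt_mem U x) (𝔖.pt_mem U y)

/-! ### Finite complexity arguments -/

/-- Chains below `W` have at most `m` elements. -/
def Lev (W : 𝔖.S.ι) (m : ℕ) : Prop :=
  ∀ F : Finset 𝔖.S.ι, (∀ U ∈ F, 𝔖.S.nest U W) →
    (∀ U ∈ F, ∀ V ∈ F, 𝔖.S.nest U V ∨ 𝔖.S.nest V U) → F.card ≤ m

lemma lev_n (W : 𝔖.S.ι) : 𝔖.Lev W 𝔖.S.n := fun F _ h => 𝔖.S.complexity F h

lemma not_lev_zero (W : 𝔖.S.ι) : ¬ 𝔖.Lev W 0 := by
  intro h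
  have := h {W} (by simp [𝔖.S.nest_refl]) (by simp [𝔖.S.nest_refl])
  simp at this

lemma Lev.below {𝔖 : HHG.{u, v, w} G} {W T : 𝔖.S.ι} {m : ℕ} (h : 𝔖.Lev W (m + 1))
    (hT : 𝔖.S.nest T W) (hne : T ≠ W) : 𝔖.Lev T m := by
  classical
  intro F hF hch
  have hW : W ∉ F := fun hW => hne (𝔖.S.nest_antisymm _ _ hT (hF W hW))
  have := h (insert W F) (by
    intro U hU
    rcases Finset.mem_insert.mp hU with rfl | hU
    · exact 𝔖.S.nest_refl _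
    · exact 𝔖.S.nest_trans _ _ _ (hF U hU) hT) (by
    intro U hU V hV
    rcases Finset.mem_insert.mp hU with hU1 | hU1
    · right
      rw [hU1]
      rcases Finset.mem_insert.mp hV with hV1 | hV1
      · rw [hV1]; exact 𝔖.S.nest_refl _
      · exact 𝔖.S.nest_trans _ _ _ (hF V hV1) hT
    · rcases Finset.mem_insert.mp hV with hV1 | hV1
      · left; rw [hV1]; exact 𝔖.S.nest_trans _ _ _ (hF U hU1) hT
      · exact hch U hU1 V hV1)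
  rw [Finset.card_insert_of_notMem hW] at this
  omega

lemma rel_finite_aux (m : ℕ) : ∀ (W : 𝔖.S.ι), 𝔖.Lev W m → ∀ x y,
    {V | 𝔖.S.nest V W ∧ 𝔖.S.E ≤ setDist (𝔖.S.π V x) (𝔖.S.π V y)}.Finite := by
  induction m with
  | zero => intro W hW; exact absurd hW (𝔖.not_lev_zero W)
  | succ m ih =>
    intro W hW x y
    obtain ⟨F, _, h2, h3⟩ := 𝔖.S.large_links W x y
    refine ((Set.finite_singleton W).union (F.finite_toSet.biUnion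
      (t := fun T => {V | T ∈ F ∧ 𝔖.S.nest V T ∧ 𝔖.S.E ≤ setDist (𝔖.S.π V x) (𝔖.S.π V y)})
      (fun T hT => ?_))).subset ?_
    · have hT' : T ∈ F := hT
      refine (ih T (hW.below (h2 T hT').1 (h2 T hT').2.1) x y).subset ?_
      rintro V ⟨_, h4, h5⟩
      exact ⟨h4, h5⟩
    · rintro V ⟨h4, h5⟩
      by_cases hV : V = W
      · left; exact hV
      · right
        rcases h3 V h4 hV with ⟨T, hT, hVT⟩ | h6
        · simp only [Set.mem_iUnion]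
          exact ⟨T, hT, hT, hVT, h5⟩
        · exact absurd h5 (not_le.mpr h6)

lemma passup_aux (C : ℝ) (m : ℕ) : ∃ M : ℕ, ∀ (W : 𝔖.S.ι), 𝔖.Lev W m → ∀ x y
    (F : Finset 𝔖.S.ι), M ≤ F.card →
    (∀ V ∈ F, 𝔖.S.nest V W ∧ 𝔖.S.E ≤ setDist (𝔖.S.π V x) (𝔖.S.π V y)) →
    ∃ V ∈ F, ∃ W', 𝔖.S.nest V W' ∧ V ≠ W' ∧ C ≤ setDist (𝔖.S.π W' x) (𝔖.S.π W' y) := by
  classical
  induction m with
  | zero => exact ⟨0, fun W hW => absurd hW (𝔖.not_lev_zero W)⟩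
  | succ m ih =>
    obtain ⟨M, hM⟩ := ih
    obtain ⟨N, hN⟩ := exists_nat_ge (𝔖.S.lam * C + 𝔖.S.lam)
    refine ⟨N * M + 2, fun W hW x y F hcard hF => ?_⟩
    by_cases hC : C ≤ setDist (𝔖.S.π W x) (𝔖.S.π W y)
    · have h1 : 1 < F.card := by omega
      obtain ⟨V, hV, hne⟩ := Finset.exists_mem_ne h1 W
      exact ⟨V, hV, W, (hF V hV).1, hne, hC⟩
    · push Not at hC
      obtain ⟨𝒯, h1, h2, h3⟩ := 𝔖.S.large_links W x y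
      have hlam := 𝔖.S.one_le_lam
      have hcardT : 𝒯.card ≤ N := by
        have : (𝒯.card : ℝ) ≤ N := by
          refine le_trans h1 (le_trans ?_ hN)
          have := mul_le_mul_of_nonneg_left hC.le (show 0 ≤ 𝔖.S.lam by linarith)
          linarith
        exact_mod_cast this
      -- choice function
      have hch : ∀ V : 𝔖.S.ι, ∃ T, V ∈ F.erase W → T ∈ 𝒯 ∧ 𝔖.S.nest V T := by
        intro V
        by_cases hV : V ∈ F.erase W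
        · have hV' := Finset.mem_erase.mp hV
          rcases h3 V (hF V hV'.2).1 hV'.1 with ⟨T, hT, hVT⟩ | h6
          · exact ⟨T, fun _ => ⟨hT, hVT⟩⟩
          · exact absurd (hF V hV'.2).2 (not_le.mpr h6)
        · exact ⟨W, fun h => absurd h hV⟩
      choose f hf using hch
      have hc2 : N * M < (F.erase W).card := by
        have := Finset.pred_card_le_card_erase (s := F) (a := W)
        omega
      have hc3 : 𝒯.card * M < (F.erase W).card :=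
        lt_of_le_of_lt (Nat.mul_le_mul_right M hcardT) hc2
      obtain ⟨T, hT, hT2⟩ := Finset.exists_lt_card_fiber_of_mul_lt_card_of_maps_to
        (fun V hV => (hf V hV).1) hc3
      obtain ⟨V, hV, W', h4, h5, h6⟩ := hM T (hW.below (h2 T hT).1 (h2 T hT).2.1) x y
        ((F.erase W).filter (fun V => f V = T)) hT2.le (by
          intro V hV
          rw [Finset.mem_filter] at hV
          have h7 := (hf V hV.1).2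
          rw [hV.2] at h7
          exact ⟨h7, (hF V (Finset.mem_of_mem_erase hV.1)).2⟩)
      rw [Finset.mem_filter] at hV
      exact ⟨V, Finset.mem_of_mem_erase hV.1, W', h4, h5, h6⟩

lemma exists_maximal (Q : 𝔖.S.ι → Prop) (V : 𝔖.S.ι) (hV : Q V) :
    ∃ U, 𝔖.S.nest V U ∧ Q U ∧ ∀ W, 𝔖.S.nest U W → Q W → W = U := by
  classical
  by_contra hcon
  push Not at hcon
  have key : ∀ k : ℕ, ∃ F : Finset 𝔖.S.ι, F.card = k + 1 ∧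
      (∀ U ∈ F, ∀ V ∈ F, 𝔖.S.nest U V ∨ 𝔖.S.nest V U) ∧
      ∃ U ∈ F, Q U ∧ 𝔖.S.nest V U ∧ ∀ W ∈ F, 𝔖.S.nest W U := by
    intro k
    induction k with
    | zero => exact ⟨{V}, by simp, by simp [𝔖.S.nest_refl], V, by simp, hV, 𝔖.S.nest_refl V,
        by simp [𝔖.S.nest_refl]⟩
    | succ k ih =>
      obtain ⟨F, h1, h2, U, hU, h3, h4, h5⟩ := ih
      obtain ⟨W, h6, h7, h8⟩ := hcon U h4 h3
      have hW : W ∉ F := fun hW => h8 (𝔖.S.nest_antisymm _ _ (h5 W hW) h6)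
      have h9 : ∀ W' ∈ F, 𝔖.S.nest W' W := fun W' hW' => 𝔖.S.nest_trans _ _ _ (h5 W' hW') h6
      refine ⟨insert W F, ?_, ?_, W, Finset.mem_insert_self _ _, h7,
        𝔖.S.nest_trans _ _ _ h4 h6, ?_⟩
      · rw [Finset.card_insert_of_notMem hW, h1]
      · intro A hA B hB
        rcases Finset.mem_insert.mp hA with hA1 | hA1
        · right
          rw [hA1]
          rcases Finset.mem_insert.mp hB with hB1 | hB1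
          · rw [hB1]; exact 𝔖.S.nest_refl _
          · exact h9 B hB1
        · rcases Finset.mem_insert.mp hB with hB1 | hB1
          · left; rw [hB1]; exact h9 A hA1
          · exact h2 A hA1 B hB1
      · intro A hA
        rcases Finset.mem_insert.mp hA with rfl | hA
        · exact 𝔖.S.nest_refl _
        · exact h9 A hA
  obtain ⟨F, h1, h2, _⟩ := key 𝔖.S.n
  have := 𝔖.S.complexity F h2
  omega

lemma nest_of_not_orth_of_nest {V U : 𝔖.S.ι} (h : 𝔖.S.nest V U) : ¬ 𝔖.S.orth V U :=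
  fun h' => (𝔖.S.orth_not_nest _ _ h').1 h

lemma relfin' (x y : G) :
    {V | 𝔖.S.E ≤ setDist (𝔖.S.π V x) (𝔖.S.π V y)}.Finite := by
  rcases 𝔖.S.nest_top with h | ⟨S, hS⟩
  · exact Set.toFinite _
  · refine (𝔖.rel_finite_aux _ S (𝔖.lev_n S) x y).subset ?_
    intro V hV
    exact ⟨hS V, hV⟩

lemma passup' (C : ℝ) : ∃ m : ℕ, ∀ x y (F : Finset 𝔖.S.ι), m ≤ F.card →
    (∀ V ∈ F, 𝔖.S.E ≤ setDist (𝔖.S.π V x) (𝔖.S.π V y)) →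
    ∃ V ∈ F, ∃ W, 𝔖.S.nest V W ∧ V ≠ W ∧ C ≤ setDist (𝔖.S.π W x) (𝔖.S.π W y) := by
  rcases 𝔖.S.nest_top with h | ⟨S, hS⟩
  · refine ⟨1, fun x y F hF _ => ?_⟩
    obtain ⟨V, _⟩ := Finset.card_pos.mp (show 0 < F.card by omega)
    exact (h.false V).elim
  · obtain ⟨M, hM⟩ := 𝔖.passup_aux C 𝔖.S.n
    exact ⟨M, fun x y F hF h => hM S (𝔖.lev_n S) x y F hF (fun V hV => ⟨hS V, h V hV⟩)⟩

lemma exists_geodesic (U : 𝔖.S.ι) (p q : 𝔖.S.C U) : ∃ γ : ℝ → 𝔖.S.C U,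
    IsGeodesic γ (dist p q) ∧ γ 0 = p ∧ γ (dist p q) = q := by
  obtain ⟨γ, L, h1, h2, h3⟩ := 𝔖.S.geodesic U p q
  have h4 := h1.2 0 ⟨le_refl _, h1.1⟩ L ⟨h1.1, le_refl _⟩
  rw [h2, h3, zero_sub, abs_neg, abs_of_nonneg h1.1] at h4
  rw [h4]
  exact ⟨γ, h1, h2, h3⟩

lemma near_pt {U : 𝔖.S.ι} {x y : G} {γ : ℝ → 𝔖.S.C U} {L : ℝ} (hγ : IsGeodesic γ L)
    (h0 : γ 0 = 𝔖.pt U x) (hL : γ L = 𝔖.pt U y) {t : ℝ} (ht : t ∈ Set.Icc 0 L) :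
    ∃ z, dist (γ t) (𝔖.pt U z) ≤ 𝔖.S.K + 𝔖.S.ξ := by
  obtain ⟨a, ha, h1⟩ := 𝔖.S.π_quasiconvex U γ L hγ
    (by rw [h0]; exact Set.mem_iUnion.mpr ⟨x, 𝔖.pt_mem U x⟩)
    (by rw [hL]; exact Set.mem_iUnion.mpr ⟨y, 𝔖.pt_mem U y⟩) t ht
  obtain ⟨z, hz⟩ := Set.mem_iUnion.mp ha
  refine ⟨z, ?_⟩
  have h2 := 𝔖.dist_pt hz
  have h3 := dist_triangle (γ t) a (𝔖.pt U z)
  linarith

lemma K_nonneg (U : 𝔖.S.ι) : 0 ≤ 𝔖.S.K := by
  have h1 := 𝔖.S.π_lip U 1 1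
  rw [wordDist_self] at h1
  have h2 : 0 ≤ setDist (𝔖.S.π U 1) (𝔖.S.π U 1) := setDist_nonneg
  linarith

lemma mid' (U : 𝔖.S.ι) (x y : G) : ∃ z,
    |dist (𝔖.pt U x) (𝔖.pt U z) - dist (𝔖.pt U x) (𝔖.pt U y) / 2| ≤ 𝔖.S.K + 𝔖.S.ξ ∧
    |dist (𝔖.pt U z) (𝔖.pt U y) - dist (𝔖.pt U x) (𝔖.pt U y) / 2| ≤ 𝔖.S.K + 𝔖.S.ξ := by
  obtain ⟨γ, h1, h2, h3⟩ := 𝔖.exists_geodesic U (𝔖.pt U x) (𝔖.pt U y)
  set L := dist (𝔖.pt U x) (𝔖.pt U y) with hL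
  have hL0 : 0 ≤ L := dist_nonneg
  have ht : L / 2 ∈ Set.Icc 0 L := ⟨by linarith, by linarith⟩
  obtain ⟨z, hz⟩ := 𝔖.near_pt h1 h2 h3 ht
  have h4 := h1.2 0 ⟨le_refl _, hL0⟩ (L / 2) ht
  have h5 := h1.2 (L / 2) ht L ⟨hL0, le_refl _⟩
  rw [h2, zero_sub, abs_neg, abs_of_nonneg ht.1] at h4
  rw [h3, abs_of_nonpos (by linarith)] at h5
  refine ⟨z, ?_, ?_⟩
  · have t1 := dist_triangle (𝔖.pt U x) (γ (L / 2)) (𝔖.pt U z)
    have t2 := dist_triangle (𝔖.pt U x) (𝔖.pt U z) (γ (L / 2))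
    rw [dist_comm (𝔖.pt U z) (γ (L / 2))] at t2
    rw [abs_le]; constructor <;> linarith
  · have t1 := dist_triangle (𝔖.pt U z) (γ (L / 2)) (𝔖.pt U y)
    have t2 := dist_triangle (γ (L / 2)) (𝔖.pt U z) (𝔖.pt U y)
    rw [dist_comm (𝔖.pt U z) (γ (L / 2))] at t1
    rw [abs_le]; constructor <;> linarith

lemma equi' (g : G) (U : 𝔖.S.ι) (x y : G) :
    |dist (𝔖.pt (𝔖.smul g U) (g * x)) (𝔖.pt (𝔖.smul g U) (g * y)) -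
      dist (𝔖.pt U x) (𝔖.pt U y)| ≤ 2 * 𝔖.c := by
  have h1 := 𝔖.π_equiv g U x _ (𝔖.pt_mem U x) _ (𝔖.pt_mem (𝔖.smul g U) (g * x))
  have h2 := 𝔖.π_equiv g U y _ (𝔖.pt_mem U y) _ (𝔖.pt_mem (𝔖.smul g U) (g * y))
  have h3 := 𝔖.iso_dist g U (𝔖.pt U x) (𝔖.pt U y)
  have h4 := dist_triangle4 (𝔖.iso g U (𝔖.pt U x)) (𝔖.pt (𝔖.smul g U) (g * x))
    (𝔖.pt (𝔖.smul g U) (g * y)) (𝔖.iso g U (𝔖.pt U y))
  have h5 := dist_triangle4 (𝔖.pt (𝔖.smul g U) (g * x)) (𝔖.iso g U (𝔖.pt U x))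
    (𝔖.iso g U (𝔖.pt U y)) (𝔖.pt (𝔖.smul g U) (g * y))
  rw [dist_comm (𝔖.pt (𝔖.smul g U) (g * y)) (𝔖.iso g U (𝔖.pt U y))] at h4
  rw [dist_comm (𝔖.pt (𝔖.smul g U) (g * x)) (𝔖.iso g U (𝔖.pt U x))] at h5
  rw [abs_le]
  constructor <;> linarith

lemma smul_injective (g : G) {U V : 𝔖.S.ι} (h : 𝔖.smul g U = 𝔖.smul g V) : U = V := by
  have := congrArg (𝔖.smul g⁻¹) h
  rwa [← 𝔖.mul_smul, ← 𝔖.mul_smul, inv_mul_cancel, 𝔖.one_smul, 𝔖.one_smul] at this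

lemma R_equi' (g : G) (V U : 𝔖.S.ι) (x : G) (h1 : V ≠ U) (h2 : ¬ 𝔖.S.orth V U)
    (h3 : ¬ 𝔖.S.nest U V) :
    dist (𝔖.pt (𝔖.smul g U) (g * x)) (𝔖.rpt (𝔖.smul g V) (𝔖.smul g U)) ≤
      dist (𝔖.pt U x) (𝔖.rpt V U) + 2 * 𝔖.c := by
  have e1 := 𝔖.π_equiv g U x _ (𝔖.pt_mem U x) _ (𝔖.pt_mem (𝔖.smul g U) (g * x))
  have e2 := 𝔖.ρ_equiv g V U h1 h2 h3 _ (𝔖.rpt_mem h1 h2 h3) _
    (𝔖.rpt_mem (V := 𝔖.smul g V) (U := 𝔖.smul g U) (fun h => h1 (𝔖.smul_injective g h))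
      (by rw [𝔖.orth_smul]; exact h2) (by rw [𝔖.nest_smul]; exact h3))
  have e3 := 𝔖.iso_dist g U (𝔖.pt U x) (𝔖.rpt V U)
  have h5 := dist_triangle4 (𝔖.pt (𝔖.smul g U) (g * x)) (𝔖.iso g U (𝔖.pt U x))
    (𝔖.iso g U (𝔖.rpt V U)) (𝔖.rpt (𝔖.smul g V) (𝔖.smul g U))
  rw [dist_comm (𝔖.pt (𝔖.smul g U) (g * x)) (𝔖.iso g U (𝔖.pt U x))] at h5
  linarith

lemma dist_rpt_le {V U : 𝔖.S.ι} (h1 : V ≠ U) (h2 : ¬ 𝔖.S.orth V U) (h3 : ¬ 𝔖.S.nest U V)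
    {x : G} {r : ℝ} (h : setDist (𝔖.S.π U x) (𝔖.S.ρ V U) ≤ r) :
    dist (𝔖.pt U x) (𝔖.rpt V U) ≤ r + 1 + 2 * 𝔖.S.ξ := by
  obtain ⟨a, ha, b, hb, hab⟩ := exists_of_setDist_lt (𝔖.S.π_nonempty U x)
    (𝔖.S.ρ_nonempty V U h1 h2 h3) (lt_of_le_of_lt h (lt_add_one r))
  have e1 := 𝔖.dist_pt ha
  have e2 := 𝔖.S.ρ_diam V U h1 h2 h3 b hb _ (𝔖.rpt_mem h1 h2 h3)
  have e3 := dist_triangle4 (𝔖.pt U x) a b (𝔖.rpt V U)
  rw [dist_comm (𝔖.pt U x) a] at e3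
  linarith

/-- Constant for the bounded geodesic image consequence. -/
noncomputable def cM : ℝ :=
  2 * (|𝔖.S.K| + |𝔖.S.ξ|) + |𝔖.S.κ₀| + 1 + 4 * |𝔖.S.ξ| + |𝔖.S.E'| + |𝔖.S.K|

lemma bgi' (V U : 𝔖.S.ι) (x y : G) (hn : 𝔖.S.nest V U) (hne : V ≠ U)
    (hlt : 2 * 𝔖.S.κ₀ + 𝔖.S.E' < dist (𝔖.pt V x) (𝔖.pt V y)) :
    ∃ z, dist (𝔖.pt U x) (𝔖.pt U z) + dist (𝔖.pt U z) (𝔖.pt U y) ≤
      dist (𝔖.pt U x) (𝔖.pt U y) + 𝔖.cM ∧ dist (𝔖.pt U z) (𝔖.rpt V U) ≤ 𝔖.cM := by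
  have horth := 𝔖.nest_of_not_orth_of_nest hn
  have hnest : ¬ 𝔖.S.nest U V := fun h => hne (𝔖.S.nest_antisymm _ _ hn h)
  have a1 := abs_nonneg 𝔖.S.K
  have a2 := abs_nonneg 𝔖.S.ξ
  have a3 := abs_nonneg 𝔖.S.κ₀
  have a4 := abs_nonneg 𝔖.S.E'
  have b1 := le_abs_self 𝔖.S.K
  have b2 := le_abs_self 𝔖.S.ξ
  have b3 := le_abs_self 𝔖.S.κ₀
  have b4 := le_abs_self 𝔖.S.E'
  have hcM : 0 ≤ 𝔖.cM := by unfold cM; linarith
  rcases 𝔖.S.consistent_nest V U hn hne x with hx | hx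
  · refine ⟨x, by rw [dist_self]; linarith, ?_⟩
    have := 𝔖.dist_rpt_le hne horth hnest hx
    unfold cM; linarith
  rcases 𝔖.S.consistent_nest V U hn hne y with hy | hy
  · refine ⟨y, by rw [dist_self]; linarith, ?_⟩
    have := 𝔖.dist_rpt_le hne horth hnest hy
    unfold cM; linarith
  obtain ⟨γ, h1, h2, h3⟩ := 𝔖.exists_geodesic U (𝔖.pt U x) (𝔖.pt U y)
  set L := dist (𝔖.pt U x) (𝔖.pt U y) with hL
  have hL0 : 0 ≤ L := dist_nonneg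
  rcases 𝔖.S.bgi U V hn hne γ L h1 with h4 | ⟨t, ht, q, hq, htq⟩
  · exfalso
    obtain ⟨p1, hp1⟩ := 𝔖.S.ρmap_nonempty V U hn hne (𝔖.pt U x)
    obtain ⟨p2, hp2⟩ := 𝔖.S.ρmap_nonempty V U hn hne (𝔖.pt U y)
    have c1 := hx (𝔖.pt V x) (Or.inl (𝔖.pt_mem V x)) p1 (Or.inr (by
      simp only [Set.mem_iUnion]; exact ⟨_, 𝔖.pt_mem U x, hp1⟩))
    have c2 := hy p2 (Or.inr (by
      simp only [Set.mem_iUnion]; exact ⟨_, 𝔖.pt_mem U y, hp2⟩)) (𝔖.pt V y)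
      (Or.inl (𝔖.pt_mem V y))
    have c3 := h4 p1 (by
      simp only [Set.mem_iUnion]; exact ⟨0, ⟨le_refl _, hL0⟩, by rw [h2]; exact hp1⟩) p2 (by
      simp only [Set.mem_iUnion]; exact ⟨L, ⟨hL0, le_refl _⟩, by rw [h3]; exact hp2⟩)
    have c4 := dist_triangle4 (𝔖.pt V x) p1 p2 (𝔖.pt V y)
    linarith
  · obtain ⟨z, hz⟩ := 𝔖.near_pt h1 h2 h3 ht
    have d1 := h1.2 0 ⟨le_refl _, hL0⟩ t ht
    have d2 := h1.2 t ht L ⟨hL0, le_refl _⟩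
    rw [h2, zero_sub, abs_neg, abs_of_nonneg ht.1] at d1
    rw [h3, abs_of_nonpos (by linarith [ht.2])] at d2
    have e1 := dist_triangle (𝔖.pt U x) (γ t) (𝔖.pt U z)
    have e2 := dist_triangle (𝔖.pt U z) (γ t) (𝔖.pt U y)
    rw [dist_comm (𝔖.pt U z) (γ t)] at e2
    have e3 := 𝔖.S.ρ_diam V U hne horth hnest q hq _ (𝔖.rpt_mem hne horth hnest)
    have e4 := dist_triangle4 (𝔖.pt U z) (γ t) q (𝔖.rpt V U)
    rw [dist_comm (𝔖.pt U z) (γ t)] at e4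
    refine ⟨z, ?_, ?_⟩
    · unfold cM; linarith
    · unfold cM; linarith

/-- The coarse data of a hierarchically hyperbolic group structure. -/
noncomputable def toPF : PF.{u, w} G where
  ι := 𝔖.S.ι
  D := fun U x y => dist (𝔖.pt U x) (𝔖.pt U y)
  sm := 𝔖.smul
  one_sm := 𝔖.one_smul
  mul_sm := 𝔖.mul_smul
  nest := 𝔖.S.nest
  nest_trans := 𝔖.S.nest_trans
  nest_antisymm := 𝔖.S.nest_antisymm
  orth := 𝔖.S.orth
  orth_symm := 𝔖.S.orth_symm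
  orth_not_nest := fun U V h => (𝔖.S.orth_not_nest U V h).1
  nest_sm := 𝔖.nest_smul
  orth_sm := 𝔖.orth_smul
  self := fun U x => dist_self _
  symm := fun U x y => dist_comm _ _
  tri := fun U x y z => dist_triangle _ _ _
  δ := 𝔖.S.δ
  hyp := fun U b x y z => 𝔖.S.hyp U (𝔖.pt U b) (𝔖.pt U x) (𝔖.pt U y) (𝔖.pt U z)
  M := 𝔖.S.K + 𝔖.S.ξ
  mid := 𝔖.mid'
  step := by
    intro t
    refine ⟨𝔖.S.K * wordNorm (𝔖.T : Set G) t + 𝔖.S.K + 2 * 𝔖.S.ξ, fun U x => ?_⟩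
    have h1 := 𝔖.dist_pt_le U x (x * t)
    have h2 := 𝔖.S.π_lip U x (x * t)
    rw [wordDist_mul_right] at h2
    linarith
  c := 2 * 𝔖.c
  equi := 𝔖.equi'
  orbits := 𝔖.cofinite
  maxl := 𝔖.exists_maximal
  E := 𝔖.S.E + 2 * 𝔖.S.ξ
  relfin := by
    intro x y
    refine (𝔖.relfin' x y).subset ?_
    intro V hV
    have h1 : 𝔖.S.E + 2 * 𝔖.S.ξ ≤ dist (𝔖.pt V x) (𝔖.pt V y) := hV
    have h2 := 𝔖.dist_pt_le V x y
    show 𝔖.S.E ≤ _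
    linarith
  passup := by
    intro C
    obtain ⟨m, hm⟩ := 𝔖.passup' C
    refine ⟨m, fun x y F hF h => ?_⟩
    obtain ⟨V, hV, W, h1, h2, h3⟩ := hm x y F hF (by
      intro V hV
      have h1 := h V hV
      have h2 := 𝔖.dist_pt_le V x y
      linarith)
    exact ⟨V, hV, W, h1, h2, le_trans h3 (𝔖.setDist_le_pt W x y)⟩
  R := fun V U x => dist (𝔖.pt U x) (𝔖.rpt V U)
  R_lip := by
    intro V U x y _ _ _
    have := dist_triangle (𝔖.pt U x) (𝔖.pt U y) (𝔖.rpt V U)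
    linarith
  D_le_R := by
    intro V U x y _ _ _
    have := dist_triangle (𝔖.pt U x) (𝔖.rpt V U) (𝔖.pt U y)
    rwa [dist_comm (𝔖.rpt V U) (𝔖.pt U y)] at this
  R_equi := 𝔖.R_equi'
  E2 := 2 * 𝔖.S.κ₀ + 𝔖.S.E'
  M' := 𝔖.cM
  bgi := 𝔖.bgi'
  α := 𝔖.S.α + 1 + 2 * |𝔖.S.ξ|
  realize := by
    intro F y hF
    obtain ⟨x, hx, _, _⟩ := 𝔖.S.realization F (fun U => 𝔖.pt U (y U)) hF
      (fun U _ => Set.mem_iUnion.mpr ⟨y U, 𝔖.pt_mem U (y U)⟩)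
    refine ⟨x, fun U hU => ?_⟩
    obtain ⟨a, ha, b, hb, hab⟩ := exists_of_setDist_lt (𝔖.S.π_nonempty U x)
      (Set.singleton_nonempty _) (lt_of_le_of_lt (hx U hU) (lt_add_one _))
    rw [Set.mem_singleton_iff] at hb
    subst hb
    have e1 := 𝔖.dist_pt ha
    have e2 := dist_triangle (𝔖.pt U x) a (𝔖.pt U (y U))
    rw [dist_comm (𝔖.pt U x) a] at e2
    have e3 := le_abs_self 𝔖.S.ξ
    have e4 := abs_nonneg 𝔖.S.ξ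
    linarith
  realizeR := by
    intro V U hn hne
    obtain ⟨x, _, hx, _⟩ := 𝔖.S.realization {V} (fun U => 𝔖.pt U 1) (by
        rintro U rfl V rfl h; exact absurd rfl h)
      (fun U _ => Set.mem_iUnion.mpr ⟨1, 𝔖.pt_mem U 1⟩)
    refine ⟨x, ?_⟩
    have := 𝔖.dist_rpt_le hne (𝔖.nest_of_not_orth_of_nest hn)
      (fun h => hne (𝔖.S.nest_antisymm _ _ hn h)) (hx V rfl U hn hne)
    have e3 := le_abs_self 𝔖.S.ξ
    linarith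
  uniq := by
    intro κ
    obtain ⟨θ, hθ⟩ := 𝔖.S.uniqueness (max κ 0 + 1) (by have := le_max_right κ 0; linarith)
    obtain ⟨n, hn⟩ := exists_nat_ge θ
    refine (finite_ball (T := (𝔖.T : Set G)) 𝔖.T.finite_toSet 𝔖.closure_T n).subset ?_
    intro g hg
    have hg' : ∀ V, dist (𝔖.pt V 1) (𝔖.pt V g) ≤ κ := hg
    by_contra hcon
    have hcon' : n < wordNorm (𝔖.T : Set G) g := not_le.mp hcon
    obtain ⟨V, hV⟩ := hθ 1 g (by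
      rw [wordDist_one]
      refine le_trans hn ?_
      exact_mod_cast hcon'.le)
    have h1 := 𝔖.setDist_le_pt V 1 g
    have h2 := hg' V
    have h3 := le_max_left κ 0
    linarith

/-- The obstruction for hierarchically hyperbolic groups. -/
theorem not_hqc (𝔖 : HHG.{u, v, w} G) {A : Subgroup G} [A.FiniteIndex]
    (hcomm : ∀ a ∈ A, ∀ b ∈ A, a * b = b * a) {hh : G} (hhA : hh ∈ A) (r : G) (hr3 : r ^ 3 = 1)
    (hrA : ∀ a ∈ A, r * a * r⁻¹ ∈ A)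
    (hnorm : ∀ a ∈ A, ∃ m : ℤ, a * (r * a * r⁻¹) * (r * (r * a * r⁻¹) * r⁻¹) = hh ^ m)
    (hinf : ∀ F : Set G, F.Finite → ∃ m : ℤ, hh ^ m ∉ F)
    (hidx : ∀ F : Set G, F.Finite → ∃ x, ∀ m : ℤ, (hh ^ m)⁻¹ * x ∉ F) :
    ¬ 𝔖.S.HQC (Subgroup.zpowers hh : Set G) := by
  rintro ⟨k, _, hk⟩
  refine 𝔖.toPF.false_of_hqc hcomm hhA r hr3 hrA hnorm hinf hidx ?_
  intro κ
  obtain ⟨n, hn⟩ := exists_nat_ge (k (max κ 0))
  refine ⟨_, finite_ball (T := (𝔖.T : Set G)) 𝔖.T.finite_toSet 𝔖.closure_T n, fun x hx => ?_⟩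
  obtain ⟨y, hy, hxy⟩ := hk (max κ 0) (le_max_right _ _) x (by
    intro U
    obtain ⟨m, hm⟩ := hx U
    have hm' : dist (𝔖.pt U x) (𝔖.pt U (hh ^ m)) ≤ κ := hm
    refine le_trans (setDist_le (𝔖.pt_mem U x) (b := 𝔖.pt U (hh ^ m)) ?_)
      (le_trans hm' (le_max_left _ _))
    simp only [Set.mem_iUnion]
    exact ⟨hh ^ m, Subgroup.zpow_mem_zpowers hh m, 𝔖.pt_mem U _⟩)
  obtain ⟨m, rfl⟩ := Subgroup.mem_zpowers_iff.mp hy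
  refine ⟨m, ?_⟩
  show wordNorm (𝔖.T : Set G) ((hh ^ m)⁻¹ * x) ≤ n
  rw [wordDist_symm 𝔖.closure_T] at hxy
  unfold wordDist at hxy
  exact_mod_cast le_trans hxy hn

end HHG

end Pool.Agent.Helper92.CT
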