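import Pool.Agent.Helper92.ToPF

set_option autoImplicit false

universe u v w

namespace Pool.Agent.Helper92.CT

/-- The group `ℤ³ ⋊ C₃` (cyclic permutation of the coordinates). -/
@[ext] structure W3 where
  v : ZMod 3 → ℤ
  k : ZMod 3

namespace W3

instance : Mul W3 := ⟨fun a b => ⟨fun i => a.v i + b.v (i - a.k), a.k + b.k⟩⟩
instance : One W3 := ⟨⟨fun _ => 0, 0⟩⟩
instance : Inv W3 := ⟨fun a => ⟨fun i => - a.v (i + a.k), - a.k⟩⟩

@[simp] lemma mul_v (a b : W3) (i : ZMod 3) : (a * b).v i = a.v i + b.v (i - a.k) := rfl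
@[simp] lemma mul_k (a b : W3) : (a * b).k = a.k + b.k := rfl
@[simp] lemma one_v (i : ZMod 3) : (1 : W3).v i = 0 := rfl
@[simp] lemma one_k : (1 : W3).k = 0 := rfl
@[simp] lemma inv_v (a : W3) (i : ZMod 3) : (a⁻¹).v i = - a.v (i + a.k) := rfl
@[simp] lemma inv_k (a : W3) : (a⁻¹).k = - a.k := rfl

instance : Group W3 := Group.ofLeftAxioms
  (by
    intro a b c
    ext i
    · simp only [mul_v, mul_k]; rw [add_assoc, sub_sub]
    · simp only [mul_k, add_assoc])
  (by
    intro a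
    ext i
    · simp
    · simp)
  (by
    intro a
    ext i
    · simp
    · simp)

/-- The translation subgroup. -/
def A : Subgroup W3 where
  carrier := {g | g.k = 0}
  one_mem' := rfl
  mul_mem' := by
    intro a b ha hb
    show a.k + b.k = 0
    rw [show a.k = 0 from ha, show b.k = 0 from hb, add_zero]
  inv_mem' := by
    intro a ha
    show - a.k = 0
    rw [show a.k = 0 from ha, neg_zero]

lemma mem_A {a : W3} : a ∈ A ↔ a.k = 0 := Iff.rfl

instance : A.FiniteIndex := by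
  have : Finite (W3 ⧸ A) := by
    refine Finite.of_injective (fun q : W3 ⧸ A => (q.out).k) ?_
    intro q q' h
    rw [← QuotientGroup.out_eq' q, ← QuotientGroup.out_eq' q', QuotientGroup.eq, mem_A]
    simp only [mul_k, inv_k]
    have h' : (q.out).k = (q'.out).k := h
    rw [h']; ring
  exact Subgroup.finiteIndex_of_finite_quotient

lemma A_comm : ∀ a ∈ A, ∀ b ∈ A, a * b = b * a := by
  intro a ha b hb
  rw [mem_A] at ha hb
  ext i
  · simp [ha, hb, add_comm]
  · simp [ha, hb]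

/-- The central element `(1, 1, 1)`. -/
def h : W3 := ⟨fun _ => 1, 0⟩
/-- The rotation. -/
def r : W3 := ⟨fun _ => 0, 1⟩

lemma h_pow (n : ℕ) : h ^ n = ⟨fun _ => n, 0⟩ := by
  induction n with
  | zero => rfl
  | succ n ih =>
    rw [pow_succ, ih]
    ext i
    · simp [h]
    · simp [h]

lemma h_zpow (m : ℤ) : h ^ m = ⟨fun _ => m, 0⟩ := by
  obtain ⟨n, rfl | rfl⟩ := m.eq_nat_or_neg
  · rw [zpow_natCast, h_pow]
  · rw [zpow_neg, zpow_natCast, h_pow]
    ext i
    · simp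
    · simp

lemma h_mem : h ∈ A := rfl

lemma r_cube : r ^ 3 = 1 := by
  rw [pow_three]
  ext i
  · simp [r]
  · simp only [mul_k, r, one_k]; decide

lemma conj_mem (a : W3) (ha : a ∈ A) : r * a * r⁻¹ ∈ A := by
  rw [mem_A] at ha ⊢
  simp [ha, r]

lemma norm_eq (a : W3) (ha : a ∈ A) :
    ∃ m : ℤ, a * (r * a * r⁻¹) * (r * (r * a * r⁻¹) * r⁻¹) = h ^ m := by
  rw [mem_A] at ha
  refine ⟨a.v 0 + a.v 1 + a.v 2, ?_⟩
  rw [h_zpow]
  ext i
  · simp only [mul_v, mul_k, inv_v, inv_k, r, ha, zero_add, sub_zero, neg_zero, add_zero]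
    have h3 : i = 0 ∨ i = 1 ∨ i = 2 := by revert i; decide
    have e1 : (0 : ZMod 3) - 1 = 2 := by decide
    have e2 : (1 : ZMod 3) - 1 = 0 := by decide
    have e3 : (2 : ZMod 3) - 1 = 1 := by decide
    have e4 : (0 : ZMod 3) - (1 + -1) - 1 - 1 = 1 := by decide
    have e5 : (1 : ZMod 3) - (1 + -1) - 1 - 1 = 2 := by decide
    have e6 : (2 : ZMod 3) - (1 + -1) - 1 - 1 = 0 := by decide
    rcases h3 with rfl | rfl | rfl
    · rw [e4, e1]; ring
    · rw [e5, e2]; ring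
    · rw [e6, e3]; ring
  · simp [r, ha]

lemma zpow_not_mem (F : Set W3) (hF : F.Finite) : ∃ m : ℤ, h ^ m ∉ F := by
  by_contra hcon
  push Not at hcon
  have hinj : Function.Injective (fun m : ℤ => h ^ m) := by
    intro m n hmn
    have := congrArg (fun g : W3 => g.v 0) hmn
    simpa [h_zpow] using this
  exact Set.infinite_range_of_injective hinj (hF.subset (by rintro _ ⟨m, rfl⟩; exact hcon m))

lemma exists_coset (F : Set W3) (hF : F.Finite) : ∃ x, ∀ m : ℤ, (h ^ m)⁻¹ * x ∉ F := by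
  obtain ⟨n, hn⟩ := (Set.infinite_univ (α := ℤ)).exists_notMem_finset
    (hF.image (fun g : W3 => g.v 0 - g.v 1)).toFinset
  refine ⟨⟨fun i => if i = 0 then n else 0, 0⟩, fun m hm => hn.2 ?_⟩
  rw [Set.Finite.mem_toFinset]
  refine ⟨_, hm, ?_⟩
  rw [h_zpow]
  simp

theorem not_hqc (𝔖 : HHG.{u, v, 0} W3) : ¬ 𝔖.S.HQC (Subgroup.zpowers h : Set W3) :=
  𝔖.not_hqc A_comm h_mem r r_cube conj_mem norm_eq zpow_not_mem exists_coset

end W3

end Pool.Agent.Helper92.CT
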