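import Pool.Agent.Helper92.W3Hyp

set_option autoImplicit false

universe u v w

namespace Pool.Agent.Helper92.CT

namespace W3

/-- Sign. -/
def sg (σ : Bool) : ℝ := if σ then 1 else -1

lemma sg_cases (σ : Bool) : sg σ = 1 ∨ sg σ = -1 := by
  cases σ <;> simp [sg]

/-- The linear sequence going to `± ∞`. -/
def linSeq (σ : Bool) (I : Idx) (hI : I.1.card = 1) : ℕ → Sp I :=
  fun n => ⟨sg σ * n, fun h => absurd hI h⟩

lemma linSeq_gprod (σ : Bool) (b x y : ℝ) :
    min (sg σ * x) (sg σ * y) - |b| ≤ (|b - x| + |b - y| - |x - y|) / 2 := by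
  rcases sg_cases σ with h | h <;> rw [h] <;>
  rcases abs_cases (b - x) with ⟨h1, h1'⟩ | ⟨h1, h1'⟩ <;>
  rcases abs_cases (b - y) with ⟨h2, h2'⟩ | ⟨h2, h2'⟩ <;>
  rcases abs_cases (x - y) with ⟨h3, h3'⟩ | ⟨h3, h3'⟩ <;>
  rcases abs_cases b with ⟨h4, h4'⟩ | ⟨h4, h4'⟩ <;>
  rw [h1, h2, h3, h4, sub_le_iff_le_add, min_le_iff] <;>
  first
  | (left; linarith)
  | (right; linarith)

lemma linSeq_gromov (σ : Bool) (I : Idx) (hI : I.1.card = 1) :
    GromovSeq (fun x y : Sp I => dist x y) (linSeq σ I hI) := by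
  intro b r
  obtain ⟨N, hN⟩ := exists_nat_ge (r + |b.1|)
  refine ⟨N, fun i hi j hj => ?_⟩
  simp only [gprod, Subtype.dist_eq, Real.dist_eq]
  have h1 := linSeq_gprod σ b.1 (linSeq σ I hI i).1 (linSeq σ I hI j).1
  have h2 : sg σ * (linSeq σ I hI i).1 = i := by
    simp only [linSeq]; rcases sg_cases σ with h | h <;> rw [h] <;> ring
  have h3 : sg σ * (linSeq σ I hI j).1 = j := by
    simp only [linSeq]; rcases sg_cases σ with h | h <;> rw [h] <;> ring
  rw [h2, h3] at h1
  have h4 : (N : ℝ) ≤ min (i : ℝ) (j : ℝ) := le_min (by exact_mod_cast hi) (by exact_mod_cast hj)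
  linarith

/-- The end `± ∞` of the line `Sp I`. -/
def endPt (σ : Bool) (I : Idx) (hI : I.1.card = 1) : GBoundary (fun x y : Sp I => dist x y) :=
  Quot.mk _ ⟨linSeq σ I hI, linSeq_gromov σ I hI⟩

/-- Singletons. -/
def sing : Finset Idx := Finset.univ.filter (fun I => I.1.card = 1)

lemma mem_sing {I : Idx} : I ∈ sing ↔ I.1.card = 1 := by simp [sing]

lemma card_sing : sing.card = 3 := by decide

/-- The boundary points `(±∞, ±∞, ±∞)` with equal weights. -/
noncomputable def bp (σ : Bool) : BPoint stdHHS where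
  supp := sing
  orth := by
    intro U hU V hV hne
    have hU' : U.1.card = 1 := mem_sing.mp hU
    have hV' : V.1.card = 1 := mem_sing.mp hV
    obtain ⟨i, hi⟩ := Finset.card_eq_one.mp hU'
    obtain ⟨j, hj⟩ := Finset.card_eq_one.mp hV'
    show Disjoint U.1 V.1
    rw [hi, hj, Finset.disjoint_singleton]
    rintro rfl
    exact hne (Subtype.ext (by rw [hi, hj]))
  coeff := fun I : Idx => if I.1.card = 1 then 1 / 3 else 0
  coeff_pos := by
    intro U hU
    have hU' : U.1.card = 1 := mem_sing.mp hU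
    rw [if_pos hU']; norm_num
  coeff_zero := by
    intro U hU
    have hU' : ¬ U.1.card = 1 := fun h => hU (mem_sing.mpr h)
    rw [if_neg hU']
  coeff_sum := by
    have h1 : ∀ U ∈ sing, (if U.1.card = 1 then (1 / 3 : ℝ) else 0) = 1 / 3 := by
      intro U hU
      rw [if_pos (mem_sing.mp hU)]
    have h2 : ∑ U ∈ sing, (if U.1.card = 1 then (1 / 3 : ℝ) else 0) = 1 := by
      rw [Finset.sum_congr rfl h1, Finset.sum_const, card_sing]
      norm_num
    exact h2
  pt := fun U hU => endPt σ U (mem_sing.mp hU)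

/-- Neighbourhoods of an end of a line contain a half line. -/
lemma exists_halfline (σ : Bool) (I : Idx) (hI : I.1.card = 1)
    (N : Set (GComp (fun x y : Sp I => dist x y)))
    (hN : N ∈ nhds (⟨Sum.inr (endPt σ I hI)⟩ : GComp _)) :
    ∃ R : ℝ, ∀ y : Sp I, R < sg σ * y.1 → ⟨Sum.inl y⟩ ∈ N := by
  obtain ⟨O, hON, hO, hmem⟩ := mem_nhds_iff.mp hN
  obtain ⟨r, hr, _⟩ := hO.2 (endPt σ I hI) hmem (zeroPt I)
  refine ⟨max r 0, fun y hy => hON (hr y ⟨_, rfl, ?_⟩)⟩
  obtain ⟨M, hM⟩ := exists_nat_ge (sg σ * y.1)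
  refine ⟨M, fun i hi => ?_⟩
  simp only [gprod, Subtype.dist_eq, Real.dist_eq]
  have h1 := linSeq_gprod σ 0 (linSeq σ I hI i).1 y.1
  have h2 : sg σ * (linSeq σ I hI i).1 = i := by
    simp only [linSeq]; rcases sg_cases σ with h | h <;> rw [h] <;> ring
  rw [h2, abs_zero, sub_zero] at h1
  have h3 : (M : ℝ) ≤ i := by exact_mod_cast hi
  rw [min_eq_right (by linarith)] at h1
  have h4 := le_max_left r 0
  show r < (|(zeroPt I).1 - (linSeq σ I hI i).1| + |(zeroPt I).1 - y.1| -
    |(linSeq σ I hI i).1 - y.1|) / 2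
  have h5 : (zeroPt I).1 = 0 := rfl
  rw [h5]
  linarith

/-- Interior of basic neighbourhoods. -/
lemma mem_interior (σ : Bool) (N : (U : Idx) → Set (GComp (fun x y : Sp U => dist x y))) (ε : ℝ)
    (hε : 0 < ε) (R : ℝ) (hR0 : 0 ≤ R)
    (hR : ∀ (U : Idx) (_ : U.1.card = 1) (y : Sp U), R < sg σ * y.1 → ⟨Sum.inl y⟩ ∈ N U)
    (x : H) (hx : R < sg σ * ex x) :
    (x : W3) ∈ interiorPart (1 : W3) (bp σ) N ε := by
  have hcoord : ∀ U : Idx, U.1.card = 1 → (pr U (x : W3).v).1 = ex x := by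
    intro U hU
    obtain ⟨i, hi⟩ := Finset.card_eq_one.mp hU
    show ((coord U.1 (x : W3).v : ℤ) : ℝ) = ex x
    rw [coord, if_pos hU, hi, Finset.sum_singleton, ex_v]
  have habs : |(ex x : ℝ)| ≠ 0 := by
    intro h
    rw [abs_eq_zero] at h
    rw [h, mul_zero] at hx
    linarith
  have hsd : ∀ U : Idx, U.1.card = 1 →
      setDist ({pr U (1 : W3).v} : Set (Sp U)) {pr U (x : W3).v} = |(ex x : ℝ)| := by
    intro U hU
    rw [setDist_singleton, Subtype.dist_eq, Real.dist_eq, hcoord U hU]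
    have : (pr U (1 : W3).v).1 = 0 := by
      show ((coord U.1 (1 : W3).v : ℤ) : ℝ) = 0
      simp [coord]
    rw [this, zero_sub, abs_neg]
  refine ⟨?_, ?_, ?_⟩
  · intro U hU z hz
    have hU' : U.1.card = 1 := mem_sing.mp hU
    have hz' : z = pr U (x : W3).v := hz
    apply hR U hU'
    rw [hz', hcoord U hU']
    exact hx
  · intro U hU V hV
    have hU' : U.1.card = 1 := mem_sing.mp hU
    have hV' : V.1.card = 1 := mem_sing.mp hV
    show |(if U.1.card = 1 then (1 / 3 : ℝ) else 0) / (if V.1.card = 1 then (1 / 3 : ℝ) else 0) -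
      setDist ({pr U (1 : W3).v} : Set (Sp U)) {pr U (x : W3).v} /
        setDist ({pr V (1 : W3).v} : Set (Sp V)) {pr V (x : W3).v}| < ε
    rw [if_pos hU', if_pos hV', hsd U hU', hsd V hV', div_self habs, div_self (by norm_num),
      sub_self, abs_zero]
    exact hε
  · intro U _ T hT
    exfalso
    obtain ⟨i, hi⟩ := T.2
    have h1 : Disjoint T.1 {i} :=
      hT ⟨{i}, Finset.singleton_nonempty i⟩ (mem_sing.mpr (Finset.card_singleton i))
    exact Finset.disjoint_singleton_right.mp h1 hi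

/-- Sequences in `H` going to `+ ∞`. -/
def Pos (s : ℕ → H) : Prop := ∃ N : ℕ, ∀ i ≥ N, 0 < ex (s i)

lemma wordNorm_zpow_le' {G : Type w} [Group G] {T : Set G} (hT : Subgroup.closure T = ⊤) (g : G)
    (m : ℤ) : (wordNorm T (g ^ m) : ℝ) ≤ |(m : ℝ)| * wordNorm T g := by
  have hnat : ∀ n : ℕ, wordNorm T (g ^ n) ≤ n * wordNorm T g := by
    intro n
    induction n with
    | zero => rw [pow_zero, wordNorm_one]; simp
    | succ n ih =>
      rw [pow_succ]
      have := wordNorm_mul hT (g ^ n) g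
      rw [add_mul, one_mul]
      omega
  obtain ⟨n, rfl | rfl⟩ := m.eq_nat_or_neg
  · rw [zpow_natCast]
    simp only [Int.cast_natCast, Nat.abs_cast]
    exact_mod_cast hnat n
  · rw [zpow_neg, zpow_natCast, wordNorm_inv hT]
    simp only [Int.cast_neg, Int.cast_natCast, abs_neg, Nat.abs_cast]
    exact_mod_cast hnat n

lemma wordNorm_le_ex {T : Set H} (hT : Subgroup.closure T = ⊤) (x : H) :
    (wordNorm T x : ℝ) ≤ |(ex x : ℝ)| * wordNorm T hgen := by
  have h1 := wordNorm_zpow_le' hT hgen (ex x)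
  rwa [← hgen_zpow x] at h1

lemma cross_prefix {T : Set H} (M : ℤ) (hM : ∀ t : H, (t ∈ T ∨ t⁻¹ ∈ T) → |ex t| ≤ M)
    (l : List H) : ∀ x : H, ex x ≤ 0 → 0 ≤ ex (x * l.prod) → IsW T l →
    ∃ l1 l2 : List H, l = l1 ++ l2 ∧ |ex (x * l1.prod)| ≤ max M 0 := by
  induction l with
  | nil =>
    intro x hx hx' _
    refine ⟨[], [], rfl, ?_⟩
    have e1 : ex (x * ([] : List H).prod) = 0 := by
      simp only [List.prod_nil, mul_one] at hx' ⊢
      omega
    rw [e1, abs_zero]
    exact le_max_right _ _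
  | cons a l ih =>
    intro x hx hx' hw
    have ha : |ex a| ≤ M := hM a (hw a (by simp))
    have ha' := abs_le.mp ha
    by_cases h1 : ex (x * a) ≤ 0
    · obtain ⟨l1, l2, h2, h3⟩ := ih (x * a) h1 (by rwa [List.prod_cons, ← mul_assoc] at hx')
        (fun s hs => hw s (List.mem_cons_of_mem _ hs))
      refine ⟨a :: l1, l2, by rw [h2]; rfl, ?_⟩
      rwa [List.prod_cons, ← mul_assoc]
    · refine ⟨[], a :: l, rfl, ?_⟩
      rw [ex_mul] at h1
      simp only [List.prod_nil, mul_one]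
      apply le_trans _ (le_max_left _ _)
      rw [abs_le]
      constructor
      · omega
      · omega

/-- Points of opposite sign have small Gromov product. -/
lemma exists_cross (T : Finset H) (hT : Subgroup.closure (T : Set H) = ⊤) :
    ∃ C : ℝ, ∀ x y : H, ex x ≤ 0 → 0 ≤ ex y → gprod (wordDist (T : Set H)) 1 x y ≤ C := by
  obtain ⟨M, hM⟩ : ∃ M : ℤ, ∀ t ∈ T, |ex t| ≤ M := by
    obtain ⟨M, hM⟩ := (T.finite_toSet.image (fun t => |ex t|)).bddAbove
    exact ⟨M, fun t ht => hM ⟨t, ht, rfl⟩⟩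
  have hM' : ∀ t : H, (t ∈ (T : Set H) ∨ t⁻¹ ∈ (T : Set H)) → |ex t| ≤ M := by
    intro t ht
    rcases ht with h | h
    · exact hM t h
    · have := hM t⁻¹ h
      rwa [ex_inv, abs_neg] at this
  refine ⟨((max M 0 : ℤ) : ℝ) * wordNorm (T : Set H) hgen, fun x y hx hy => ?_⟩
  obtain ⟨l, h1, h2, h3⟩ := exists_min_word hT (x⁻¹ * y)
  obtain ⟨l1, l2, h4, h5⟩ := cross_prefix M hM' l x hx
    (by rw [h2, mul_inv_cancel_left]; exact hy) h1
  have hl1 : wordDist (T : Set H) x (x * l1.prod) ≤ l1.length := by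
    rw [wordDist_mul_right]
    exact_mod_cast wordNorm_le (fun s hs => h1 s (by rw [h4]; exact List.mem_append_left _ hs)) rfl
  have hl2 : wordDist (T : Set H) (x * l1.prod) y ≤ l2.length := by
    have e1 : y = x * l1.prod * l2.prod := by
      rw [mul_assoc, ← List.prod_append, ← h4, h2, mul_inv_cancel_left]
    rw [e1, wordDist_mul_right]
    exact_mod_cast wordNorm_le (fun s hs => h1 s (by rw [h4]; exact List.mem_append_right _ hs)) rfl
  have hl : wordDist (T : Set H) x y = l1.length + l2.length := by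
    unfold wordDist
    rw [← h3, h4, List.length_append]
    push_cast
    rfl
  have hz : wordDist (T : Set H) 1 (x * l1.prod) ≤
      ((max M 0 : ℤ) : ℝ) * wordNorm (T : Set H) hgen := by
    rw [wordDist_one]
    refine le_trans (wordNorm_le_ex hT _) ?_
    apply mul_le_mul_of_nonneg_right _ (Nat.cast_nonneg _)
    rw [← Int.cast_abs]
    exact_mod_cast h5
  have t1 := wordDist_tri hT 1 (x * l1.prod) x
  have t2 := wordDist_tri hT 1 (x * l1.prod) y
  rw [wordDist_symm hT (x * l1.prod) x] at t1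
  unfold gprod
  linarith

lemma exists_const (T : Finset H) (hT : Subgroup.closure (T : Set H) = ⊤) :
    ∃ C : ℝ, ∀ x y : H, C < gprod (wordDist (T : Set H)) 1 x y →
      (0 < ex x ∧ 0 < ex y) ∨ (ex x < 0 ∧ ex y < 0) := by
  obtain ⟨C, hC⟩ := exists_cross T hT
  refine ⟨C, fun x y hxy => ?_⟩
  by_contra hcon
  push Not at hcon
  have hsymm : gprod (wordDist (T : Set H)) 1 x y = gprod (wordDist (T : Set H)) 1 y x := by
    unfold gprod
    rw [wordDist_symm hT x y]
    ring
  rcases lt_trichotomy (ex x) 0 with hx | hx | hx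
  · have := hC x y hx.le (hcon.2 hx)
    linarith
  · rcases le_total (ex y) 0 with hy | hy
    · have := hC y x hy hx.ge
      linarith
    · have := hC x y hx.le hy
      linarith
  · have := hC y x (hcon.1 hx) hx.le
    linarith

lemma pos_of_near {T : Finset H} (hT : Subgroup.closure (T : Set H) = ⊤) {s t : ℕ → H}
    (h : ∀ r : ℝ, ∃ N : ℕ, ∀ i ≥ N, ∀ j ≥ N, r ≤ gprod (wordDist (T : Set H)) 1 (s i) (t j))
    (hs : Pos s) : Pos t := by
  obtain ⟨C, hC⟩ := exists_const T hT
  obtain ⟨N, hN⟩ := h (C + 1)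
  obtain ⟨M, hM⟩ := hs
  refine ⟨N, fun j hj => ?_⟩
  have h1 := hN (max N M) (le_max_left _ _) j hj
  rcases hC (s (max N M)) (t j) (by linarith) with h2 | h2
  · exact h2.2
  · have := hM (max N M) (le_max_right _ _)
    omega

lemma pos_congr {T : Finset H} (hT : Subgroup.closure (T : Set H) = ⊤) {s t : ℕ → H}
    (h : ∀ r : ℝ, ∃ N : ℕ, ∀ i ≥ N, ∀ j ≥ N, r ≤ gprod (wordDist (T : Set H)) 1 (s i) (t j)) :
    Pos s ↔ Pos t := by
  refine ⟨pos_of_near hT h, pos_of_near hT fun r => ?_⟩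
  obtain ⟨N, hN⟩ := h r
  refine ⟨N, fun i hi j hj => ?_⟩
  have := hN j hj i hi
  unfold gprod at this ⊢
  rw [wordDist_symm hT (t i) (s j)]
  linarith

/-- The sign of a boundary point of `H`. -/
def sgn (T : Finset H) (hT : Subgroup.closure (T : Set H) = ⊤)
    (ξ : GBoundary (wordDist (T : Set H))) : Prop :=
  Quot.lift (fun s => Pos s.1)
    (fun _ _ (h : GromovEquiv _ _ _) => propext (pos_congr hT (h 1))) ξ

open Classical in
/-- The boundary value of the Cannon-Thurston map. -/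
noncomputable def ctVal (T : Finset H) (hT : Subgroup.closure (T : Set H) = ⊤)
    (ξ : GBoundary (wordDist (T : Set H))) : BPoint stdHHS :=
  bp (decide (sgn T hT ξ))

/-- The Cannon-Thurston map. -/
noncomputable def ctMap (T : Finset H) (hT : Subgroup.closure (T : Set H) = ⊤)
    (x : GComp (wordDist (T : Set H))) : HComp stdHHS (1 : W3) :=
  match x with
  | ⟨Sum.inl y⟩ => ⟨Sum.inl (y : W3)⟩
  | ⟨Sum.inr ξ⟩ => ⟨Sum.inr (ctVal T hT ξ)⟩

lemma eventually_neg {T : Finset H} (hT : Subgroup.closure (T : Set H) = ⊤) {s : ℕ → H}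
    (hg : GromovSeq (wordDist (T : Set H)) s) (hs : ¬ Pos s) :
    ∃ N : ℕ, ∀ i ≥ N, ex (s i) < 0 := by
  obtain ⟨C, hC⟩ := exists_const T hT
  obtain ⟨N, hN⟩ := hg 1 (C + 1)
  refine ⟨N, fun i hi => ?_⟩
  by_contra hcon
  apply hs
  refine ⟨N, fun j hj => ?_⟩
  have h1 := hN i hi j hj
  rcases hC (s i) (s j) (by linarith) with h2 | h2
  · exact h2.2
  · exact absurd h2.1 hcon

/-- The sequence `s` eventually has the sign `σ`. -/
def HasSign (σ : Bool) (s : ℕ → H) : Prop := ∃ N : ℕ, ∀ i ≥ N, 0 < sg σ * ex (s i)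

/-- Points near a boundary point have large exponent of the right sign. -/
lemma near_large (T : Finset H) (hT : Subgroup.closure (T : Set H) = ⊤) (σ : Bool) (b : H)
    (R : ℝ) : ∃ r : ℝ, ∀ (s : ℕ → H) (_ : HasSign σ s) (y : H),
      (∃ N : ℕ, ∀ i ≥ N, r < gprod (wordDist (T : Set H)) b (s i) y) → R < sg σ * ex y := by
  obtain ⟨C, hC⟩ := exists_const T hT
  set L : ℝ := ((wordNorm (T : Set H) hgen : ℕ) : ℝ) with hL
  have hL0 : 0 ≤ L := Nat.cast_nonneg _
  refine ⟨max (C + wordDist (T : Set H) 1 b) (L * (max R 0 + |(ex b : ℝ)|)), ?_⟩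
  intro s hs y hy
  obtain ⟨N, hN⟩ := hy
  obtain ⟨N', hN'⟩ := hs
  have h1 := hN (max N N') (le_max_left _ _)
  have h2 := hN' (max N N') (le_max_right _ _)
  set a : H := s (max N N')
  have h3 : C + wordDist (T : Set H) 1 b < gprod (wordDist (T : Set H)) b a y :=
    lt_of_le_of_lt (le_max_left _ _) h1
  have h4 : L * (max R 0 + |(ex b : ℝ)|) < gprod (wordDist (T : Set H)) b a y :=
    lt_of_le_of_lt (le_max_right _ _) h1
  have t1 := wordDist_tri hT b y a
  have t2 := wordDist_tri hT b 1 a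
  have t3 := wordDist_tri hT b 1 y
  rw [wordDist_symm hT b 1] at t2 t3
  rw [wordDist_symm hT y a] at t1
  have h5 : C < gprod (wordDist (T : Set H)) 1 a y := by
    unfold gprod at h3 ⊢
    linarith
  have h6 : gprod (wordDist (T : Set H)) b a y ≤ wordDist (T : Set H) b y := by
    unfold gprod
    linarith
  have h7 : wordDist (T : Set H) b y ≤ L * |(ex y : ℝ) - ex b| := by
    unfold wordDist
    have := wordNorm_le_ex hT (b⁻¹ * y)
    rw [ex_mul, ex_inv] at this
    push_cast at this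
    rw [show -(ex b : ℝ) + ex y = ex y - ex b by ring] at this
    linarith
  have h8 : max R 0 + |(ex b : ℝ)| < |(ex y : ℝ) - ex b| :=
    lt_of_mul_lt_mul_left (by linarith) hL0
  have h9 : max R 0 < |(ex y : ℝ)| := by
    have := abs_sub (ex y : ℝ) (ex b)
    linarith
  have h10 : sg σ * ex y = |(ex y : ℝ)| := by
    rcases hC a y h5 with ⟨h11, h12⟩ | ⟨h11, h12⟩
    · have h11' : (0 : ℝ) < ex a := by exact_mod_cast h11
      have h12' : (0 : ℝ) < ex y := by exact_mod_cast h12
      rcases sg_cases σ with h | h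
      · rw [h, one_mul, abs_of_pos h12']
      · rw [h] at h2; linarith
    · have h11' : (ex a : ℝ) < 0 := by exact_mod_cast h11
      have h12' : (ex y : ℝ) < 0 := by exact_mod_cast h12
      rcases sg_cases σ with h | h
      · rw [h] at h2; linarith
      · rw [h, abs_of_neg h12']; ring
  rw [h10]
  exact lt_of_le_of_lt (le_max_left _ _) h9

/-- The sign of the representing sequences. -/
lemma sign_spec {T : Finset H} (hT : Subgroup.closure (T : Set H) = ⊤) (σ : Bool) {s : ℕ → H}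
    (hg : GromovSeq (wordDist (T : Set H)) s) (hσ : σ = true ↔ Pos s) : HasSign σ s := by
  cases σ with
  | true =>
    obtain ⟨N, hN⟩ := hσ.mp rfl
    refine ⟨N, fun i hi => ?_⟩
    have : (0 : ℝ) < ex (s i) := by exact_mod_cast hN i hi
    simpa [sg] using this
  | false =>
    have hn : ¬ Pos s := fun h => Bool.false_ne_true (hσ.mpr h)
    obtain ⟨N, hN⟩ := eventually_neg hT hg hn
    refine ⟨N, fun i hi => ?_⟩
    have : (ex (s i) : ℝ) < 0 := by exact_mod_cast hN i hi
    simp only [sg, Bool.false_eq_true, if_false]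
    linarith

lemma pos_of_hasSign {σ : Bool} {s : ℕ → H} (h : HasSign σ s) : Pos s ↔ σ = true := by
  obtain ⟨N, hN⟩ := h
  cases σ with
  | true =>
    refine ⟨fun _ => rfl, fun _ => ⟨N, fun i hi => ?_⟩⟩
    have := hN i hi
    simp only [sg, if_true, one_mul] at this
    exact_mod_cast this
  | false =>
    refine ⟨?_, fun h => absurd h Bool.false_ne_true⟩
    rintro ⟨K, hK⟩
    exfalso
    have h1 := hN (max N K) (le_max_left _ _)
    have h2 : (0 : ℝ) < ex (s (max N K)) := by exact_mod_cast hK (max N K) (le_max_right _ _)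
    simp only [sg, Bool.false_eq_true, if_false] at h1
    linarith

theorem ctMap_continuous (T : Finset H) (hT : Subgroup.closure (T : Set H) = ⊤) :
    Continuous (ctMap T hT) := by
  classical
  rw [continuous_def]
  intro O hO
  refine ⟨?_, ?_⟩
  · intro x hx
    refine ⟨1, one_pos, fun y hy => ?_⟩
    unfold wordDist at hy
    have h1 : wordNorm (T : Set H) (x⁻¹ * y) < 1 := by exact_mod_cast hy
    have h2 : x⁻¹ * y = 1 := eq_one_of_wordNorm hT (by omega)
    have h3 : x = y := inv_mul_eq_one.mp h2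
    rw [← h3]; exact hx
  · intro ξ hξ b
    have hξ' : (⟨Sum.inr (ctVal T hT ξ)⟩ : HComp stdHHS (1 : W3)) ∈ O := hξ
    obtain ⟨N, hN, ε, hε, _, _, hint⟩ := hO.2 (ctVal T hT ξ) hξ'
    set σ : Bool := decide (sgn T hT ξ) with hσdef
    -- common threshold
    have hth : ∀ U : Idx, ∃ R : ℝ, ∀ (_ : U.1.card = 1) (y : Sp U), R < sg σ * y.1 →
        (⟨Sum.inl y⟩ : GComp (fun x y : Sp U => dist x y)) ∈ N U := by
      intro U
      by_cases hU : U.1.card = 1
      · obtain ⟨R, hR⟩ := exists_halfline σ U hU (N U) (hN U (mem_sing.mpr hU))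
        exact ⟨R, fun _ => hR⟩
      · exact ⟨0, fun h => absurd h hU⟩
    choose Rf hRf using hth
    obtain ⟨R, hR⟩ := ((Set.finite_univ (α := Idx)).image Rf).bddAbove
    have hR' : ∀ (U : Idx) (_ : U.1.card = 1) (y : Sp U), max R 0 < sg σ * y.1 →
        (⟨Sum.inl y⟩ : GComp (fun x y : Sp U => dist x y)) ∈ N U := by
      intro U hU y hy
      apply hRf U hU y
      exact lt_of_le_of_lt (le_trans (hR ⟨U, trivial, rfl⟩) (le_max_left _ _)) hy
    have hmain : ∀ x : H, max R 0 < sg σ * ex x → (⟨Sum.inl (x : W3)⟩ : HComp stdHHS (1 : W3)) ∈ O :=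
      fun x hx => hint (x : W3) (mem_interior σ N ε hε (max R 0) (le_max_right _ _) hR' x hx)
    have hsign : ∀ s : {s : ℕ → H // GromovSeq (wordDist (T : Set H)) s}, Quot.mk _ s = ξ →
        HasSign σ s.1 := by
      intro s hs
      apply sign_spec hT σ s.2
      rw [hσdef, ← hs, decide_eq_true_iff]
      exact Iff.rfl
    obtain ⟨r, hr⟩ := near_large T hT σ b (max R 0)
    refine ⟨r, ?_, ?_⟩
    · rintro y ⟨s, hs, hnear⟩
      exact hmain y (hr s.1 (hsign s hs) y hnear)
    · rintro η ⟨s, t, hs, ht, M, hM⟩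
      -- the boundary points have the same sign
      have hpos : HasSign σ t.1 := by
        refine ⟨M, fun j hj => ?_⟩
        have h1 := hr s.1 (hsign s hs) (t.1 j) ⟨M, fun i hi => hM i hi j hj⟩
        exact lt_of_le_of_lt (le_max_right R 0) h1
      have hval : ctVal T hT η = ctVal T hT ξ := by
        unfold ctVal
        congr 1
        rw [← ht, ← hs]
        have : Pos t.1 ↔ Pos s.1 := by
          rw [pos_of_hasSign hpos, pos_of_hasSign (hsign s hs)]
        exact decide_eq_decide.mpr this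
      show (⟨Sum.inr (ctVal T hT η)⟩ : HComp stdHHS (1 : W3)) ∈ O
      rw [hval]; exact hξ'

theorem cannonThurston : CannonThurston std H :=
  fun T hT => ⟨ctMap T hT, ctMap_continuous T hT, fun _ => rfl⟩

/-! ### No remote pairs -/

lemma card_of_boundary {U : Idx} (ξ : GBoundary (fun x y : Sp U => dist x y)) : U.1.card = 1 := by
  by_contra hcon
  induction ξ using Quot.ind with
  | mk s =>
    obtain ⟨N, hN⟩ := s.2 (zeroPt U) 1
    have h1 := hN N le_rfl N le_rfl
    have h2 : s.1 N = zeroPt U := sp_eq_of_card hcon _ _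
    rw [h2] at h1
    simp only [gprod, dist_self] at h1
    linarith

/-- There are no remote pairs of boundary points. -/
theorem not_remote (p q : BPoint stdHHS) : ¬ Remote p q := by
  rintro ⟨h1, h2⟩
  have hne : p.supp.Nonempty := by
    rw [Finset.nonempty_iff_ne_empty]
    intro h
    have := p.coeff_sum
    rw [h, Finset.sum_empty] at this
    exact zero_ne_one this
  obtain ⟨U, hU⟩ := hne
  obtain ⟨V, hV, hUV⟩ := h2 U hU
  have hUc : U.1.card = 1 := card_of_boundary (p.pt U hU)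
  have hVc : V.1.card = 1 := card_of_boundary (q.pt V hV)
  obtain ⟨i, hi⟩ := Finset.card_eq_one.mp hUc
  obtain ⟨j, hj⟩ := Finset.card_eq_one.mp hVc
  have hUV' : ¬ Disjoint U.1 V.1 := hUV
  rw [hi, hj, Finset.disjoint_singleton, not_not] at hUV'
  have hEq : U = V := Subtype.ext (by rw [hi, hj, hUV'])
  exact h1 U hU (hEq ▸ hV)

end W3

end Pool.Agent.Helper92.CT
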