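import Pool.Agent.Helper92.W3Struct

set_option autoImplicit false

universe u v w

namespace Pool.Agent.Helper92.CT

namespace W3

/-- The origin of each hyperbolic space. -/
def zeroPt (I : Idx) : Sp I := ⟨0, fun _ => rfl⟩

lemma pr_eq_zero {I : Idx} (h : I.1.card ≠ 1) (x : ZMod 3 → ℤ) : pr I x = zeroPt I :=
  sp_eq_of_card h _ _

lemma setDist_pr_zero {I : Idx} (h : I.1.card ≠ 1) (x : ZMod 3 → ℤ) :
    setDist ({pr I x} : Set (Sp I)) {zeroPt I} = 0 := by
  rw [pr_eq_zero h, setDist_singleton, dist_self]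

lemma dist_pr (I : Idx) (x y : ZMod 3 → ℤ) :
    dist (pr I x) (pr I y) = |(coord I.1 x : ℝ) - coord I.1 y| := by
  rw [Subtype.dist_eq, Real.dist_eq]; rfl

lemma card_idx_le (F : Finset Idx) (hF : ∀ U ∈ F, ∀ V ∈ F, U.1 ⊆ V.1 ∨ V.1 ⊆ U.1) :
    F.card ≤ 3 := by
  have h1 : F.card ≤ (Finset.Icc 1 3).card := by
    apply Finset.card_le_card_of_injOn (fun I : Idx => I.1.card)
    · intro I _
      simp only [Finset.coe_Icc, Set.mem_Icc]
      refine ⟨Finset.card_pos.mpr I.2, ?_⟩
      have := Finset.card_le_univ I.1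
      simpa using this
    · intro U hU V hV h
      have h' : U.1.card = V.1.card := h
      apply Subtype.ext
      rcases hF U hU V hV with h2 | h2
      · exact Finset.eq_of_subset_of_card_le h2 h'.ge
      · exact (Finset.eq_of_subset_of_card_le h2 h'.le).symm
  simpa using h1

/-- The standard hierarchically hyperbolic structure on `ℤ³ ⋊ C₃`. -/
noncomputable def stdHHS : HHS.{0, 0, 0} W3 (wordDist (gens : Set W3)) where
  ι := Idx
  C := Sp
  metric := fun I => inferInstance
  geodesic := geodesic_sp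
  δ := 0
  hyp := hyp_sp
  π := fun I x => {pr I x.v}
  ξ := 0
  K := 1
  π_nonempty := fun I x => Set.singleton_nonempty _
  π_diam := by
    rintro I x _ rfl _ rfl
    rw [dist_self]
  π_lip := by
    intro I x y
    rw [setDist_singleton, dist_pr]
    have := coord_lip I x y
    linarith
  π_quasiconvex := by
    intro I γ L _ _ _ t _
    by_cases hI : I.1.card = 1
    · refine ⟨pr I (fun _ => ⌊(γ t).1⌋), ?_, ?_⟩
      · simp only [Set.mem_iUnion]
        exact ⟨⟨fun _ => ⌊(γ t).1⌋, 0⟩, rfl⟩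
      · rw [Subtype.dist_eq, Real.dist_eq]
        have : (pr I (fun _ => ⌊(γ t).1⌋)).1 = (⌊(γ t).1⌋ : ℝ) := by
          simp only [pr, coord, if_pos hI]
          simp [hI]
        rw [this, abs_of_nonneg (by linarith [Int.floor_le (γ t).1])]
        linarith [Int.lt_floor_add_one (γ t).1]
    · refine ⟨pr I (fun _ => 0), ?_, ?_⟩
      · simp only [Set.mem_iUnion]
        exact ⟨⟨fun _ => 0, 0⟩, rfl⟩
      · rw [sp_eq_of_card hI (γ t) (pr I fun _ => 0), dist_self]
        exact zero_le_one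
  nest := fun I J => I.1 ⊆ J.1
  nest_refl := fun I => Finset.Subset.refl _
  nest_trans := fun I J L h h' => h.trans h'
  nest_antisymm := fun I J h h' => Subtype.ext (Finset.Subset.antisymm h h')
  nest_top := Or.inr ⟨⟨Finset.univ, Finset.univ_nonempty⟩, fun I => Finset.subset_univ _⟩
  orth := fun I J => Disjoint I.1 J.1
  orth_symm := fun I J h => h.symm
  orth_irrefl := by
    intro I h
    rw [disjoint_self] at h
    exact I.2.ne_empty h
  orth_nest := fun U V W h h' => h'.mono_left h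
  orth_container := by
    rintro T U hUT ⟨V, hVT, hVU⟩
    have hne : (T.1 \ U.1).Nonempty := by
      obtain ⟨a, ha⟩ := V.2
      exact ⟨a, Finset.mem_sdiff.mpr ⟨hVT ha, Finset.disjoint_left.mp hVU ha⟩⟩
    refine ⟨⟨T.1 \ U.1, hne⟩, Finset.sdiff_subset, ?_, ?_⟩
    · intro h
      obtain ⟨a, ha⟩ := U.2
      have h1 : a ∈ T.1 \ U.1 := by
        have := congrArg Subtype.val h
        simp only at this
        rw [this]; exact hUT ha
      exact (Finset.mem_sdiff.mp h1).2 ha
    · intro V' hV' hVT' a ha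
      exact Finset.mem_sdiff.mpr ⟨hVT' ha, Finset.disjoint_left.mp hV' ha⟩
  orth_not_nest := by
    intro V W h
    constructor
    · intro h'
      obtain ⟨a, ha⟩ := V.2
      exact Finset.disjoint_left.mp h ha (h' ha)
    · intro h'
      obtain ⟨a, ha⟩ := W.2
      exact Finset.disjoint_left.mp h (h' ha) ha
  ρ := fun V W => {zeroPt W}
  ρmap := fun W V p => Set.univ
  ρ_nonempty := fun V W _ _ _ => Set.singleton_nonempty _
  ρ_diam := by
    rintro V W _ _ _ _ rfl _ rfl
    rw [dist_self]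
  ρmap_nonempty := fun V W _ _ p => ⟨zeroPt V, trivial⟩
  κ₀ := 0
  consistent_trans := by
    intro V W h1 h2 h3 x
    left
    exact (setDist_pr_zero (card_ne_of_trans h1 h3) x.v).le
  consistent_nest := by
    intro V W h1 h2 x
    left
    exact (setDist_pr_zero (card_ne_of_ssub h1 h2) x.v).le
  consistent_ρ := by
    intro U V W _ _
    rw [setDist_singleton, dist_self]
  n := 3
  complexity := card_idx_le
  lam := 7
  E := 1
  one_le_lam := by norm_num
  ξ_le_E := by norm_num
  κ₀_le_E := by norm_num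
  large_links := by
    intro W x x'
    have hnn : 0 ≤ setDist ({pr W x.v} : Set (Sp W)) {pr W x'.v} := setDist_nonneg
    refine ⟨Finset.univ.filter (fun T : Idx => T.1 ⊆ W.1 ∧ T ≠ W), ?_, ?_, ?_⟩
    · have h1 : (Finset.univ.filter (fun T : Idx => T.1 ⊆ W.1 ∧ T ≠ W)).card ≤ 7 := by
        refine le_trans (Finset.card_filter_le _ _) ?_
        have : (Finset.univ : Finset Idx).card = 7 := by decide
        omega
      have h2 : ((Finset.univ.filter (fun T : Idx => T.1 ⊆ W.1 ∧ T ≠ W)).card : ℝ) ≤ 7 := by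
        exact_mod_cast h1
      linarith
    · intro T hT
      rw [Finset.mem_filter] at hT
      refine ⟨hT.2.1, hT.2.2, ?_⟩
      rw [setDist_pr_zero (card_ne_of_ssub hT.2.1 hT.2.2)]
      linarith
    · intro T h1 h2
      left
      exact ⟨T, Finset.mem_filter.mpr ⟨Finset.mem_univ _, h1, h2⟩, Finset.Subset.refl _⟩
  E' := 0
  bgi := by
    intro W V h1 h2 γ L hγ
    right
    refine ⟨0, ⟨le_refl _, hγ.1⟩, zeroPt W, rfl, ?_⟩
    rw [sp_eq_of_card (card_ne_of_ssub h1 h2) (γ 0) (zeroPt W), dist_self]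
  α := 0
  realization := by
    intro F p _ hp
    have hch : ∀ U : Idx, ∃ g : W3, U ∈ F → p U = pr U g.v := by
      intro U
      by_cases hU : U ∈ F
      · obtain ⟨g, hg⟩ := Set.mem_iUnion.mp (hp U hU)
        exact ⟨g, fun _ => hg⟩
      · exact ⟨1, fun h => absurd h hU⟩
    choose f hf using hch
    refine ⟨⟨fun i => (f ⟨{i}, Finset.singleton_nonempty i⟩).v i, 0⟩, ?_, ?_, ?_⟩
    · intro U hU
      rw [setDist_singleton]
      by_cases hc : U.1.card = 1
      · obtain ⟨i, hi⟩ := Finset.card_eq_one.mp hc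
        have hU' : U = ⟨{i}, Finset.singleton_nonempty i⟩ := Subtype.ext hi
        have h1 := hf U hU
        rw [h1, dist_pr, hU']
        simp [coord]
      · exact (dist_eq_zero.mpr (sp_eq_of_card hc _ _)).le
    · intro U _ V h1 h2
      exact (setDist_pr_zero (card_ne_of_ssub h1 h2) _).le
    · intro U _ V h1 h2 h3
      exact (setDist_pr_zero (card_ne_of_trans h1 h3) _).le
  uniqueness := by
    intro κ hκ
    refine ⟨3 * κ + 3, fun x y hxy => ?_⟩
    by_contra hcon
    push Not at hcon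
    have hi : ∀ i : ZMod 3, |(x.v i : ℝ) - y.v i| < κ := by
      intro i
      have := hcon ⟨{i}, Finset.singleton_nonempty i⟩
      rw [setDist_singleton, dist_pr] at this
      simpa [coord] using this
    have h1 := wordNorm_le_sum (x⁻¹ * y)
    have h2 : ∀ i : ZMod 3, |((x⁻¹ * y).v i : ℝ)| < κ := by
      intro i
      have e1 : (x⁻¹ * y).v i = y.v (i + x.k) - x.v (i + x.k) := by
        simp only [mul_v, inv_v, inv_k, sub_neg_eq_add]; ring
      rw [e1]
      push_cast
      rw [abs_sub_comm]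
      exact hi _
    have h3 := h2 0
    have h4 := h2 1
    have h5 := h2 2
    unfold wordDist at hxy
    linarith

lemma sigma_ext {I J : Idx} (h : I = J) (x : Sp I) (y : Sp J) (hxy : x.1 = y.1) :
    (⟨I, x⟩ : Σ U, Sp U) = ⟨J, y⟩ := by
  subst h
  congr 1
  exact Subtype.ext hxy

/-- The isometries between the hyperbolic spaces. -/
def isoMap (g : W3) (I : Idx) (x : Sp I) : Sp (shift g.k I) :=
  ⟨x.1 + coord (shift g.k I).1 g.v, fun h => by
    have h' : I.1.card ≠ 1 := by rwa [card_shift] at h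
    rw [x.2 h', coord_of_ne h]; simp⟩

lemma shift_shift (k l : ZMod 3) (I : Idx) : shift k (shift l I) = shift (k + l) I := by
  apply Subtype.ext
  ext i
  rw [mem_shift, mem_shift, mem_shift, sub_sub]

lemma shift_zero (I : Idx) : shift 0 I = I := by
  apply Subtype.ext
  ext i
  rw [mem_shift, sub_zero]

lemma shift_subset (k : ZMod 3) (I J : Idx) : (shift k I).1 ⊆ (shift k J).1 ↔ I.1 ⊆ J.1 :=
  Finset.map_subset_map

lemma shift_disjoint (k : ZMod 3) (I J : Idx) :
    Disjoint (shift k I).1 (shift k J).1 ↔ Disjoint I.1 J.1 := Finset.disjoint_map _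

lemma isoMap_surj (g : W3) (I : Idx) : Function.Surjective (isoMap g I) := by
  intro y
  refine ⟨⟨y.1 - coord (shift g.k I).1 g.v, fun h => ?_⟩, ?_⟩
  · have h' : (shift g.k I).1.card ≠ 1 := by rwa [card_shift]
    rw [y.2 h', coord_of_ne h']; simp
  · apply Subtype.ext
    simp [isoMap]

lemma std_mul_smul (g h : W3) (I : Idx) : shift (g * h).k I = shift g.k (shift h.k I) := by
  rw [mul_k, shift_shift]

lemma std_iso_dist (g : W3) (I : Idx) (p q : Sp I) :
    dist (isoMap g I p) (isoMap g I q) = dist p q := by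
  rw [Subtype.dist_eq, Subtype.dist_eq]
  simp [isoMap]

lemma std_iso_one (I : Idx) (p : Sp I) :
    (⟨shift (1 : W3).k I, isoMap 1 I p⟩ : Σ U, Sp U) = ⟨I, p⟩ := by
  apply sigma_ext (shift_zero I)
  simp [isoMap, coord]

lemma std_iso_mul (g h : W3) (I : Idx) (p : Sp I) :
    (⟨shift (g * h).k I, isoMap (g * h) I p⟩ : Σ U, Sp U) =
      ⟨shift g.k (shift h.k I), isoMap g (shift h.k I) (isoMap h I p)⟩ := by
  apply sigma_ext (std_mul_smul g h I)
  show p.1 + (coord (shift (g * h).k I).1 (g * h).v : ℝ) =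
    p.1 + coord (shift h.k I).1 h.v + coord (shift g.k (shift h.k I)).1 g.v
  have h1 := coord_mul (shift h.k I) g h
  have h2 : (g * h).v = fun i => g.v i + h.v (i - g.k) := rfl
  have h3 : coord (shift g.k (shift h.k I)).1 (g * h).v =
      coord (shift g.k (shift h.k I)).1 g.v + coord (shift h.k I).1 h.v := by
    rw [← coord_shift g.k (shift h.k I) h.v, ← coord_add, h2]
  rw [std_mul_smul, h3]
  push_cast
  ring

lemma std_π_equiv (g : W3) (I : Idx) (x : W3) (p : Sp I) (hp : p ∈ ({pr I x.v} : Set (Sp I)))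
    (q : Sp (shift g.k I)) (hq : q ∈ ({pr (shift g.k I) (g * x).v} : Set (Sp (shift g.k I)))) :
    dist (isoMap g I p) q ≤ 0 := by
  rw [Set.mem_singleton_iff] at hp hq
  rw [hp, hq, Subtype.dist_eq, Real.dist_eq]
  show |(coord I.1 x.v : ℝ) + coord (shift g.k I).1 g.v - coord (shift g.k I).1 (g * x).v| ≤ 0
  rw [coord_mul]
  push_cast
  rw [show (coord I.1 x.v : ℝ) + coord (shift g.k I).1 g.v -
    (coord (shift g.k I).1 g.v + coord I.1 x.v) = 0 by ring, abs_zero]

lemma std_ρ_equiv (g : W3) (V W : Idx) (_ : V ≠ W) (h2 : ¬ Disjoint V.1 W.1)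
    (h3 : ¬ W.1 ⊆ V.1) (p : Sp W) (_ : p ∈ ({zeroPt W} : Set (Sp W)))
    (q : Sp (shift g.k W)) (_ : q ∈ ({zeroPt (shift g.k W)} : Set (Sp (shift g.k W)))) :
    dist (isoMap g W p) q ≤ 0 := by
  have hc : W.1.card ≠ 1 := card_ne_of_trans h2 h3
  have hc' : (shift g.k W).1.card ≠ 1 := by rwa [card_shift]
  exact (dist_eq_zero.mpr (sp_eq_of_card hc' _ _)).le

lemma std_ρmap_equiv (g : W3) (V W : Idx) (_ : V.1 ⊆ W.1) (_ : V ≠ W) (_ : Sp W) :
    (∀ q ∈ (Set.univ : Set (Sp V)), ∃ q' ∈ (Set.univ : Set (Sp (shift g.k V))),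
      dist (isoMap g V q) q' ≤ 0) ∧
    (∀ q' ∈ (Set.univ : Set (Sp (shift g.k V))), ∃ q ∈ (Set.univ : Set (Sp V)),
      dist (isoMap g V q) q' ≤ 0) := by
  constructor
  · intro q _
    exact ⟨isoMap g V q, trivial, (dist_self _).le⟩
  · intro q' _
    obtain ⟨q, hq⟩ := isoMap_surj g V q'
    exact ⟨q, trivial, by rw [← hq]; exact (dist_self _).le⟩

/-- The standard hierarchically hyperbolic group structure on `ℤ³ ⋊ C₃`. -/
noncomputable def std : HHG.{0, 0, 0} W3 where
  T := gens
  closure_T := closure_gens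
  S := stdHHS
  smul := fun g I => shift g.k I
  one_smul := shift_zero
  mul_smul := std_mul_smul
  nest_smul := fun g I J => shift_subset g.k I J
  orth_smul := fun g I J => shift_disjoint g.k I J
  cofinite := ⟨(Finset.univ : Finset Idx), fun U => ⟨1, U, Finset.mem_univ (α := Idx) _, shift_zero U⟩⟩
  iso := isoMap
  iso_dist := std_iso_dist
  iso_surj := isoMap_surj
  iso_one := std_iso_one
  iso_mul := std_iso_mul
  c := 0
  π_equiv := std_π_equiv
  ρ_equiv := std_ρ_equiv
  ρmap_equiv := std_ρmap_equiv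

end W3

end Pool.Agent.Helper92.CT
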