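import Pool.Agent.Helper92.W3HHG

set_option autoImplicit false

universe u v w

namespace Pool.Agent.Helper92.CT

/-! ### Groups with a large abelian subgroup of finite index are not hyperbolic -/

lemma exists_mid {G : Type w} [Group G] {T : Set G} (hT : Subgroup.closure T = ⊤) (x y : G) :
    ∃ z, |wordDist T x z - wordDist T x y / 2| ≤ 1 ∧ |wordDist T z y - wordDist T x y / 2| ≤ 1 := by
  obtain ⟨l, h1, h2, h3⟩ := exists_min_word hT (x⁻¹ * y)
  set n := wordNorm T (x⁻¹ * y) with hn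
  refine ⟨x * (l.take (n / 2)).prod, ?_⟩
  have e1 : wordNorm T (l.take (n / 2)).prod ≤ n / 2 := by
    have := wordNorm_le (T := T) (l := l.take (n / 2))
      (fun s hs => h1 s (List.mem_of_mem_take hs)) rfl
    rw [List.length_take] at this
    omega
  have e2 : wordNorm T (l.drop (n / 2)).prod ≤ n - n / 2 := by
    have := wordNorm_le (T := T) (l := l.drop (n / 2))
      (fun s hs => h1 s (List.mem_of_mem_drop hs)) rfl
    rw [List.length_drop] at this
    omega
  have e3 : (l.take (n / 2)).prod * (l.drop (n / 2)).prod = x⁻¹ * y := by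
    rw [List.prod_take_mul_prod_drop, h2]
  have e4 := wordNorm_mul hT (l.take (n / 2)).prod (l.drop (n / 2)).prod
  rw [e3, ← hn] at e4
  have e5 : wordDist T x (x * (l.take (n / 2)).prod) = wordNorm T (l.take (n / 2)).prod :=
    wordDist_mul_right _ _
  have e6 : wordDist T (x * (l.take (n / 2)).prod) y = wordNorm T (l.drop (n / 2)).prod := by
    unfold wordDist
    congr 2
    rw [mul_inv_rev, mul_assoc, ← e3, inv_mul_cancel_left]
  have e7 : wordDist T x y = n := rfl
  rw [e5, e6, e7]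
  have f1 : (wordNorm T (l.take (n / 2)).prod : ℝ) ≤ ((n / 2 : ℕ) : ℝ) := by exact_mod_cast e1
  have f2 : (wordNorm T (l.drop (n / 2)).prod : ℝ) + ((n / 2 : ℕ) : ℝ) ≤ n := by
    have : wordNorm T (l.drop (n / 2)).prod + n / 2 ≤ n := by omega
    exact_mod_cast this
  have f3 : (n : ℝ) ≤ wordNorm T (l.take (n / 2)).prod + wordNorm T (l.drop (n / 2)).prod := by
    exact_mod_cast e4
  have f4 : ((n / 2 : ℕ) : ℝ) ≤ (n : ℝ) / 2 := Nat.cast_div_le
  have f5 : (n : ℝ) / 2 ≤ ((n / 2 : ℕ) : ℝ) + 1 := by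
    have : n ≤ 2 * (n / 2) + 2 := by omega
    have h : (n : ℝ) ≤ 2 * ((n / 2 : ℕ) : ℝ) + 2 := by exact_mod_cast this
    linarith
  constructor
  · rw [abs_le]; constructor <;> linarith
  · rw [abs_le]; constructor <;> linarith

theorem not_hyperbolic_of {G : Type w} [Group G] (A : Subgroup G) [A.FiniteIndex]
    (hcomm : ∀ a ∈ A, ∀ b ∈ A, a * b = b * a)
    (hno : ∀ g ∈ A, ∀ F : Set G, F.Finite → ∃ b ∈ A, ∀ m : ℤ, (g ^ m)⁻¹ * b ∉ F) :
    ¬ IsHyperbolicGroup G := by
  rintro ⟨T, hT, δ, hδ⟩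
  obtain ⟨F, hF, hcov⟩ := PF.exists_reps A
  obtain ⟨m, hm⟩ := (hF.image (fun t => (wordNorm (T : Set G) t : ℝ))).bddAbove
  have hinv : ∀ b ∈ A, ∀ x y : G,
      |wordDist (T : Set G) (b * x) (b * y) - wordDist (T : Set G) x y| ≤ 0 := by
    intro b _ x y
    rw [wordDist_mul_left, sub_self, abs_zero]
  have hd : Disp (wordDist (T : Set G)) A δ 1 0 (2 * m) := by
    refine ⟨wordDist_self, wordDist_symm hT, wordDist_tri hT, hδ, exists_mid hT, hcomm, hinv, ?_⟩
    intro a ha x
    obtain ⟨b, hb, t, ht, rfl⟩ := hcov x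
    have e : a * (b * t) = b * (a * t) := by
      rw [← mul_assoc, hcomm a ha b hb, mul_assoc]
    rw [e, wordDist_mul_left]
    have h1 : (wordNorm (T : Set G) t : ℝ) ≤ m := hm ⟨t, ht, rfl⟩
    have h2 : wordDist (T : Set G) 1 t = wordNorm (T : Set G) t := wordDist_one t
    have h3 : wordDist (T : Set G) a (a * t) = wordNorm (T : Set G) t := wordDist_mul_right a t
    have t1 := wordDist_tri hT t 1 (a * t)
    have t2 := wordDist_tri hT 1 a (a * t)
    have t3 := wordDist_tri hT 1 t a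
    have t4 := wordDist_tri hT t (a * t) a
    rw [wordDist_symm hT t 1] at t1
    rw [wordDist_symm hT (a * t) a] at t4
    rw [abs_le]
    constructor <;> linarith
  obtain ⟨n, hn⟩ := exists_nat_ge (Disp.cB δ 1 0 (2 * m))
  obtain ⟨g, hg, hg'⟩ := hno 1 A.one_mem _ (finite_ball (T := (T : Set G)) T.finite_toSet hT n)
  have hl : Disp.cB δ 1 0 (2 * m) < wordDist (T : Set G) 1 g := by
    have h1 := hg' 0
    rw [zpow_zero, inv_one, one_mul] at h1
    have h2 : n < wordNorm (T : Set G) g := not_le.mp h1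
    rw [wordDist_one]
    have h3 : (n : ℝ) < wordNorm (T : Set G) g := by exact_mod_cast h2
    linarith
  obtain ⟨n', hn'⟩ := exists_nat_ge
    (wordDist (T : Set G) 1 g + Disp.cB δ 1 0 (2 * m) + 2 * 0)
  obtain ⟨b, hb, hb'⟩ := hno g hg _ (finite_ball (T := (T : Set G)) T.finite_toSet hT n')
  obtain ⟨k, hk⟩ := hd.dense hg hl hb
  apply hb' k
  show wordNorm (T : Set G) ((g ^ k)⁻¹ * b) ≤ n'
  have : ((wordNorm (T : Set G) ((g ^ k)⁻¹ * b) : ℕ) : ℝ) ≤ n' := le_trans hk hn'
  exact_mod_cast this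

namespace W3

lemma pow_v {g : W3} (hg : g ∈ A) (m : ℤ) (i : ZMod 3) : (g ^ m).v i = m * g.v i := by
  rw [mem_A] at hg
  have hn : ∀ n : ℕ, (g ^ n).v i = n * g.v i ∧ (g ^ n).k = 0 := by
    intro n
    induction n with
    | zero => simp
    | succ n ih =>
      rw [pow_succ]
      refine ⟨?_, by simp [ih.2, hg]⟩
      rw [mul_v, ih.1, ih.2, sub_zero]
      push_cast
      ring
  obtain ⟨n, rfl | rfl⟩ := m.eq_nat_or_neg
  · rw [zpow_natCast]; exact (hn n).1
  · rw [zpow_neg, zpow_natCast, inv_v, (hn n).2, add_zero, (hn n).1]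
    push_cast
    ring

lemma inv_mul_v {g b : W3} (hg : g ∈ A) (m : ℤ) (i : ZMod 3) :
    ((g ^ m)⁻¹ * b).v i = b.v i - m * g.v i := by
  have hk : (g ^ m).k = 0 := A.zpow_mem hg m
  rw [mul_v, inv_v, inv_k, hk, neg_zero, add_zero, sub_zero, pow_v hg]
  ring

theorem not_hyperbolic : ¬ IsHyperbolicGroup W3 := by
  apply not_hyperbolic_of A A_comm
  intro g hg F hF
  by_cases h1 : g.v 1 = 0
  · obtain ⟨n, hn⟩ := (Set.infinite_univ (α := ℤ)).exists_notMem_finset
      (hF.image (fun x : W3 => x.v 1)).toFinset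
    refine ⟨⟨fun _ => n, 0⟩, rfl, fun m hm => hn.2 ?_⟩
    rw [Set.Finite.mem_toFinset]
    refine ⟨_, hm, ?_⟩
    show ((g ^ m)⁻¹ * (⟨fun _ => n, 0⟩ : W3)).v 1 = n
    rw [inv_mul_v hg, h1]
    simp
  · have hinj : Function.Injective (fun n : ℤ => g.v 1 * n) := by
      intro a b hab
      exact mul_left_cancel₀ h1 hab
    have hinf : (Set.range (fun n : ℤ => g.v 1 * n)).Infinite :=
      Set.infinite_range_of_injective hinj
    obtain ⟨y, ⟨n, rfl⟩, hn⟩ := hinf.exists_notMem_finset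
      (hF.image (fun x : W3 => g.v 1 * x.v 0 - g.v 0 * x.v 1)).toFinset
    refine ⟨⟨fun i => if i = 0 then n else 0, 0⟩, rfl, fun m hm => hn ?_⟩
    rw [Set.Finite.mem_toFinset]
    refine ⟨_, hm, ?_⟩
    show g.v 1 * ((g ^ m)⁻¹ * (⟨fun i => if i = 0 then n else 0, 0⟩ : W3)).v 0 -
      g.v 0 * ((g ^ m)⁻¹ * (⟨fun i => if i = 0 then n else 0, 0⟩ : W3)).v 1 = g.v 1 * n
    rw [inv_mul_v hg, inv_mul_v hg]
    simp only [if_pos, if_neg z10]
    ring

/-- The central subgroup. -/
abbrev H : Subgroup W3 := Subgroup.zpowers h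

lemma H_normal : H.Normal := by
  constructor
  intro n hn g
  obtain ⟨m, rfl⟩ := Subgroup.mem_zpowers_iff.mp hn
  rw [Subgroup.mem_zpowers_iff]
  refine ⟨m, ?_⟩
  rw [h_zpow]
  ext i
  · simp only [mul_v, inv_v, mul_k]
    have : i - (g.k + 0) + g.k = i := by ring
    rw [this]; ring
  · simp

lemma H_infinite : Infinite H := by
  have hinj : Function.Injective (fun m : ℤ => (⟨h ^ m, Subgroup.zpow_mem_zpowers h m⟩ : H)) := by
    intro m n hmn
    have := congrArg (fun g : H => (g : W3).v 0) hmn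
    simpa [h_zpow] using this
  exact Infinite.of_injective _ hinj

lemma H_index : H.index = 0 := by
  by_contra hcon
  have : H.FiniteIndex := ⟨hcon⟩
  obtain ⟨F, hF, hcov⟩ := PF.exists_reps H
  obtain ⟨x, hx⟩ := exists_coset F hF
  obtain ⟨b, hb, t, ht, rfl⟩ := hcov x
  obtain ⟨m, rfl⟩ := Subgroup.mem_zpowers_iff.mp hb
  apply hx m
  rwa [inv_mul_cancel_left]

/-- Exponent. -/
def ex (x : H) : ℤ := (x : W3).v 0

lemma ex_zpow (x : H) : (x : W3) = h ^ ex x := by
  obtain ⟨m, hm⟩ := Subgroup.mem_zpowers_iff.mp x.2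
  unfold ex
  rw [← hm, h_zpow]
  show _ = h ^ m
  rw [h_zpow]

lemma ex_v (x : H) (i : ZMod 3) : (x : W3).v i = ex x := by
  conv_lhs => rw [ex_zpow x, h_zpow]

lemma ex_k (x : H) : (x : W3).k = 0 := by
  rw [ex_zpow x, h_zpow]

lemma ex_mul (x y : H) : ex (x * y) = ex x + ex y := by
  show ((x : W3) * (y : W3)).v 0 = _
  rw [mul_v, ex_k, sub_zero]; rfl

lemma ex_inv (x : H) : ex x⁻¹ = - ex x := by
  show ((x : W3)⁻¹).v 0 = _
  rw [inv_v, ex_k, add_zero]; rfl

lemma ex_one : ex 1 = 0 := rfl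

/-- Generator of `H`. -/
def hgen : H := ⟨h, Subgroup.mem_zpowers h⟩

/-- The generating set of `H`. -/
def TH : Finset H := {hgen}

lemma ex_hgen : ex hgen = 1 := rfl

lemma hgen_zpow (x : H) : x = hgen ^ ex x := by
  apply Subtype.ext
  rw [ex_zpow x]
  simp [hgen]

lemma closure_TH : Subgroup.closure (TH : Set H) = ⊤ := by
  rw [eq_top_iff]
  intro x _
  rw [hgen_zpow x]
  exact zpow_mem (Subgroup.subset_closure (by simp [TH])) _

lemma wordNorm_TH (x : H) : (wordNorm (TH : Set H) x : ℝ) = |(ex x : ℝ)| := by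
  apply le_antisymm
  · have h1 := wordNorm_zpow_le (T := (TH : Set H)) (s := hgen) (by simp [TH]) (ex x)
    rw [← hgen_zpow] at h1
    have e0 : |(ex x : ℝ)| = ((ex x).natAbs : ℝ) := by
      rw [← Int.cast_abs, ← Int.natCast_natAbs]; simp
    rw [e0]
    exact_mod_cast h1
  · have hb : ∀ s : H, (s ∈ (TH : Set H) ∨ s⁻¹ ∈ (TH : Set H)) → ex s = 1 ∨ ex s = -1 := by
      intro s hs
      rcases hs with hs | hs
      · left
        have : s = hgen := by simpa [TH] using hs
        rw [this]; rfl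
      · right
        have : s⁻¹ = hgen := by simpa [TH] using hs
        have h2 := ex_inv s⁻¹
        rw [inv_inv, this] at h2
        rw [h2]; rfl
    have h1 := le_wordNorm closure_TH (fun x : H => (ex x : ℝ)) 1 (by simp [ex_one]) (by
      intro g s hs
      simp only [ex_mul]
      rcases hb s hs with h | h <;> rw [h] <;> push_cast <;> linarith) x
    have h2 := le_wordNorm closure_TH (fun x : H => -(ex x : ℝ)) 1 (by simp [ex_one]) (by
      intro g s hs
      simp only [ex_mul]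
      rcases hb s hs with h | h <;> rw [h] <;> push_cast <;> linarith) x
    rw [abs_le']
    constructor
    · simpa using h1
    · simpa using h2

lemma wordDist_TH (x y : H) : wordDist (TH : Set H) x y = |(ex x : ℝ) - ex y| := by
  unfold wordDist
  rw [wordNorm_TH, ex_mul, ex_inv, abs_sub_comm]
  push_cast
  congr 1
  ring

lemma H_hyperbolic : IsHyperbolicGroup H := by
  refine ⟨TH, closure_TH, 0, ?_⟩
  intro b x y z
  simp only [gprod, wordDist_TH]
  exact hyp_real _ _ _ _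

end W3

end Pool.Agent.Helper92.CT
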