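import Pool.Agent.Helper92.W3

set_option autoImplicit false

universe u v w

namespace Pool.Agent.Helper92.CT

namespace W3

/-- The coordinate of the vector `x` on `I` : `x i` if `I = {i}`, and `0` if `I` is not a
singleton. -/
def coord (I : Finset (ZMod 3)) (x : ZMod 3 → ℤ) : ℤ := if I.card = 1 then ∑ i ∈ I, x i else 0

/-- The index set: nonempty subsets of `ZMod 3`. -/
abbrev Idx : Type := {I : Finset (ZMod 3) // I.Nonempty}

/-- The hyperbolic spaces: a line for a singleton, a point otherwise. -/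
abbrev Sp (I : Idx) : Type := {x : ℝ // I.1.card ≠ 1 → x = 0}

lemma coord_of_ne {I : Finset (ZMod 3)} (h : I.card ≠ 1) (x : ZMod 3 → ℤ) : coord I x = 0 := by
  rw [coord, if_neg h]

/-- The projection point. -/
def pr (I : Idx) (x : ZMod 3 → ℤ) : Sp I :=
  ⟨(coord I.1 x : ℝ), fun h => by rw [coord_of_ne h]; simp⟩

/-- Translation of an index. -/
def shift (k : ZMod 3) (I : Idx) : Idx :=
  ⟨I.1.map (Equiv.addRight k).toEmbedding, I.2.map⟩

lemma mem_shift {k : ZMod 3} {I : Idx} {i : ZMod 3} : i ∈ (shift k I).1 ↔ i - k ∈ I.1 := by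
  simp only [shift, Finset.mem_map, Equiv.coe_toEmbedding, Equiv.coe_addRight]
  constructor
  · rintro ⟨j, hj, rfl⟩; simpa using hj
  · intro h; exact ⟨i - k, h, by ring⟩

lemma card_shift (k : ZMod 3) (I : Idx) : (shift k I).1.card = I.1.card := by
  simp [shift]

lemma coord_shift (k : ZMod 3) (I : Idx) (x : ZMod 3 → ℤ) :
    coord (shift k I).1 (fun i => x (i - k)) = coord I.1 x := by
  unfold coord
  rw [card_shift]
  congr 1
  simp [shift]

lemma coord_add (I : Finset (ZMod 3)) (x y : ZMod 3 → ℤ) :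
    coord I (fun i => x i + y i) = coord I x + coord I y := by
  unfold coord
  split_ifs
  · rw [Finset.sum_add_distrib]
  · simp

lemma coord_mul (I : Idx) (g x : W3) :
    coord (shift g.k I).1 (g * x).v = coord (shift g.k I).1 g.v + coord I.1 x.v := by
  rw [← coord_shift g.k I x.v, ← coord_add]
  rfl

lemma setDist_singleton {Y : Type v} [MetricSpace Y] (a b : Y) :
    setDist ({a} : Set Y) {b} = dist a b := by
  apply le_antisymm
  · exact setDist_le rfl rfl
  · apply le_setDist (Set.singleton_nonempty _) (Set.singleton_nonempty _)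
    rintro _ rfl _ rfl
    exact le_refl _

lemma hyp_real (b x y z : ℝ) :
    min ((|b - x| + |b - y| - |x - y|) / 2) ((|b - y| + |b - z| - |y - z|) / 2) - 0 ≤
      (|b - x| + |b - z| - |x - z|) / 2 := by
  rw [sub_zero, min_le_iff]
  rcases abs_cases (b - x) with ⟨h1, h1'⟩ | ⟨h1, h1'⟩ <;>
  rcases abs_cases (b - y) with ⟨h2, h2'⟩ | ⟨h2, h2'⟩ <;>
  rcases abs_cases (b - z) with ⟨h3, h3'⟩ | ⟨h3, h3'⟩ <;>
  rcases abs_cases (x - y) with ⟨h4, h4'⟩ | ⟨h4, h4'⟩ <;>
  rcases abs_cases (y - z) with ⟨h5, h5'⟩ | ⟨h5, h5'⟩ <;>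
  rcases abs_cases (x - z) with ⟨h6, h6'⟩ | ⟨h6, h6'⟩ <;>
  rw [h1, h2, h3, h4, h5, h6] <;>
  first
  | (left; linarith)
  | (right; linarith)

lemma hyp_sp (I : Idx) : Hyp (fun x y : Sp I => dist x y) 0 := by
  intro b x y z
  simp only [gprod, Subtype.dist_eq, Real.dist_eq]
  exact hyp_real b.1 x.1 y.1 z.1

lemma geodesic_sp (I : Idx) : GeodesicSpace (Sp I) := by
  intro x y
  have hmem : ∀ t : ℝ, I.1.card ≠ 1 → x.1 + t * (SignType.sign (y.1 - x.1) : ℝ) = 0 := by
    intro t h
    rw [x.2 h, y.2 h]; simp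
  refine ⟨fun t => ⟨x.1 + t * (SignType.sign (y.1 - x.1) : ℝ), hmem t⟩, |y.1 - x.1|,
    ⟨abs_nonneg _, ?_⟩, ?_, ?_⟩
  · intro s hs t ht
    rw [Subtype.dist_eq, Real.dist_eq]
    simp only
    rcases lt_trichotomy (y.1 - x.1) 0 with h | h | h
    · rw [sign_neg h]
      simp only [SignType.coe_neg_one]
      have : x.1 + s * (-1) - (x.1 + t * (-1)) = -(s - t) := by ring
      rw [this, abs_neg]
    · rw [h, abs_zero] at hs ht
      have h1 : s = 0 := le_antisymm hs.2 hs.1
      have h2 : t = 0 := le_antisymm ht.2 ht.1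
      rw [h1, h2]; simp
    · rw [sign_pos h]
      simp
  · apply Subtype.ext; simp
  · apply Subtype.ext
    simp only
    rcases lt_trichotomy (y.1 - x.1) 0 with h | h | h
    · rw [sign_neg h, abs_of_neg h]
      simp
    · rw [h]; simp; linarith
    · rw [sign_pos h, abs_of_pos h]
      simp

lemma sp_eq_of_card {I : Idx} (h : I.1.card ≠ 1) (x y : Sp I) : x = y :=
  Subtype.ext (by rw [x.2 h, y.2 h])

lemma card_ne_of_ssub {I J : Idx} (h : I.1 ⊆ J.1) (hne : I ≠ J) : J.1.card ≠ 1 := by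
  intro hc
  obtain ⟨j, hj⟩ := Finset.card_eq_one.mp hc
  obtain ⟨i, hi⟩ := I.2
  apply hne
  apply Subtype.ext
  have hij : i = j := by
    have := h hi
    rw [hj, Finset.mem_singleton] at this
    exact this
  apply Finset.Subset.antisymm h
  intro a ha
  rw [hj, Finset.mem_singleton] at ha
  rw [ha, ← hij]; exact hi

lemma card_ne_of_trans {I J : Idx} (h : ¬ Disjoint I.1 J.1) (h' : ¬ J.1 ⊆ I.1) :
    J.1.card ≠ 1 := by
  intro hc
  obtain ⟨j, hj⟩ := Finset.card_eq_one.mp hc
  obtain ⟨i, hi, hi'⟩ := Finset.not_disjoint_iff.mp h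
  apply h'
  intro a ha
  rw [hj, Finset.mem_singleton] at ha hi'
  rw [ha, ← hi']; exact hi

lemma card_ne_of_rho {I J : Idx} (_ : I ≠ J) (h : ¬ Disjoint I.1 J.1) (h' : ¬ J.1 ⊆ I.1) :
    J.1.card ≠ 1 := card_ne_of_trans h h'

/-- Generators. -/
def e (i : ZMod 3) : W3 := ⟨fun j => if j = i then 1 else 0, 0⟩

instance : DecidableEq W3 := fun a b =>
  decidable_of_iff (a.v = b.v ∧ a.k = b.k) (by rw [W3.ext_iff])

/-- The generating set. -/
def gens : Finset W3 := {e 0, e 1, e 2, r}

lemma e_zpow (i : ZMod 3) (m : ℤ) : e i ^ m = ⟨fun j => if j = i then m else 0, 0⟩ := by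
  have hn : ∀ n : ℕ, e i ^ n = ⟨fun j => if j = i then (n : ℤ) else 0, 0⟩ := by
    intro n
    induction n with
    | zero => ext j <;> simp
    | succ n ih =>
      rw [pow_succ, ih]
      ext j
      · simp only [mul_v, e, sub_zero]
        split_ifs <;> simp
      · simp [e]
  obtain ⟨n, rfl | rfl⟩ := m.eq_nat_or_neg
  · rw [zpow_natCast, hn]
  · rw [zpow_neg, zpow_natCast, hn]
    ext j
    · simp only [inv_v, add_zero]
      split_ifs <;> simp
    · simp

lemma r_pow (n : ℕ) : r ^ n = ⟨fun _ => 0, n⟩ := by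
  induction n with
  | zero => ext i <;> simp
  | succ n ih =>
    rw [pow_succ, ih]
    ext i
    · simp [r]
    · simp [r]

lemma z01 : ¬ ((0 : ZMod 3) = 1) := by decide
lemma z02 : ¬ ((0 : ZMod 3) = 2) := by decide
lemma z10 : ¬ ((1 : ZMod 3) = 0) := by decide
lemma z12 : ¬ ((1 : ZMod 3) = 2) := by decide
lemma z20 : ¬ ((2 : ZMod 3) = 0) := by decide
lemma z21 : ¬ ((2 : ZMod 3) = 1) := by decide

lemma decomp (g : W3) : g = e 0 ^ (g.v 0) * e 1 ^ (g.v 1) * e 2 ^ (g.v 2) * r ^ g.k.val := by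
  rw [e_zpow, e_zpow, e_zpow, r_pow]
  ext i
  · simp only [mul_v, mul_k, sub_zero, add_zero]
    have h3 : i = 0 ∨ i = 1 ∨ i = 2 := by revert i; decide
    rcases h3 with rfl | rfl | rfl
    · simp only [if_pos, if_neg z01, if_neg z02, add_zero]
    · simp only [if_pos, if_neg z10, if_neg z12, add_zero, zero_add]
    · simp only [if_pos, if_neg z20, if_neg z21, zero_add]
  · simp

lemma e_mem_gens (i : ZMod 3) : e i ∈ (gens : Set W3) := by
  have h3 : i = 0 ∨ i = 1 ∨ i = 2 := by revert i; decide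
  rcases h3 with rfl | rfl | rfl <;> simp [gens]

lemma r_mem_gens : r ∈ (gens : Set W3) := by simp [gens]

lemma closure_gens : Subgroup.closure (gens : Set W3) = ⊤ := by
  rw [eq_top_iff]
  intro g _
  rw [decomp g]
  have he : ∀ i, e i ∈ Subgroup.closure (gens : Set W3) :=
    fun i => Subgroup.subset_closure (e_mem_gens i)
  have hr : r ∈ Subgroup.closure (gens : Set W3) := Subgroup.subset_closure r_mem_gens
  exact mul_mem (mul_mem (mul_mem (zpow_mem (he 0) _) (zpow_mem (he 1) _)) (zpow_mem (he 2) _))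
    (pow_mem hr _)

end W3

lemma wordNorm_pow_le {G : Type w} [Group G] {T : Set G} {s : G} (hs : s ∈ T ∨ s⁻¹ ∈ T) (n : ℕ) :
    wordNorm T (s ^ n) ≤ n := by
  have h := wordNorm_le (T := T) (g := s ^ n) (l := List.replicate n s)
    (fun a ha => by rw [List.eq_of_mem_replicate ha]; exact hs) (by simp)
  simpa using h

lemma wordNorm_zpow_le {G : Type w} [Group G] {T : Set G} {s : G} (hs : s ∈ T) (m : ℤ) :
    wordNorm T (s ^ m) ≤ m.natAbs := by
  obtain ⟨n, rfl | rfl⟩ := m.eq_nat_or_neg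
  · rw [zpow_natCast]
    simpa using wordNorm_pow_le (Or.inl hs) n
  · rw [zpow_neg, zpow_natCast, ← inv_pow]
    simpa using wordNorm_pow_le (T := T) (s := s⁻¹) (Or.inr (by simpa using hs)) n

namespace W3

lemma wordNorm_le_sum (g : W3) : (wordNorm (gens : Set W3) g : ℝ) ≤
    |(g.v 0 : ℝ)| + |(g.v 1 : ℝ)| + |(g.v 2 : ℝ)| + 2 := by
  have h0 := wordNorm_zpow_le (e_mem_gens 0) (g.v 0)
  have h1 := wordNorm_zpow_le (e_mem_gens 1) (g.v 1)
  have h2 := wordNorm_zpow_le (e_mem_gens 2) (g.v 2)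
  have h3 := wordNorm_pow_le (T := (gens : Set W3)) (Or.inl r_mem_gens) g.k.val
  have h4 : g.k.val ≤ 2 := by
    have := ZMod.val_lt g.k
    omega
  have t1 := wordNorm_mul closure_gens (e 0 ^ (g.v 0) * e 1 ^ (g.v 1) * e 2 ^ (g.v 2))
    (r ^ g.k.val)
  have t2 := wordNorm_mul closure_gens (e 0 ^ (g.v 0) * e 1 ^ (g.v 1)) (e 2 ^ (g.v 2))
  have t3 := wordNorm_mul closure_gens (e 0 ^ (g.v 0)) (e 1 ^ (g.v 1))
  rw [← decomp g] at t1
  have key : wordNorm (gens : Set W3) g ≤
      (g.v 0).natAbs + (g.v 1).natAbs + (g.v 2).natAbs + 2 := by omega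
  have e0 : |(g.v 0 : ℝ)| = ((g.v 0).natAbs : ℝ) := by
    rw [← Int.cast_abs, ← Int.natCast_natAbs]; simp
  have e1 : |(g.v 1 : ℝ)| = ((g.v 1).natAbs : ℝ) := by
    rw [← Int.cast_abs, ← Int.natCast_natAbs]; simp
  have e2 : |(g.v 2 : ℝ)| = ((g.v 2).natAbs : ℝ) := by
    rw [← Int.cast_abs, ← Int.natCast_natAbs]; simp
  rw [e0, e1, e2]
  exact_mod_cast key

lemma coord_le_of (I : Finset (ZMod 3)) (x : ZMod 3 → ℤ) (C : ℤ) (hC : 0 ≤ C)
    (h : ∀ i, x i ≤ C) : coord I x ≤ C := by
  unfold coord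
  split_ifs with hc
  · obtain ⟨i, rfl⟩ := Finset.card_eq_one.mp hc
    simpa using h i
  · exact hC

/-- Coordinates are Lipschitz for the word metric. -/
lemma coord_lip (I : Idx) (x y : W3) :
    |(coord I.1 x.v : ℝ) - coord I.1 y.v| ≤ wordDist (gens : Set W3) x y := by
  have key : ∀ x y : W3, (coord I.1 y.v : ℝ) - coord I.1 x.v ≤ wordDist (gens : Set W3) x y := by
    intro x y
    have h := le_wordNorm closure_gens
      (fun g : W3 => (coord I.1 (x * g).v : ℝ) - coord I.1 x.v) 1 (by simp) (by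
        intro g s hs
        have h1 : coord I.1 (x * (g * s)).v ≤ coord I.1 (x * g).v + 1 := by
          have h2 : coord I.1 (x * (g * s)).v = coord I.1 (x * g).v +
              coord I.1 (fun i => s.v (i - (x * g).k)) := by
            rw [← coord_add, ← mul_assoc]; rfl
          rw [h2]
          have h3 : coord I.1 (fun i => s.v (i - (x * g).k)) ≤ 1 := by
            apply coord_le_of _ _ _ (by norm_num)
            intro i
            have hcases : s = e 0 ∨ s = e 1 ∨ s = e 2 ∨ s = r ∨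
                s⁻¹ = e 0 ∨ s⁻¹ = e 1 ∨ s⁻¹ = e 2 ∨ s⁻¹ = r := by
              rcases hs with hs | hs
              · simp only [gens, Finset.coe_insert, Finset.coe_singleton,
                  Set.mem_insert_iff, Set.mem_singleton_iff] at hs
                tauto
              · simp only [gens, Finset.coe_insert, Finset.coe_singleton,
                  Set.mem_insert_iff, Set.mem_singleton_iff] at hs
                tauto
            have hpos : ∀ j l : ZMod 3, (e j).v l ≤ 1 := by
              intro j l; simp only [e]; split_ifs <;> norm_num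
            have hneg : ∀ j l : ZMod 3, ((e j)⁻¹).v l ≤ 1 := by
              intro j l; simp only [inv_v, e]; split_ifs <;> norm_num
            rcases hcases with h | h | h | h | h | h | h | h
            · rw [h]; exact hpos _ _
            · rw [h]; exact hpos _ _
            · rw [h]; exact hpos _ _
            · rw [h]; simp [r]
            · rw [← inv_inv s, h]; exact hneg _ _
            · rw [← inv_inv s, h]; exact hneg _ _
            · rw [← inv_inv s, h]; exact hneg _ _
            · rw [← inv_inv s, h]; simp [r]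
          linarith
        have h1' : (coord I.1 (x * (g * s)).v : ℝ) ≤ coord I.1 (x * g).v + 1 := by
          exact_mod_cast h1
        linarith) (x⁻¹ * y)
    simp only [mul_inv_cancel_left, one_mul] at h
    exact h
  rw [abs_le]
  have h1 := key x y
  have h2 := key y x
  rw [wordDist_symm closure_gens] at h2
  constructor <;> linarith

end W3

end Pool.Agent.Helper92.CT
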